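import Pool.Agent.Lib.DI.F5.Spec

/-!
# THEOREM DI, part F5: basic facts on `E4`, `E6`, `Δ`, `j`
-/

set_option autoImplicit false

namespace DIF5

open UpperHalfPlane Polynomial Filter
open scoped MatrixGroups Topology CongruenceSubgroup

private theorem Dl_an {f : ℍ → ℂ} (h : DifferentiableOn ℂ (f ∘ ofComplex) {z | 0 < z.im}) :
    An f := fun z =>
  h.analyticAt (isOpen_upperHalfPlaneSet.mem_nhds z.im_pos)

private theorem Dl_tr {F : Type*} [FunLike F ℍ ℂ] {k : ℤ} [SlashInvariantFormClass F 𝒮ℒ k] (f : F)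
    (γ : SL(2, ℤ)) (z : ℍ) : f (γ • z) = dn γ z ^ k * f z := by
  rw [dn_eq]
  have : SlashInvariantFormClass F Γ(1) k := CongruenceSubgroup.Gamma_one_coe_eq_SL ▸ ‹_›
  exact SlashInvariantForm.slash_action_eqn_SL'' f (CongruenceSubgroup.mem_Gamma_one γ) z

theorem sDl : S_Dl := by
  have h0 : ∀ z : ℍ, dl z ≠ 0 := fun z => ModularForm.discriminant_ne_zero z
  have a4 : An e4 := Dl_an (UpperHalfPlane.mdifferentiable_iff.1 ModularForm.E₄.holo')
  have a6 : An e6 := Dl_an (UpperHalfPlane.mdifferentiable_iff.1 ModularForm.E₆.holo')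
  have ad : An dl := Dl_an (UpperHalfPlane.mdifferentiable_iff.1 CuspForm.discriminant.holo')
  have t4 : ∀ (γ : SL(2, ℤ)) (z : ℍ), e4 (γ • z) = dn γ z ^ 4 * e4 z := by
    intro γ z
    have h := Dl_tr ModularForm.E₄ γ z
    exact_mod_cast h
  have t6 : ∀ (γ : SL(2, ℤ)) (z : ℍ), e6 (γ • z) = dn γ z ^ 6 * e6 z := by
    intro γ z
    have h := Dl_tr ModularForm.E₆ γ z
    exact_mod_cast h
  have td : ∀ (γ : SL(2, ℤ)) (z : ℍ), dl (γ • z) = dn γ z ^ 12 * dl z := by
    intro γ z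
    have h := Dl_tr CuspForm.discriminant γ z
    exact_mod_cast h
  have hf : ∀ z : ℍ, dl z = (e4 z ^ 3 - e6 z ^ 2) / 1728 := fun z =>
    ModularForm.discriminant_eq_E₄_cube_sub_E₆_sq z
  refine ⟨h0, a4, a6, ad, ?_, ?_, t4, t6, td, ?_, hf, ?_, ?_⟩
  · intro z
    exact ((a4 z).pow 3).div (ad z) (h0 _)
  · intro z
    exact (ad z).inv (h0 _)
  · intro γ z
    have h1 := dn_ne_zero γ z
    have h2 := h0 z
    unfold jj
    rw [t4, td]
    field_simp
  · have h4 : e4 ∈ A0 := Algebra.subset_adjoin (Set.mem_insert _ _)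
    have h6 : e6 ∈ A0 := Algebra.subset_adjoin (Set.mem_insert_of_mem _ (Set.mem_singleton _))
    have h : dl = (1728 : ℂ)⁻¹ • (e4 ^ 3 - e6 ^ 2) := by
      funext z
      rw [hf z, Pi.smul_apply, Pi.sub_apply, Pi.pow_apply, Pi.pow_apply, smul_eq_mul,
        div_eq_inv_mul]
    rw [h]
    exact A0.smul_mem (A0.sub_mem (A0.pow_mem h4 3) (A0.pow_mem h6 2)) _
  · intro a ha
    refine Algebra.adjoin_induction (p := fun a _ => An a) ?_ ?_ ?_ ?_ ha
    · rintro x (rfl | rfl)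
      · exact a4
      · exact a6
    · intro r z
      exact analyticAt_const
    · intro x y _ _ hx hy z
      exact (hx z).add (hy z)
    · intro x y _ _ hx hy z
      exact (hx z).mul (hy z)

end DIF5
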