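import Pool.Agent.Lib.DI.F5.Spec

/-!
# THEOREM DI, part F5: behaviour of `E4`, `E6`, `Δ` at `i ∞`
-/

set_option autoImplicit false

namespace DIF5

open UpperHalfPlane Polynomial Filter
open scoped MatrixGroups Topology

private theorem DlInf_q (z : ℍ) : qq z = Function.Periodic.qParam 1 (z : ℂ) := by
  unfold qq Function.Periodic.qParam
  congr 1
  push_cast
  rw [div_one]

private theorem DlInf_I : Tendsto (fun t : ℝ => ofComplex (t * Complex.I)) atTop atImInfty := by
  rw [atImInfty, tendsto_comap_iff]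
  refine tendsto_id.congr' ?_
  filter_upwards [eventually_gt_atTop 0] with t ht
  have h : 0 < (t * Complex.I).im := by simpa using ht
  rw [Function.comp_apply, ofComplex_apply_of_im_pos h]
  change t = (t * Complex.I).im
  simp

theorem sDlInf : S_DlInf := by
  refine ⟨?_, ?_, ?_⟩
  · have hprod := ModularForm.tendsto_atImInfty_tprod_one_sub_eta_q_pow.eventually
      (Metric.ball_mem_nhds 1 (by norm_num : (0 : ℝ) < 1 / 2))
    rw [Filter.Eventually, atImInfty_mem] at hprod
    obtain ⟨A, hA⟩ := hprod
    refine ⟨A, 1 / 2, 2, by norm_num, fun z hz => ?_⟩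
    have h1 := hA z hz.le
    have h2 : dl z = qq z * ∏' n, (1 - ModularForm.eta_q n z) ^ 24 := by
      rw [DlInf_q]
      exact ModularForm.discriminant_eq_q_prod z
    obtain ⟨P, hP⟩ : ∃ P, P = ∏' n, (1 - ModularForm.eta_q n z) ^ 24 := ⟨_, rfl⟩
    have h3 : ‖P - 1‖ < 1 / 2 := by
      have h4 : (∏' n, (1 - ModularForm.eta_q n z) ^ 24) ∈ Metric.ball (1 : ℂ) (1 / 2) := h1
      rw [Metric.mem_ball, Complex.dist_eq, ← hP] at h4
      exact h4
    rw [← hP] at h2
    have h4 : 1 / 2 ≤ ‖P‖ := by
      have h5 := norm_sub_norm_le 1 P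
      rw [norm_one, norm_sub_rev] at h5
      linarith
    have h5 : ‖P‖ ≤ 2 := by
      have h6 := norm_sub_norm_le P 1
      rw [norm_one] at h6
      linarith
    rw [h2, norm_mul]
    have h6 := norm_nonneg (qq z)
    constructor
    · nlinarith
    · nlinarith
  · have b4 : IsBoundedAtImInfty (ModularForm.E₄ : ℍ → ℂ) :=
      ModularFormClass.bdd_at_infty ModularForm.E₄
    have b6 : IsBoundedAtImInfty (ModularForm.E₆ : ℍ → ℂ) :=
      ModularFormClass.bdd_at_infty ModularForm.E₆
    rw [isBoundedAtImInfty_iff] at b4 b6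
    obtain ⟨C, Y, h4⟩ := b4
    obtain ⟨C', Y', h6⟩ := b6
    refine ⟨max Y Y', max C C', fun z hz => ⟨?_, ?_⟩⟩
    · exact (h4 z ((le_max_left _ _).trans hz.le)).trans (le_max_left _ _)
    · exact (h6 z ((le_max_right _ _).trans hz.le)).trans (le_max_right _ _)
  · have hanal := ModularFormClass.analyticAt_cuspFunction_zero ModularForm.E₄ one_pos
      one_mem_strictPeriods_SL
    have hper := SlashInvariantFormClass.periodic_comp_ofComplex ModularForm.E₄
      one_mem_strictPeriods_SL
    have h1 : cuspFunction 1 ModularForm.E₄ 0 = 1 := by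
      rw [cuspFunction_apply_zero one_pos hanal hper, ← qExpansion_coeff_zero one_pos hanal hper]
      exact EisensteinSeries.E_qExpansion_coeff_zero _ ⟨2, rfl⟩
    have h2 : Tendsto e4 atImInfty (𝓝 1) := by
      rw [← h1]
      exact (hanal.continuousAt.tendsto.comp (qParam_tendsto_atImInfty one_pos)).congr
        (fun τ => SlashInvariantFormClass.eq_cuspFunction ModularForm.E₄ τ
          one_mem_strictPeriods_SL one_pos.ne')
    exact h2.comp DlInf_I

end DIF5
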