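import Pool.Agent.Lib.DI.F5.Spec

/-!
# THEOREM DI, part F5: `E4`, `E6`, `Δ`, `j` and the polynomials in `j` are `MF`
-/

set_option autoImplicit false

namespace DIF5

open UpperHalfPlane Polynomial Filter
open scoped MatrixGroups Topology

theorem sDlMF (hClo : S_Clo) (hDl : S_Dl) (hDlInf : S_DlInf) : S_DlMF := by
  obtain ⟨hc, hMF, hAn, hg⟩ := hClo
  obtain ⟨h0, a4, a6, ad, aj, ai, -⟩ := hDl
  obtain ⟨⟨Y, c, C, hcpos, h1⟩, ⟨Y', C', h2⟩, -⟩ := hDlInf
  have m4 : MF e4 := hg e4 a4 ⟨Y', C', 0, fun z hz => by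
    rw [pow_zero, one_mul]
    exact (h2 z hz).1⟩
  have m6 : MF e6 := hg e6 a6 ⟨Y', C', 0, fun z hz => by
    rw [pow_zero, one_mul]
    exact (h2 z hz).2⟩
  have hq : ∀ z : ℍ, ‖qq z‖ ≤ 1 := by
    intro z
    unfold qq
    rw [Complex.norm_exp]
    apply Real.exp_le_one_iff.2
    have h3 : (2 * Real.pi * Complex.I * (z : ℂ)).re = - (2 * Real.pi * z.im) := by
      simp [Complex.mul_re, Complex.mul_im]
    rw [h3]
    have := Real.pi_pos
    have := z.im_pos
    have : 0 < 2 * Real.pi * z.im := by positivity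
    linarith
  have md : MF dl := hg dl ad ⟨Y, |C|, 0, fun z hz => by
    rw [pow_zero, one_mul]
    refine (h1 z hz).2.trans ?_
    calc C * ‖qq z‖ ≤ |C| * ‖qq z‖ := mul_le_mul_of_nonneg_right (le_abs_self C) (norm_nonneg _)
      _ ≤ |C| * 1 := mul_le_mul_of_nonneg_left (hq z) (abs_nonneg C)
      _ = |C| := mul_one _⟩
  have mi : MF (fun z => (dl z)⁻¹) := hg _ ai ⟨Y, 1 / c, 1, fun z hz => by
    have h3 := (h1 z hz).1
    have h4 : 0 < ‖dl z‖ := norm_pos_iff.2 (h0 z)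
    rw [pow_one, norm_mul, norm_inv, ← div_eq_mul_inv, div_le_div_iff₀ h4 hcpos]
    linarith⟩
  have mj : MF jj := by
    have h3 : jj = (e4 * (e4 * e4)) * (fun z => (dl z)⁻¹) := by
      funext z
      change e4 z ^ 3 / dl z = (e4 z * (e4 z * e4 z)) * (dl z)⁻¹
      rw [div_eq_mul_inv]
      ring
    rw [h3]
    exact (hMF _ _ (hMF _ _ m4 (hMF _ _ m4 m4).2).2 mi).2
  refine ⟨m4, m6, md, mi, mj, fun P => ?_⟩
  induction P using Polynomial.induction_on with
  | C a =>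
    have h3 : (fun z : ℍ => (Polynomial.C a).eval (jj z)) = fun _ => a := by
      funext z
      rw [eval_C]
    rw [h3]
    exact hc a
  | add p q hp hq' =>
    have h3 : (fun z : ℍ => (p + q).eval (jj z)) =
        (fun z => p.eval (jj z)) + fun z => q.eval (jj z) := by
      funext z
      rw [eval_add]
      rfl
    rw [h3]
    exact ⟨(hMF _ _ hp.1 hq'.1).1, (hAn _ _ hp.2 hq'.2).1⟩
  | monomial n a hp =>
    have h3 : (fun z : ℍ => (Polynomial.C a * X ^ (n + 1)).eval (jj z)) =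
        (fun z => (Polynomial.C a * X ^ n).eval (jj z)) * jj := by
      funext z
      rw [Pi.mul_apply, pow_succ, ← mul_assoc, eval_mul, eval_X]
    rw [h3]
    exact ⟨(hMF _ _ hp.1 mj).2, (hAn _ _ hp.2 aj).2⟩

end DIF5
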