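import Pool.Agent.Lib.DI.F5.Spec

set_option autoImplicit false

/-!
# Analytic functions on the upper half plane form a domain (`S_Dom`)
-/

namespace DIF5

open UpperHalfPlane

private lemma Dom_conv : IsPreconnected {z : ℂ | 0 < z.im} :=
  (convex_halfSpace_im_gt 0).isPreconnected

private lemma Dom_nhd {f : ℍ → ℂ} (hf : An f) :
    AnalyticOnNhd ℂ (f ∘ ofComplex) {z : ℂ | 0 < z.im} :=
  fun z hz => hf ⟨z, hz⟩

theorem sDom : S_Dom := by
  intro f g hf hg hfg
  have h0 : ∀ z ∈ {z : ℂ | 0 < z.im}, (f ∘ ofComplex) z * (g ∘ ofComplex) z = 0 := fun z _ =>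
    congrFun hfg (ofComplex z)
  rcases (Dom_nhd hf).eq_zero_or_eq_zero_of_mul_eq_zero (Dom_nhd hg) h0 Dom_conv with h | h
  · left
    ext z
    have := h (z : ℂ) z.im_pos
    simpa using this
  · right
    ext z
    have := h (z : ℂ) z.im_pos
    simpa using this

end DIF5
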