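import Pool.Agent.Lib.DI.F5.Spec

/-!
# THEOREM DI, part F5, module E1: the transformation law of the Eisenstein series `EE M v`
-/

set_option autoImplicit false

namespace DIF5

open UpperHalfPlane Matrix
open scoped MatrixGroups

private theorem E1_mul_inv (γ δ : SL(2, ℤ)) (h : γ * δ = 1) (u : Fin 2 → ℤ) :
    (u ᵥ* (γ : Matrix (Fin 2) (Fin 2) ℤ)) ᵥ* (δ : Matrix (Fin 2) (Fin 2) ℤ) = u := by
  have h1 : (γ : Matrix (Fin 2) (Fin 2) ℤ) * (δ : Matrix (Fin 2) (Fin 2) ℤ) = 1 := by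
    rw [← Matrix.SpecialLinearGroup.coe_mul, h, Matrix.SpecialLinearGroup.coe_one]
  rw [Matrix.vecMul_vecMul, h1, Matrix.vecMul_one]

/-- The bijection `u ↦ u γ` of `ℤ²`. -/
private def E1_equiv (γ : SL(2, ℤ)) : (Fin 2 → ℤ) ≃ (Fin 2 → ℤ) where
  toFun u := u ᵥ* (γ : Matrix (Fin 2) (Fin 2) ℤ)
  invFun u := u ᵥ* ((γ⁻¹ : SL(2, ℤ)) : Matrix (Fin 2) (Fin 2) ℤ)
  left_inv u := E1_mul_inv γ γ⁻¹ (mul_inv_cancel γ) u
  right_inv u := E1_mul_inv γ⁻¹ γ (inv_mul_cancel γ) u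

/-- `act` is compatible with the multiplication of integral vectors. -/
theorem E1_act_cast {M : ℕ} (u : Fin 2 → ℤ) (γ : SL(2, ℤ)) :
    (fun i => (((u ᵥ* (γ : Matrix (Fin 2) (Fin 2) ℤ)) i : ℤ) : ZMod M)) =
      act (fun i => ((u i : ℤ) : ZMod M)) γ := by
  funext i
  have h : (u ᵥ* (γ : Matrix (Fin 2) (Fin 2) ℤ)) i = u 0 * γ 0 i + u 1 * γ 1 i := by
    simp [Matrix.vecMul, dotProduct, Fin.sum_univ_two]
  rw [h]
  simp [act]

/-- `act v γ` determines `v`. -/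
theorem E1_act_inj {M : ℕ} (v w : Fin 2 → ZMod M) (γ : SL(2, ℤ)) (h : act v γ = act w γ) :
    v = w := by
  have hdet : ((γ 0 0 : ℤ) : ZMod M) * ((γ 1 1 : ℤ) : ZMod M) -
      ((γ 0 1 : ℤ) : ZMod M) * ((γ 1 0 : ℤ) : ZMod M) = 1 := by
    have h1 := γ.det_coe
    rw [Matrix.det_fin_two] at h1
    have h2 := congrArg (Int.cast : ℤ → ZMod M) h1
    push_cast at h2
    exact h2
  have h0 : v 0 * ((γ 0 0 : ℤ) : ZMod M) + v 1 * ((γ 1 0 : ℤ) : ZMod M) =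
      w 0 * ((γ 0 0 : ℤ) : ZMod M) + w 1 * ((γ 1 0 : ℤ) : ZMod M) := congrFun h 0
  have h1 : v 0 * ((γ 0 1 : ℤ) : ZMod M) + v 1 * ((γ 1 1 : ℤ) : ZMod M) =
      w 0 * ((γ 0 1 : ℤ) : ZMod M) + w 1 * ((γ 1 1 : ℤ) : ZMod M) := congrFun h 1
  funext i
  fin_cases i
  · change v 0 = w 0
    linear_combination ((γ 1 1 : ℤ) : ZMod M) * h0 - ((γ 1 0 : ℤ) : ZMod M) * h1 -
      (v 0 - w 0) * hdet
  · change v 1 = w 1
    linear_combination ((γ 0 0 : ℤ) : ZMod M) * h1 - ((γ 0 1 : ℤ) : ZMod M) * h0 -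
      (v 1 - w 1) * hdet

/-- **E1**: the transformation law. -/
theorem sE1 : S_E1 := by
  intro M v γ z
  have key : ∀ u : Fin 2 → ℤ,
      (if (fun i => ((u i : ℤ) : ZMod M)) = v then
        EisensteinSeries.eisSummand 12 u (γ • z) else 0) =
      dn γ z ^ 12 * (fun w : Fin 2 → ℤ => if (fun i => ((w i : ℤ) : ZMod M)) = act v γ then
        EisensteinSeries.eisSummand 12 w z else 0) (E1_equiv γ u) := by
    intro u
    change _ = dn γ z ^ 12 * (if (fun i => (((u ᵥ* (γ : Matrix (Fin 2) (Fin 2) ℤ)) i : ℤ) :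
      ZMod M)) = act v γ then EisensteinSeries.eisSummand 12 (u ᵥ* _) z else 0)
    rw [E1_act_cast]
    by_cases hu : (fun i => ((u i : ℤ) : ZMod M)) = v
    · rw [if_pos hu, if_pos (by rw [hu]), EisensteinSeries.eisSummand_SL2_apply, dn_eq]
      norm_cast
    · rw [if_neg hu, if_neg fun h => hu (E1_act_inj _ _ γ h), mul_zero]
  unfold EE
  rw [tsum_congr key, tsum_mul_left]
  congr 1
  exact (E1_equiv γ).tsum_eq (fun w : Fin 2 → ℤ =>
    if (fun i => ((w i : ℤ) : ZMod M)) = act v γ then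
        EisensteinSeries.eisSummand 12 w z else 0)

end DIF5
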