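import Pool.Agent.Lib.DI.F5.Spec

set_option autoImplicit false

namespace DIF5

open UpperHalfPlane Filter Topology
open scoped MatrixGroups

/-- The summand of `EE M v`. -/
private noncomputable def E2_t (M : ℕ) (v : Fin 2 → ZMod M) (u : Fin 2 → ℤ) (z : ℍ) : ℂ :=
  if (fun i => (u i : ZMod M)) = v then EisensteinSeries.eisSummand 12 u z else 0

private theorem E2_unif (M : ℕ) (v : Fin 2 → ZMod M) :
    TendstoLocallyUniformly
      (fun (s : Finset (Fin 2 → ℤ)) => (fun z : ℍ => ∑ u ∈ s, E2_t M v u z))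
      (fun z : ℍ => EE M v z) atTop := by
  have hk' : (2 : ℝ) < ((12 : ℤ) : ℝ) := by norm_num
  have p_sum : Summable fun x : Fin 2 → ℤ => ‖x‖ ^ (-(12 : ℤ)) :=
    mod_cast (EisensteinSeries.summable_one_div_norm_rpow hk')
  simp only [tendstoLocallyUniformly_iff_forall_isCompact]
  intro K hK
  obtain ⟨A, B, hB, HABK⟩ := subset_verticalStrip_of_isCompact hK
  refine (tendstoUniformlyOn_tsum
    (hu := p_sum.mul_left <| EisensteinSeries.r ⟨⟨A, B⟩, hB⟩ ^ (-((12 : ℤ) : ℝ)))
    (fun p z hz => ?_)).mono HABK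
  have h1 : ‖E2_t M v p z‖ ≤ ‖EisensteinSeries.eisSummand 12 p z‖ := by
    unfold E2_t
    split_ifs
    · exact le_rfl
    · rw [norm_zero]
      exact norm_nonneg _
  refine h1.trans ?_
  simpa only [EisensteinSeries.eisSummand, one_div, ← zpow_neg, norm_zpow, ← Real.rpow_intCast,
    Int.cast_neg] using
    EisensteinSeries.summand_bound_of_mem_verticalStrip (k := ((12 : ℤ) : ℝ))
      (by norm_num) p hB hz

theorem sE2 : S_E2 := by
  intro M v z
  have h1 : TendstoLocallyUniformlyOn (fun (s : Finset (Fin 2 → ℤ)) =>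
      (fun z : ℍ => ∑ u ∈ s, E2_t M v u z) ∘ ofComplex) (EE M v ∘ ofComplex)
      atTop {z : ℂ | 0 < z.im} := by
    rw [← upperHalfPlaneSet, ← range_coe, ← Set.image_univ]
    apply TendstoLocallyUniformlyOn.comp (s := ⊤) _ _ _ (OpenPartialHomeomorph.continuousOn_symm _)
    · simp only [Set.top_eq_univ, tendstoLocallyUniformlyOn_univ]
      exact E2_unif M v
    · simp only [Topology.IsOpenEmbedding.toOpenPartialHomeomorph_target, Set.top_eq_univ,
        Set.mapsTo_range_iff, Set.mem_univ, forall_const]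
  have h2 : DifferentiableOn ℂ (EE M v ∘ ofComplex) {z : ℂ | 0 < z.im} := by
    refine h1.differentiableOn (Eventually.of_forall fun s => ?_) isOpen_upperHalfPlaneSet
    have h3 : ((fun z : ℍ => ∑ u ∈ s, E2_t M v u z) ∘ ofComplex)
        = fun w : ℂ => ∑ u ∈ s, (E2_t M v u ∘ ofComplex) w := by
      funext w
      rfl
    rw [h3]
    refine DifferentiableOn.fun_sum fun u _ => ?_
    by_cases hu : (fun i => (u i : ZMod M)) = v
    · have h4 : E2_t M v u = EisensteinSeries.eisSummand 12 u := by
        funext w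
        exact if_pos hu
      rw [h4]
      exact EisensteinSeries.eisSummand_extension_differentiableOn 12 u
    · have h4 : E2_t M v u = fun _ => 0 := by
        funext w
        exact if_neg hu
      rw [h4]
      exact differentiableOn_const (0 : ℂ)
  exact h2.analyticAt (isOpen_upperHalfPlaneSet.mem_nhds z.2)

end DIF5
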