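import Pool.Agent.Lib.DI.F5.Spec

set_option autoImplicit false

namespace DIF5

open UpperHalfPlane Polynomial Filter Topology
open scoped MatrixGroups

private theorem E4_of (y : ℝ) (hy : 1 ≤ y) :
    ((ofComplex (y * Complex.I) : ℍ) : ℂ) = y * Complex.I ∧
    ofComplex (y * Complex.I) ∈ verticalStrip 1 1 := by
  have h1 : 0 < ((y : ℂ) * Complex.I).im := by
    simp
    linarith
  have h2 : ofComplex (y * Complex.I) = ⟨y * Complex.I, h1⟩ := ofComplex_apply_of_im_pos h1
  rw [h2]
  refine ⟨rfl, ?_⟩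
  rw [mem_verticalStrip_iff]
  constructor
  · show |((y : ℂ) * Complex.I).re| ≤ 1
    simp
  · show 1 ≤ ((y : ℂ) * Complex.I).im
    simpa using hy

/-- termwise limit for a nonzero first coordinate -/
private theorem E4_term (a b : ℤ) (ha : a ≠ 0) :
    Tendsto (fun y : ℝ => ((a : ℂ) * (y * Complex.I) + b) ^ (-12 : ℤ)) atTop (𝓝 0) := by
  refine squeeze_zero_norm' (a := fun y : ℝ => y⁻¹) ?_ tendsto_inv_atTop_zero
  filter_upwards [eventually_ge_atTop (1 : ℝ)] with y hy
  have h1 : y ≤ ‖(a : ℂ) * (y * Complex.I) + b‖ := by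
    have h2 := Complex.abs_im_le_norm ((a : ℂ) * (y * Complex.I) + b)
    have h3 : ((a : ℂ) * (y * Complex.I) + b).im = a * y := by simp
    rw [h3, abs_mul, abs_of_nonneg (by linarith : (0 : ℝ) ≤ y)] at h2
    have h4 : (1 : ℝ) ≤ |(a : ℝ)| := by
      exact_mod_cast Int.one_le_abs ha
    nlinarith
  rw [norm_zpow, zpow_neg]
  have h5 : y ≤ ‖(a : ℂ) * (y * Complex.I) + b‖ ^ (12 : ℤ) := by
    have h6 : (1 : ℝ) ≤ ‖(a : ℂ) * (y * Complex.I) + b‖ := hy.trans h1
    have h7 : ‖(a : ℂ) * (y * Complex.I) + b‖ ≤ ‖(a : ℂ) * (y * Complex.I) + b‖ ^ (12 : ℕ) :=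
      le_self_pow₀ h6 (by norm_num)
    exact_mod_cast h1.trans h7
  exact inv_anti₀ (by linarith) h5

theorem sE4 : S_E4 := by
  intro M v
  classical
  set g : (Fin 2 → ℤ) → ℂ := fun u =>
    if (fun i => (u i : ZMod M)) = v then (if u 0 = 0 then ((u 1 : ℤ) : ℂ) ^ (-12 : ℤ) else 0)
    else 0 with hg
  have hsum : ∑' u, g u = ((cst M v : ℝ) : ℂ) := by
    have hinj : Function.Injective (fun n : ℤ => (![0, n] : Fin 2 → ℤ)) := by
      intro a b hab
      have := congrFun hab 1
      simpa using this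
    have hsupp : Function.support g ⊆ Set.range (fun n : ℤ => (![0, n] : Fin 2 → ℤ)) := by
      intro u hu
      rw [Function.mem_support] at hu
      have h0 : u 0 = 0 := by
        by_contra h
        apply hu
        simp only [hg, if_neg h, ite_self]
      refine ⟨u 1, ?_⟩
      funext i
      fin_cases i
      · simp [h0]
      · simp
    rw [← hinj.tsum_eq hsupp, cst, Complex.ofReal_tsum]
    refine tsum_congr fun n => ?_
    have h1 : ((fun i => ((![0, n] : Fin 2 → ℤ) i : ZMod M)) = v) ↔
        (v 0 = 0 ∧ (n : ZMod M) = v 1) := by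
      constructor
      · intro h
        have h2 := congrFun h 0
        have h3 := congrFun h 1
        simp only [Matrix.cons_val_zero, Int.cast_zero, Matrix.cons_val_one] at h2 h3
        exact ⟨h2.symm, h3⟩
      · rintro ⟨h2, h3⟩
        funext i
        fin_cases i
        · simp [h2]
        · simpa using h3
    simp only [hg]
    by_cases h2 : v 0 = 0 ∧ (n : ZMod M) = v 1
    · rw [if_pos (h1.2 h2), if_pos h2]
      simp only [Matrix.cons_val_zero, if_true, Matrix.cons_val_one]
      rw [zpow_neg]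
      push_cast
      norm_cast
    · rw [if_neg (fun h => h2 (h1.1 h)), if_neg h2, Complex.ofReal_zero]
  rw [← hsum]
  unfold EE
  have hk : (2 : ℝ) < 12 := by norm_num
  refine tendsto_tsum_of_dominated_convergence
    (bound := fun u : Fin 2 → ℤ => EisensteinSeries.r ⟨⟨1, 1⟩, one_pos⟩ ^ (-12 : ℝ) *
      ‖u‖ ^ (-12 : ℝ)) ((EisensteinSeries.summable_one_div_norm_rpow hk).mul_left _) ?_ ?_
  · intro u
    simp only [hg]
    by_cases h1 : (fun i => (u i : ZMod M)) = v
    · simp only [if_pos h1]
      by_cases h2 : u 0 = 0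
      · rw [if_pos h2]
        refine tendsto_const_nhds.congr fun y => ?_
        rw [EisensteinSeries.eisSummand, h2]
        simp
      · rw [if_neg h2]
        refine (E4_term (u 0) (u 1) h2).congr' ?_
        filter_upwards [eventually_ge_atTop (1 : ℝ)] with y hy
        rw [EisensteinSeries.eisSummand, (E4_of y hy).1]
    · simp only [if_neg h1]
      exact tendsto_const_nhds
  · filter_upwards [eventually_ge_atTop (1 : ℝ)] with y hy
    intro u
    have h3 := EisensteinSeries.summand_bound_of_mem_verticalStrip (k := 12) (by norm_num) u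
      one_pos (E4_of y hy).2
    have h4 : ‖EisensteinSeries.eisSummand 12 u (ofComplex (y * Complex.I))‖ ≤
        EisensteinSeries.r ⟨⟨1, 1⟩, one_pos⟩ ^ (-12 : ℝ) * ‖u‖ ^ (-12 : ℝ) := by
      rw [EisensteinSeries.eisSummand, norm_zpow]
      exact_mod_cast h3
    split_ifs
    · exact h4
    · rw [norm_zero]
      exact (norm_nonneg _).trans h4

end DIF5
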