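import Pool.Agent.Lib.DI.F5.Spec

set_option autoImplicit false

namespace DIF5

private theorem E5_sumInt : HasSum (fun n : ℤ => 1 / (n : ℝ) ^ 2) (Real.pi ^ 2 / 6 + Real.pi ^ 2 / 6) := by
  have h1 := hasSum_zeta_two
  apply HasSum.of_nat_of_neg_add_one
  · simpa using h1
  · have h2 : HasSum (fun n : ℕ => (1 : ℝ) / ((n + 1 : ℕ) : ℝ) ^ 2) (Real.pi ^ 2 / 6) := by
      rw [hasSum_nat_add_iff (f := fun n : ℕ => (1 : ℝ) / (n : ℝ) ^ 2) 1]
      simpa using h1
    have e : (fun n : ℕ => (1 : ℝ) / ((-((n : ℤ) + 1) : ℤ) : ℝ) ^ 2) =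
        fun n : ℕ => (1 : ℝ) / ((n + 1 : ℕ) : ℝ) ^ 2 := by
      funext n
      push_cast
      congr 1
      ring
    rw [e]
    exact h2

private theorem E5_pi : Real.pi ^ 2 / 6 + Real.pi ^ 2 / 6 < 4 := by
  have h1 := Real.pi_lt_d2
  have h2 := Real.pi_pos
  nlinarith

private theorem E5_summ (P : ℤ → Prop) [DecidablePred P] :
    Summable (fun n : ℤ => if P n then ((n : ℝ) ^ 12)⁻¹ else 0) := by
  have h1 : Summable (fun n : ℤ => 1 / (n : ℝ) ^ 12) :=
    Real.summable_one_div_int_pow.2 (by norm_num)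
  refine Summable.of_nonneg_of_le ?_ ?_ h1
  · intro n
    split_ifs
    · positivity
    · exact le_rfl
  · intro n
    split_ifs
    · rw [one_div]
    · positivity

private theorem E5_term (n : ℤ) (h1 : n ≠ 1) (h2 : n ≠ -1) :
    ((n : ℝ) ^ 12)⁻¹ ≤ 1 / 1024 * (1 / (n : ℝ) ^ 2) := by
  by_cases h0 : n = 0
  · simp [h0]
  · have h3 : (4 : ℤ) ≤ n ^ 2 := by
      have h4 : 2 ≤ n ∨ n ≤ -2 := by omega
      rcases h4 with h4 | h4 <;> nlinarith
    have h4 : (4 : ℝ) ≤ (n : ℝ) ^ 2 := by exact_mod_cast h3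
    have h5 : (4 : ℝ) ^ 5 ≤ ((n : ℝ) ^ 2) ^ 5 := pow_le_pow_left₀ (by norm_num) h4 5
    have h6 : 0 < (n : ℝ) ^ 2 := by linarith
    have e : (n : ℝ) ^ 12 = ((n : ℝ) ^ 2) ^ 5 * (n : ℝ) ^ 2 := by ring
    have e2 : (1 : ℝ) / 1024 * (1 / (n : ℝ) ^ 2) = (1024 * (n : ℝ) ^ 2)⁻¹ := by
      rw [mul_inv]
      ring
    rw [e, e2]
    apply inv_anti₀ (by positivity)
    have h7 : (1024 : ℝ) ≤ ((n : ℝ) ^ 2) ^ 5 := by
      have h8 : (4 : ℝ) ^ 5 = 1024 := by norm_num
      linarith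
    exact mul_le_mul_of_nonneg_right h7 h6.le

theorem sE5 : S_E5 := by
  intro M _
  constructor
  · have h1 : ∀ n : ℤ, (0 : ℝ) ≤
        (if v0 M 0 = 0 ∧ (n : ZMod M) = v0 M 1 then ((n : ℝ) ^ 12)⁻¹ else 0) := by
      intro n
      split_ifs
      · positivity
      · exact le_rfl
    have h2 := (E5_summ (fun n : ℤ => v0 M 0 = 0 ∧ (n : ZMod M) = v0 M 1)).le_tsum 1
      (fun j _ => h1 j)
    have h3 : (if v0 M 0 = 0 ∧ ((1 : ℤ) : ZMod M) = v0 M 1 then (((1 : ℤ) : ℝ) ^ 12)⁻¹ else 0) =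
        (1 : ℝ) := by
      rw [if_pos]
      · norm_num
      · constructor
        · rfl
        · simp [v0]
    rw [h3] at h2
    exact h2
  · intro v hv1 hv2
    have hle : ∀ n : ℤ, (if v 0 = 0 ∧ (n : ZMod M) = v 1 then ((n : ℝ) ^ 12)⁻¹ else 0) ≤
        1 / 1024 * (1 / (n : ℝ) ^ 2) := by
      intro n
      split_ifs with h
      · apply E5_term
        · rintro rfl
          apply hv1
          funext i
          fin_cases i
          · simpa [v0] using h.1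
          · simpa [v0] using h.2.symm
        · rintro rfl
          apply hv2
          funext i
          fin_cases i
          · simpa [v0] using h.1
          · simpa [v0] using h.2.symm
      · positivity
    have h1 := E5_sumInt.mul_left (1 / 1024 : ℝ)
    have h2 := (E5_summ (fun n : ℤ => v 0 = 0 ∧ (n : ZMod M) = v 1)).tsum_le_tsum hle h1.summable
    rw [h1.tsum_eq] at h2
    have h3 := E5_pi
    calc cst M v ≤ 1 / 1024 * (Real.pi ^ 2 / 6 + Real.pi ^ 2 / 6) := h2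
      _ < 1 := by linarith

end DIF5
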