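import Pool.Agent.Lib.DI.F5.Spec

set_option autoImplicit false

/-!
# The Lipschitz formula for `E_(0,1)` (`S_E7a`)
-/

namespace DIF5

open UpperHalfPlane EisensteinSeries
open scoped Nat

private lemma E7a_inj (M : ℕ) [NeZero M] : Function.Injective
    (fun p : ℤ × ℤ => (![(M : ℤ) * p.1, 1 + (M : ℤ) * p.2] : Fin 2 → ℤ)) := by
  intro p q h
  have h0 : (M : ℤ) * p.1 = (M : ℤ) * q.1 := congrFun h 0
  have h1 : 1 + (M : ℤ) * p.2 = 1 + (M : ℤ) * q.2 := congrFun h 1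
  have hM : (M : ℤ) ≠ 0 := by exact_mod_cast NeZero.ne M
  exact Prod.ext (mul_left_cancel₀ hM h0) (mul_left_cancel₀ hM (add_left_cancel h1))

private lemma E7a_prod (M : ℕ) [NeZero M] (z : ℍ) :
    EE M (v0 M) z = ∑' p : ℤ × ℤ, eisSummand 12 ![(M : ℤ) * p.1, 1 + (M : ℤ) * p.2] z := by
  unfold EE
  rw [← (E7a_inj M).tsum_eq]
  · refine tsum_congr fun p => ?_
    rw [if_pos]
    ext i
    fin_cases i <;> simp [v0]
  · intro u hu
    have h : (fun i => (u i : ZMod M)) = v0 M := by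
      by_contra h
      exact hu (if_neg h)
    have h0 : ((u 0 : ℤ) : ZMod M) = 0 := congrFun h 0
    have h1 : ((u 1 : ℤ) : ZMod M) = 1 := congrFun h 1
    obtain ⟨a, ha⟩ := (ZMod.intCast_zmod_eq_zero_iff_dvd _ _).mp h0
    obtain ⟨b, hb⟩ := (ZMod.intCast_zmod_eq_zero_iff_dvd (u 1 - 1) M).mp (by
      push_cast
      rw [h1, sub_self])
    refine ⟨(a, b), ?_⟩
    ext i
    fin_cases i
    · exact ha.symm
    · show 1 + (M : ℤ) * b = u 1
      rw [← hb]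
      ring

private lemma E7a_summable (M : ℕ) [NeZero M] (z : ℍ) :
    Summable fun p : ℤ × ℤ => eisSummand 12 ![(M : ℤ) * p.1, 1 + (M : ℤ) * p.2] z :=
  (summable_eisSummand (k := 12) (by norm_num) z).comp_injective (E7a_inj M)

private lemma E7a_term (M : ℕ) [NeZero M] (m n : ℤ) (z : ℍ) :
    eisSummand 12 ![(M : ℤ) * m, 1 + (M : ℤ) * n] z =
      ((M : ℂ) ^ 12)⁻¹ * (1 / ((m : ℂ) * z + 1 / M + n) ^ 12) := by
  have hM : (M : ℂ) ≠ 0 := by exact_mod_cast NeZero.ne M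
  have h : (((![(M : ℤ) * m, 1 + (M : ℤ) * n] : Fin 2 → ℤ) 0 : ℤ) : ℂ) * (z : ℂ) +
      (((![(M : ℤ) * m, 1 + (M : ℤ) * n] : Fin 2 → ℤ) 1 : ℤ) : ℂ) =
      M * ((m : ℂ) * z + 1 / M + n) := by
    simp only [Matrix.cons_val_zero, Matrix.cons_val_one]
    push_cast
    field_simp
    ring
  rw [eisSummand, h, zpow_neg, one_div ((((m : ℂ) * z + 1 / M + n)) ^ 12), ← mul_inv, ← mul_pow]
  norm_cast

private lemma E7a_exp (m : ℕ) (r : ℝ) (z : ℍ) (l : ℕ) :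
    Complex.exp (2 * Real.pi * Complex.I * ((m : ℂ) * z + r)) ^ l =
      Complex.exp (2 * Real.pi * Complex.I * r) ^ l * qq z ^ (m * l) := by
  rw [mul_add, Complex.exp_add, mul_pow, mul_comm, pow_mul, qq, ← Complex.exp_nat_mul _ m]
  congr 3
  ring

private lemma E7a_lip (m : ℕ+) (r : ℝ) (z : ℍ) :
    (∑' n : ℤ, 1 / (((m : ℕ) : ℂ) * z + (r : ℂ) + n) ^ 12 =
      ((-2 * Real.pi * Complex.I) ^ 12 / (11)!) *
        ∑' l : ℕ+, ((l : ℕ) : ℂ) ^ 11 * (Complex.exp (2 * Real.pi * Complex.I * r) ^ (l : ℕ) *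
          qq z ^ ((m : ℕ) * (l : ℕ)))) ∧
      Summable fun l : ℕ+ => ((l : ℕ) : ℂ) ^ 11 *
        (Complex.exp (2 * Real.pi * Complex.I * r) ^ (l : ℕ) * qq z ^ ((m : ℕ) * (l : ℕ))) := by
  have him : 0 < (((m : ℕ) : ℂ) * z + (r : ℂ)).im := by
    have h1 : (((m : ℕ) : ℂ) * z + (r : ℂ)).im = (m : ℕ) * z.im := by
      simp
    rw [h1]
    exact mul_pos (by exact_mod_cast m.pos) z.im_pos
  have key := qExpansion_identity_pnat (k := 11) (by norm_num)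
    (⟨((m : ℕ) : ℂ) * z + (r : ℂ), him⟩ : ℍ)
  have hs := summable_pow_mul_cexp 11 1 (⟨((m : ℕ) : ℂ) * z + (r : ℂ), him⟩ : ℍ)
  have he : ∀ l : ℕ+, ((l : ℕ) : ℂ) ^ 11 *
      Complex.exp (2 * Real.pi * Complex.I * (((m : ℕ) : ℂ) * z + (r : ℂ))) ^ (l : ℕ) =
      ((l : ℕ) : ℂ) ^ 11 * (Complex.exp (2 * Real.pi * Complex.I * r) ^ (l : ℕ) *
        qq z ^ ((m : ℕ) * (l : ℕ))) := fun l => by
    rw [E7a_exp]
  constructor
  · rw [← tsum_congr he]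
    exact key
  · refine (hs.comp_injective PNat.coe_injective).congr fun l => ?_
    rw [← he l]
    simp only [Function.comp_apply, PNat.one_coe, Nat.cast_one, mul_one]

theorem sE7a : S_E7a := by
  intro M _ ζ hζ
  have hM : (M : ℂ) ≠ 0 := by exact_mod_cast NeZero.ne M
  have hM1 : 1 ≤ M := NeZero.one_le
  refine ⟨∑' n : ℤ, ((M : ℂ) ^ 12)⁻¹ * (1 / (1 / (M : ℂ) + n) ^ 12),
    ((M : ℂ) ^ 12)⁻¹ * ((-2 * Real.pi * Complex.I) ^ 12 / (11)!), fun z => ?_⟩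
  have hs := E7a_summable M z
  rw [E7a_prod, hs.tsum_prod, tsum_int_eq_zero_add_tsum_pnat hs.prod]
  simp only [E7a_term]
  have hp : Summable fun m : ℕ+ => ∑' n : ℤ, ((M : ℂ) ^ 12)⁻¹ *
      (1 / ((((m : ℕ) : ℤ) : ℂ) * z + 1 / M + n) ^ 12) := by
    have h := hs.prod.comp_injective
      (i := fun m : ℕ+ => ((m : ℕ) : ℤ)) (fun a b h => by simpa using h)
    refine h.congr fun m => ?_
    simp only [Function.comp_apply, E7a_term]
  have hn : Summable fun m : ℕ+ => ∑' n : ℤ, ((M : ℂ) ^ 12)⁻¹ *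
      (1 / (((-((m : ℕ) : ℤ) : ℤ) : ℂ) * z + 1 / M + n) ^ 12) := by
    have h := hs.prod.comp_injective
      (i := fun m : ℕ+ => -((m : ℕ) : ℤ)) (fun a b h => by simpa using h)
    refine h.congr fun m => ?_
    simp only [Function.comp_apply, E7a_term]
  rw [add_assoc, ← hp.tsum_add hn, ← tsum_mul_left]
  have hζe : Complex.exp (2 * Real.pi * Complex.I * ((1 / M : ℝ) : ℂ)) = ζ := by
    rw [hζ]
    congr 1
    push_cast
    ring
  have hζM : ζ ^ M = 1 := by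
    rw [hζ, ← Complex.exp_nat_mul, mul_div_cancel₀ _ hM]
    exact Complex.exp_two_pi_mul_I
  have hζe' : Complex.exp (2 * Real.pi * Complex.I * ((-(1 / M) : ℝ) : ℂ)) = ζ ^ (M - 1) := by
    have h1 : Complex.exp (2 * Real.pi * Complex.I * ((-(1 / M) : ℝ) : ℂ)) * ζ = 1 := by
      rw [← hζe, ← Complex.exp_add]
      push_cast
      rw [mul_neg, neg_add_cancel, Complex.exp_zero]
    have h2 : ζ ^ (M - 1) * ζ = 1 := by
      rw [← pow_succ, Nat.sub_add_cancel hM1, hζM]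
    have h3 : ζ ≠ 0 := by
      intro h0
      rw [h0, mul_zero] at h2
      exact zero_ne_one h2
    exact mul_right_cancel₀ h3 (h1.trans h2.symm)
  refine congrArg₂ (fun s t : ℂ => s + t) (tsum_congr fun n => ?_) (tsum_congr fun m => ?_)
  · rw [Int.cast_zero, zero_mul, zero_add]
  · obtain ⟨e1, s1⟩ := E7a_lip m (1 / M) z
    obtain ⟨e2, s2⟩ := E7a_lip m (-(1 / M)) z
    rw [hζe] at e1 s1
    rw [hζe'] at e2 s2
    have n1 : ∑' n : ℤ, ((M : ℂ) ^ 12)⁻¹ * (1 / ((((m : ℕ) : ℤ) : ℂ) * z + 1 / M + n) ^ 12) =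
        ((M : ℂ) ^ 12)⁻¹ * ∑' n : ℤ, 1 / (((m : ℕ) : ℂ) * z + ((1 / M : ℝ) : ℂ) + n) ^ 12 := by
      rw [← tsum_mul_left]
      refine tsum_congr fun n => ?_
      push_cast
      rfl
    have n2 : ∑' n : ℤ, ((M : ℂ) ^ 12)⁻¹ *
        (1 / (((-((m : ℕ) : ℤ) : ℤ) : ℂ) * z + 1 / M + n) ^ 12) =
        ((M : ℂ) ^ 12)⁻¹ * ∑' n : ℤ, 1 / (((m : ℕ) : ℂ) * z + ((-(1 / M) : ℝ) : ℂ) + n) ^ 12 := by
      rw [← tsum_mul_left, ← (Equiv.neg ℤ).tsum_eq]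
      refine tsum_congr fun n => ?_
      have e : ((-((m : ℕ) : ℤ) : ℤ) : ℂ) * z + 1 / M + ((Equiv.neg ℤ n : ℤ) : ℂ) =
          -(((m : ℕ) : ℂ) * z + ((-(1 / M) : ℝ) : ℂ) + n) := by
        simp only [Equiv.neg_apply]
        push_cast
        ring
      rw [e, Even.neg_pow (by decide)]
    rw [n1, n2, e1, e2, ← mul_add, ← mul_add, ← s1.tsum_add s2, ← mul_assoc]
    refine congrArg (fun t : ℂ => ((M : ℂ) ^ 12)⁻¹ *
      ((-2 * Real.pi * Complex.I) ^ 12 / (11)!) * t) (tsum_congr fun l => ?_)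
    rw [← pow_mul]
    ring

end DIF5
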