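import Pool.Agent.Lib.DI.F5.Spec

/-!
# THEOREM DI, part F5: rearrangement of a double series into a power series (module E7b)
-/

set_option autoImplicit false

namespace DIF5

private lemma E7b_summable (b : ℕ → ℂ) (C : ℝ) (hb : ∀ l : ℕ, ‖b l‖ ≤ C * (l : ℝ) ^ 11) (q : ℂ)
    (hq : ‖q‖ < 1) :
    Summable fun c : ℕ+ × ℕ+ => b c.2 * q ^ ((c.1 : ℕ) * (c.2 : ℕ)) := by
  have h1 : Summable fun c : (ℕ+ × ℕ+) => (c.2 : ℝ) ^ 11 * (‖q‖ ^ (c.1 * c.2 : ℕ)) :=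
    summable_prod_mul_pow (𝕜 := ℝ) 11 (by rwa [norm_norm])
  refine Summable.of_norm_bounded (h1.mul_left C) fun c => ?_
  rw [norm_mul, norm_pow, ← mul_assoc]
  exact mul_le_mul_of_nonneg_right (hb _) (by positivity)

private lemma E7b_sum (b : ℕ → ℂ) (q : ℂ) (n : ℕ+) :
    ∑ x : Nat.divisorsAntidiagonal (n : ℕ), b (x.1.2) * q ^ (x.1.1 * x.1.2) =
      (∑ l ∈ (n : ℕ).divisors, b l) * q ^ (n : ℕ) := by
  rw [Finset.univ_eq_attach,
    Finset.sum_attach (n : ℕ).divisorsAntidiagonal (fun x : ℕ × ℕ => b x.2 * q ^ (x.1 * x.2)),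
    Finset.sum_mul, ← Nat.sum_divisorsAntidiagonal' (fun x y => b y * q ^ (n : ℕ))]
  refine Finset.sum_congr rfl fun x hx => ?_
  rw [(Nat.mem_divisorsAntidiagonal.mp hx).1]

theorem sE7b : S_E7b := by
  intro b C hb q hq
  have hS := E7b_summable b C hb q hq
  have h1 : HasSum (fun c : ℕ+ × ℕ+ => b c.2 * q ^ ((c.1 : ℕ) * (c.2 : ℕ)))
      (∑' m : ℕ+, ∑' l : ℕ+, b l * q ^ ((m : ℕ) * (l : ℕ))) := by
    rw [← hS.tsum_prod]
    exact hS.hasSum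
  rw [← sigmaAntidiagonalEquivProd.hasSum_iff] at h1
  have h2 : HasSum (fun n : ℕ+ => (∑ l ∈ (n : ℕ).divisors, b l) * q ^ (n : ℕ))
      (∑' m : ℕ+, ∑' l : ℕ+, b l * q ^ ((m : ℕ) * (l : ℕ))) := by
    refine h1.sigma fun n => ?_
    rw [← E7b_sum b q n]
    exact hasSum_fintype _
  have h3 := PNat.coe_injective.hasSum_iff
    (f := fun n : ℕ => (∑ l ∈ n.divisors, b l) * q ^ n)
    (a := ∑' m : ℕ+, ∑' l : ℕ+, b l * q ^ ((m : ℕ) * (l : ℕ))) (fun n hn => by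
      have h4 : n = 0 := by
        by_contra h5
        exact hn ⟨⟨n, Nat.pos_of_ne_zero h5⟩, rfl⟩
      simp only [h4, Nat.divisors_zero, Finset.sum_empty, zero_mul])
  exact h3.mp h2

end DIF5
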