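import Pool.Agent.Lib.DI.F5.Spec

/-!
# DI/F5/F5: assembly of part F5
-/

set_option autoImplicit false

namespace DIF5

open UpperHalfPlane Polynomial Filter
open scoped MatrixGroups Topology

private lemma F5_X_mem {k : Type} [Field k] (ι : k →+* ℂ) (V : ValuationSubring k) (n : ℕ)
    (p : PowerSeries ℂ) (hp : p ∈ SP ι V) : PowerSeries.X ^ n * p ∈ SP ι V := by
  unfold SP at hp ⊢
  induction hp using Submodule.span_induction with
  | mem x hx =>
    obtain ⟨U, rfl⟩ := hx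
    refine Submodule.subset_span ⟨PowerSeries.X ^ n * U, ?_⟩
    simp
  | zero => rw [mul_zero]; exact Submodule.zero_mem _
  | add x y _ _ hx hy => rw [mul_add]; exact Submodule.add_mem _ hx hy
  | smul c x _ hx => rw [mul_smul_comm]; exact Submodule.smul_mem _ c hx

private lemma F5_neg (p : PowerSeries ℂ) (z : ℍ) (x : ℂ)
    (h : HasSum (fun n : ℕ => p.coeff n * qq z ^ n) x) :
    HasSum (fun n : ℕ => (-p).coeff n * qq z ^ n) (-x) := by
  have := h.neg
  simpa using this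

theorem sF5 (hG8 : S_G8) (hQ1 : S_Q1) (hQ2 : S_Q2) (hQ4 : S_Q4) (hQ5 : S_Q5) : S_F5 := by
  intro M _ k _ ι V ζ hζ Ψ hΨ hinv p n Y hp
  obtain ⟨a, ha, ha0, hb⟩ := hG8 M Ψ hΨ hinv
  obtain ⟨pa, hpa, qa⟩ := hQ4 M k ι V ζ hζ a ha
  obtain ⟨pb, hpb, qb⟩ := hQ4 M k ι V ζ hζ _ hb
  have hpa0 : pa ≠ 0 := by
    rintro rfl
    apply ha0
    funext z
    have h := qa z
    simp only [map_zero, zero_mul] at h
    exact h.unique hasSum_zero
  have key : pa * p.map ι = PowerSeries.X ^ n * pb := by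
    rw [← sub_eq_zero]
    apply hQ2 _ Y
    intro z hz
    obtain ⟨-, hX, hC⟩ := hQ1 z
    have hp' : HasSum (fun i : ℕ => (p.map ι).coeff i * qq z ^ i) (qq z ^ n * Ψ z) := by
      simpa only [PowerSeries.coeff_map] using hp z hz
    have h1 := (hC _ _ _ _ (qa z) hp').2
    have h2 := F5_neg _ _ _ (hC _ _ _ _ (hX n) (qb z)).2
    have h3 := (hC _ _ _ _ h1 h2).1
    rw [sub_eq_add_neg]
    have e : a z * (qq z ^ n * Ψ z) + -(qq z ^ n * (a * Ψ) z) = 0 := by
      rw [Pi.mul_apply]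
      ring
    rwa [e] at h3
  exact hQ5 k ι V _ _ p (F5_X_mem ι V n pb hpb) hpa hpa0 key

end DIF5
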