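import Pool.Agent.Lib.DI.F5.Spec

/-!
# THEOREM DI, part F5, G1: the functions `F_v = E_v / Δ`
-/

set_option autoImplicit false

namespace DIF5

open UpperHalfPlane
open scoped MatrixGroups

private lemma G1_eq (M : ℕ) (v : Fin 2 → ZMod M) :
    FF M v = EE M v * (fun z => (dl z)⁻¹) := by
  funext z
  rw [Pi.mul_apply, FF, div_eq_mul_inv]

theorem sG1 (hClo : S_Clo) (hDl : S_Dl) (hDlMF : S_DlMF) (hE1 : S_E1) (hE2 : S_E2)
    (hE3 : S_E3) : S_G1 := by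
  intro M _ v
  obtain ⟨-, hMF, hAn, hlast⟩ := hClo
  obtain ⟨-, -, -, -, -, hinvAn, -, -, hdlT, -, -, -, -⟩ := hDl
  obtain ⟨-, -, -, hinvMF, -, -⟩ := hDlMF
  refine ⟨?_, ?_, ?_⟩
  · intro γ z
    have hd : dn γ z ^ 12 ≠ 0 := pow_ne_zero _ (dn_ne_zero γ z)
    show EE M v (γ • z) / dl (γ • z) = EE M (act v γ) z / dl z
    rw [hE1 M v γ z, hdlT γ z, mul_div_mul_left _ _ hd]
  · rw [G1_eq]
    exact (hAn _ _ (hE2 M v) hinvAn).2
  · rw [G1_eq]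
    have h1 : MF (EE M v) := by
      obtain ⟨C, hC⟩ := hE3 M v
      refine hlast _ (hE2 M v) ⟨1, C, 0, fun z hz => ?_⟩
      rw [pow_zero, one_mul]
      exact hC z hz.le
    exact (hMF _ _ h1 hinvMF).2

end DIF5
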