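import Pool.Agent.Lib.DI.F5.Spec

set_option autoImplicit false

namespace DIF5

open UpperHalfPlane Polynomial Filter
open scoped MatrixGroups Topology

private theorem G3_act_mul {M : ℕ} (v : Fin 2 → ZMod M) (γ δ : SL(2, ℤ)) :
    act v (γ * δ) = act (act v γ) δ := by
  funext i
  have h : ∀ a : Fin 2, (γ * δ) a i = γ a 0 * δ 0 i + γ a 1 * δ 1 i := by
    intro a
    rw [Matrix.SpecialLinearGroup.coe_mul, Matrix.mul_apply, Fin.sum_univ_two]
  unfold act
  rw [h 0, h 1]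
  push_cast
  ring

private theorem G3_act_one {M : ℕ} (v : Fin 2 → ZMod M) : act v 1 = v := by
  funext i
  unfold act
  fin_cases i <;> simp

private theorem G3_act_v0 {M : ℕ} (δ : SL(2, ℤ)) (i : Fin 2) :
    act (v0 M) δ i = ((δ 1 i : ℤ) : ZMod M) := by
  unfold act v0
  simp

private theorem G3_EE (hE1 : S_E1) {M : ℕ} {w w' : Fin 2 → ZMod M} (h : EE M w = EE M w')
    (δ : SL(2, ℤ)) : EE M (act w δ) = EE M (act w' δ) := by
  funext z
  have h1 := hE1 M w δ z
  have h2 := hE1 M w' δ z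
  rw [h, h2] at h1
  exact (mul_left_cancel₀ (pow_ne_zero 12 (dn_ne_zero δ z)) h1).symm

private theorem G3_FF (hDl : S_Dl) {M : ℕ} {w w' : Fin 2 → ZMod M} (h : FF M w = FF M w') :
    EE M w = EE M w' := by
  funext z
  have h1 := congrFun h z
  unfold FF at h1
  exact (div_left_inj' (hDl.1 z)).1 h1

private theorem G3_cst (hE4 : S_E4) {M : ℕ} {w w' : Fin 2 → ZMod M} (h : EE M w = EE M w') :
    cst M w = cst M w' := by
  have h1 := hE4 M w
  rw [h] at h1
  exact_mod_cast tendsto_nhds_unique h1 (hE4 M w')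

private theorem G3_mem {M : ℕ} {δ : SL(2, ℤ)} (h : act (v0 M) δ = v0 M) :
    δ ∈ CongruenceSubgroup.Gamma1 M := by
  have h0 := congrFun h 0
  have h1 := congrFun h 1
  rw [G3_act_v0] at h0 h1
  have e0 : v0 M 0 = 0 := rfl
  have e1 : v0 M 1 = 1 := rfl
  rw [e0] at h0
  rw [e1] at h1
  rw [CongruenceSubgroup.Gamma1_mem]
  refine ⟨?_, h1, h0⟩
  have hd := δ.det_coe
  rw [Matrix.det_fin_two] at hd
  have hd' := congrArg (fun x : ℤ => (x : ZMod M)) hd
  simp only [Int.cast_sub, Int.cast_mul, Int.cast_one] at hd'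
  rw [h0, h1, mul_one, mul_zero, sub_zero] at hd'
  exact hd'

theorem sG3 (hE1 : S_E1) (hE4 : S_E4) (hE5 : S_E5) (hDl : S_Dl) : S_G3 := by
  intro M _ Ψ hΨ γ γ' hF z
  have h1 := G3_EE hE1 (G3_FF hDl hF) γ'⁻¹
  rw [← G3_act_mul, ← G3_act_mul, mul_inv_cancel, G3_act_one] at h1
  have h2 := G3_cst hE4 h1
  have h3 : act (v0 M) (γ * γ'⁻¹) = v0 M ∨ act (v0 M) (γ * γ'⁻¹) = - v0 M := by
    by_contra hc
    push Not at hc
    have h4 := (hE5 M).2 _ hc.1 hc.2
    have h5 := (hE5 M).1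
    rw [h2] at h4
    exact absurd h5 (not_le.2 h4)
  have h4 : ∀ w : ℍ, Ψ ((γ * γ'⁻¹) • w) = Ψ w := by
    rcases h3 with h3 | h3
    · exact hΨ _ (G3_mem h3)
    · intro w
      have h5 : act (v0 M) (-(γ * γ'⁻¹)) = v0 M := by
        have h6 : act (v0 M) (-(γ * γ'⁻¹)) = - act (v0 M) (γ * γ'⁻¹) := by
          funext i
          rw [Pi.neg_apply, G3_act_v0, G3_act_v0, Matrix.SpecialLinearGroup.coe_neg,
            Matrix.neg_apply, Int.cast_neg]
        rw [h6, h3, neg_neg]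
      have h7 := hΨ _ (G3_mem h5) w
      rwa [ModularGroup.SL_neg_smul] at h7
  have h5 := h4 (γ' • z)
  rwa [← mul_smul, inv_mul_cancel_right] at h5

end DIF5
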