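import Pool.Agent.Lib.DI.F5.Spec

/-!
# THEOREM DI, part F5, G4: invariance of the Lagrange polynomial
-/

set_option autoImplicit false

namespace DIF5

open UpperHalfPlane Polynomial
open scoped MatrixGroups

theorem sG4 : S_G4 := by
  classical
  intro S ψ hS hψ γ z
  have hστ : ∀ w : ℍ → ℂ, (fun u : ℍ => (fun u' : ℍ => w (γ⁻¹ • u')) (γ • u)) = w := by
    intro w
    funext u
    show w (γ⁻¹ • γ • u) = w u
    rw [inv_smul_smul]
  have hτσ : ∀ w : ℍ → ℂ, (fun u : ℍ => (fun u' : ℍ => w (γ • u')) (γ⁻¹ • u)) = w := by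
    intro w
    funext u
    show w (γ • γ⁻¹ • u) = w u
    rw [smul_inv_smul]
  unfold lag
  refine Finset.sum_bij' (fun (w : ℍ → ℂ) _ => fun u : ℍ => w (γ • u))
    (fun (w : ℍ → ℂ) _ => fun u : ℍ => w (γ⁻¹ • u)) (fun w hw => hS w hw γ)
    (fun w hw => hS w hw γ⁻¹) (fun w _ => hτσ w) (fun w _ => hστ w) fun w hw => ?_
  rw [hψ w hw γ z]
  refine congrArg _ ?_
  refine Finset.prod_bij' (fun (w' : ℍ → ℂ) _ => fun u : ℍ => w' (γ • u))
    (fun (w' : ℍ → ℂ) _ => fun u : ℍ => w' (γ⁻¹ • u)) (fun w' hw' => ?_)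
    (fun w' hw' => ?_) (fun w' _ => hτσ w') (fun w' _ => hστ w') fun w' _ => rfl
  · rw [Finset.mem_erase] at hw' ⊢
    refine ⟨fun h => hw'.1 ?_, hS w' hw'.2 γ⟩
    rw [← hτσ w', ← hτσ w, h]
  · rw [Finset.mem_erase] at hw' ⊢
    refine ⟨fun h => hw'.1 ?_, hS w' hw'.2 γ⁻¹⟩
    rw [← h]
    exact (hστ w').symm

end DIF5
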