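import Pool.Agent.Lib.DI.F5.Spec

set_option autoImplicit false

/-!
# THEOREM DI, part F5: values of the Lagrange polynomial
-/

namespace DIF5

open UpperHalfPlane Polynomial
open scoped MatrixGroups

open Classical in
private theorem G5_prod_deg (s : Finset (ℍ → ℂ)) (z : ℍ) :
    (∏ w' ∈ s, ((X : ℂ[X]) - C (w' z))).natDegree ≤ s.card := by
  refine (natDegree_prod_le s _).trans ?_
  calc ∑ w' ∈ s, ((X : ℂ[X]) - C (w' z)).natDegree ≤ ∑ _w' ∈ s, 1 :=
        Finset.sum_le_sum fun w' _ => natDegree_X_sub_C_le _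
    _ = s.card := by simp

open Classical in
private theorem G5_deg (S : Finset (ℍ → ℂ)) (ψ : (ℍ → ℂ) → (ℍ → ℂ)) (z : ℍ) (h : 0 < S.card) :
    (lag S ψ z).natDegree < S.card := by
  unfold lag
  refine lt_of_le_of_lt (natDegree_sum_le_of_forall_le (n := S.card - 1) S _ ?_) (by omega)
  intro w hw
  refine (natDegree_C_mul_le _ _).trans ?_
  have h1 := G5_prod_deg (S.erase w) z
  rw [Finset.card_erase_of_mem hw] at h1
  exact h1

open Classical in
private theorem G5_eval (S : Finset (ℍ → ℂ)) (ψ : (ℍ → ℂ) → (ℍ → ℂ)) (F : ℍ → ℂ) (hF : F ∈ S)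
    (z : ℍ) : (lag S ψ z).eval (F z) = ψ F z * ∏ w ∈ S.erase F, (F z - w z) := by
  unfold lag
  rw [eval_finsetSum, Finset.sum_eq_single F]
  · rw [eval_mul, eval_C, eval_prod]
    simp
  · intro w hw hne
    rw [eval_mul, eval_prod]
    have h1 : F ∈ S.erase w := Finset.mem_erase.2 ⟨fun h => hne h.symm, hF⟩
    rw [Finset.prod_eq_zero h1 (by simp), mul_zero]
  · intro h
    exact absurd hF h

theorem sG5 : S_G5 := by
  intro S ψ F hF z
  rw [← G5_eval S ψ F hF z]
  exact (eval_eq_sum_range' (G5_deg S ψ z (Finset.card_pos.2 ⟨F, hF⟩)) (F z)).symm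

end DIF5
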