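import Pool.Agent.Lib.DI.F5.Spec

set_option autoImplicit false

namespace DIF5

open UpperHalfPlane Polynomial Filter
open scoped MatrixGroups Topology

theorem G6_sum (hClo : S_Clo) {α : Type} (T : Finset α) (f : α → ℍ → ℂ)
    (h : ∀ a ∈ T, MF (f a)) : MF (fun z => ∑ a ∈ T, f a z) := by
  classical
  induction T using Finset.induction_on with
  | empty =>
    simp only [Finset.sum_empty]
    exact (hClo.1 0).1
  | insert a T ha ih =>
    have h1 : (fun z => ∑ b ∈ insert a T, f b z) = f a + fun z => ∑ b ∈ T, f b z := by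
      funext z
      rw [Finset.sum_insert ha]
      rfl
    rw [h1]
    exact (hClo.2.1 _ _ (h a (Finset.mem_insert_self _ _))
      (ih fun b hb => h b (Finset.mem_insert_of_mem hb))).1

/-- all coefficient functions are `MF` -/
def G6_good (p : ℍ → ℂ[X]) : Prop := ∀ i, MF (fun z => (p z).coeff i)

theorem G6_C (hClo : S_Clo) (g : ℍ → ℂ) (hg : MF g) : G6_good (fun z => C (g z)) := by
  intro i
  simp only [coeff_C]
  by_cases hi : i = 0
  · simp only [if_pos hi]
    exact hg
  · simp only [if_neg hi]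
    exact (hClo.1 0).1

theorem G6_X (hClo : S_Clo) : G6_good (fun _ => (X : ℂ[X])) := by
  intro i
  exact (hClo.1 _).1

theorem G6_add (hClo : S_Clo) {p q : ℍ → ℂ[X]} (hp : G6_good p) (hq : G6_good q) :
    G6_good (fun z => p z + q z) := by
  intro i
  simp only [coeff_add]
  exact (hClo.2.1 _ _ (hp i) (hq i)).1

theorem G6_mul (hClo : S_Clo) {p q : ℍ → ℂ[X]} (hp : G6_good p) (hq : G6_good q) :
    G6_good (fun z => p z * q z) := by
  intro i
  simp only [coeff_mul]
  refine G6_sum hClo _ (fun (x : ℕ × ℕ) z => (p z).coeff x.1 * (q z).coeff x.2) ?_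
  intro x _
  exact (hClo.2.1 _ _ (hp x.1) (hq x.2)).2

theorem G6_sub (hClo : S_Clo) (g : ℍ → ℂ) (hg : MF g) : G6_good (fun z => X - C (g z)) := by
  have h1 : (fun z => X - C (g z)) = fun z => X + C ((-1 : ℂ) * g z) := by
    funext z
    rw [neg_one_mul, C_neg, sub_eq_add_neg]
  rw [h1]
  exact G6_add hClo (G6_X hClo) (G6_C hClo _ (hClo.2.1 _ _ (hClo.1 (-1)).1 hg).2)

theorem G6_prod (hClo : S_Clo) {α : Type} (T : Finset α) (p : α → ℍ → ℂ[X])
    (h : ∀ a ∈ T, G6_good (p a)) : G6_good (fun z => ∏ a ∈ T, p a z) := by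
  classical
  induction T using Finset.induction_on with
  | empty =>
    simp only [Finset.prod_empty]
    have := G6_C hClo (fun _ => (1 : ℂ)) (hClo.1 1).1
    simpa using this
  | insert a T ha ih =>
    simp only [Finset.prod_insert ha]
    exact G6_mul hClo (h a (Finset.mem_insert_self _ _))
      (ih fun b hb => h b (Finset.mem_insert_of_mem hb))

open Classical in
theorem G6_lag (S : Finset (ℍ → ℂ)) (ψ : (ℍ → ℂ) → (ℍ → ℂ)) (i : ℕ) (z : ℍ) :
    (lag S ψ z).coeff i =
      ∑ w ∈ S, (C (ψ w z) * ∏ w' ∈ S.erase w, (X - C (w' z))).coeff i := by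
  unfold lag
  rw [finsetSum_coeff]

open Classical in
theorem sG6 (hClo : S_Clo) : S_G6 := by
  intro S ψ hS i
  simp only [G6_lag]
  refine G6_sum hClo S (fun (w : ℍ → ℂ) z =>
    (C (ψ w z) * ∏ w' ∈ S.erase w, (X - C (w' z))).coeff i) ?_
  intro w hw
  have h1 : G6_good (fun z => ∏ w' ∈ S.erase w, (X - C (w' z))) :=
    G6_prod hClo (S.erase w) (fun (w' : ℍ → ℂ) z => X - C (w' z)) fun w' hw' =>
      G6_sub hClo w' (hS w' (Finset.mem_of_mem_erase hw')).1
  exact G6_mul hClo (G6_C hClo _ (hS w hw).2) h1 i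

end DIF5
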