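import Pool.Agent.Lib.DI.F5.Spec

/-!
# THEOREM DI, part F5, module G7: interpolation with level one coefficients
-/

set_option autoImplicit false

namespace DIF5

open UpperHalfPlane Polynomial
open scoped MatrixGroups

private theorem G7_prod (hDom : S_Dom) (hAn : ∀ a ∈ A0, An a) (a : ℕ → ℍ → ℂ)
    (haA : ∀ i, a i ∈ A0) (ha0 : ∀ i, a i ≠ 0) (T : Finset ℕ) :
    (∏ i ∈ T, a i) ∈ A0 ∧ (∏ i ∈ T, a i) ≠ 0 := by
  classical
  induction T using Finset.induction_on with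
  | empty =>
    rw [Finset.prod_empty]
    exact ⟨A0.one_mem, one_ne_zero⟩
  | insert i T hi ih =>
    rw [Finset.prod_insert hi]
    refine ⟨A0.mul_mem (haA i) ih.1, fun h => ?_⟩
    rcases hDom _ _ (hAn _ (haA i)) (hAn _ ih.1) h with h1 | h1
    · exact ha0 i h1
    · exact ih.2 h1

/-- Module G7. -/
theorem sG7 (hL5 : S_L5) (hG4 : S_G4) (hG5 : S_G5) (hG6 : S_G6) (hDom : S_Dom)
    (hDl : S_Dl) : S_G7 := by
  intro S ψ F hF hS hψ hMF
  obtain ⟨-, -, -, -, -, -, -, -, -, -, -, -, hAn⟩ := hDl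
  have hc : ∀ i : ℕ, ∃ a ∈ A0, a ≠ 0 ∧ a * (fun z => (lag S ψ z).coeff i) ∈ A0 := by
    intro i
    refine hL5 _ (fun γ z => ?_) (hG6 S ψ hMF i)
    show (lag S ψ (γ • z)).coeff i = (lag S ψ z).coeff i
    rw [hG4 S ψ hS hψ γ z]
  choose a haA ha0 hac using hc
  obtain ⟨h1, h2⟩ := G7_prod hDom hAn a haA ha0 (Finset.range S.card)
  refine ⟨∏ i ∈ Finset.range S.card, a i, h1, h2,
    fun i => (∏ j ∈ (Finset.range S.card).erase i, a j) * (a i * fun z => (lag S ψ z).coeff i),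
    fun i => A0.mul_mem (G7_prod hDom hAn a haA ha0 _).1 (hac i), fun z => ?_⟩
  rw [← hG5 S ψ F hF z, Finset.mul_sum]
  refine Finset.sum_congr rfl fun i hi => ?_
  have h3 : (∏ j ∈ (Finset.range S.card).erase i, a j) * a i = ∏ j ∈ Finset.range S.card, a j :=
    Finset.prod_erase_mul _ _ hi
  rw [← h3]
  show ((∏ j ∈ (Finset.range S.card).erase i, a j) z * a i z) *
      ((lag S ψ z).coeff i * F z ^ i) =
    (∏ j ∈ (Finset.range S.card).erase i, a j) z * (a i z * (lag S ψ z).coeff i) * F z ^ i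
  ring

end DIF5
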