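import Pool.Agent.Lib.DI.F5.Spec

/-!
# DI/F5/G8: `Ψ` is a quotient of elements of `AA M`
-/

set_option autoImplicit false

namespace DIF5

open UpperHalfPlane Polynomial Filter
open scoped MatrixGroups Topology

private lemma G8_act_mul {M : ℕ} (v : Fin 2 → ZMod M) (γ δ : SL(2, ℤ)) :
    act v (γ * δ) = act (act v γ) δ := by
  funext i
  simp only [act, Matrix.SpecialLinearGroup.coe_mul, Matrix.mul_apply, Fin.sum_univ_two]
  push_cast
  ring

private lemma G8_act_one {M : ℕ} (v : Fin 2 → ZMod M) : act v 1 = v := by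
  funext i
  fin_cases i <;> simp [act]

private lemma G8_A0_le (M : ℕ) : A0 ≤ AA M := by
  apply Algebra.adjoin_mono
  intro x hx
  rcases hx with rfl | hx
  · exact Or.inl rfl
  · exact Or.inr (Or.inl hx)

private lemma G8_EE_mem (M : ℕ) : EE M (v0 M) ∈ AA M :=
  Algebra.subset_adjoin (Or.inr (Or.inr rfl))

theorem sG8 (hClo : S_Clo) (hDom : S_Dom) (hDl : S_Dl) (hG1 : S_G1) (hG3 : S_G3) (hG7 : S_G7) :
    S_G8 := by
  classical
  intro M _ Ψ hΨ hinv
  set F : ℍ → ℂ := FF M (v0 M) with hF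
  -- the finite set S
  have hfin : (Set.range fun γ : SL(2, ℤ) => FF M (act (v0 M) γ)).Finite := by
    refine (Set.finite_range (FF M)).subset ?_
    rintro _ ⟨γ, rfl⟩
    exact ⟨_, rfl⟩
  set S : Finset (ℍ → ℂ) := hfin.toFinset with hS
  have memS : ∀ w, w ∈ S ↔ ∃ γ : SL(2, ℤ), FF M (act (v0 M) γ) = w := by
    intro w
    rw [hS, Set.Finite.mem_toFinset, Set.mem_range]
  have hFS : F ∈ S := (memS F).2 ⟨1, by rw [G8_act_one]⟩
  have hcomp : ∀ γ δ : SL(2, ℤ), (fun z => FF M (act (v0 M) γ) (δ • z)) =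
      FF M (act (v0 M) (γ * δ)) := by
    intro γ δ
    funext z
    rw [(hG1 M _).1 δ z, G8_act_mul]
  have hclosed : ∀ w ∈ S, ∀ γ : SL(2, ℤ), (fun z => w (γ • z)) ∈ S := by
    intro w hw γ
    obtain ⟨δ, rfl⟩ := (memS w).1 hw
    rw [hcomp δ γ]
    exact (memS _).2 ⟨_, rfl⟩
  -- the family psi
  have hψex : ∀ w : ℍ → ℂ, ∃ f : ℍ → ℂ, ∀ γ : SL(2, ℤ), FF M (act (v0 M) γ) = w →
      f = fun z => Ψ (γ • z) := by
    intro w
    by_cases hw : ∃ γ : SL(2, ℤ), FF M (act (v0 M) γ) = w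
    · obtain ⟨γ, hγ⟩ := hw
      refine ⟨fun z => Ψ (γ • z), fun γ' hγ' => ?_⟩
      funext z
      exact hG3 M Ψ hinv γ γ' (hγ.trans hγ'.symm) z
    · exact ⟨0, fun γ hγ => absurd ⟨γ, hγ⟩ hw⟩
  choose ψ hψ using hψex
  have hψF : ψ F = Ψ := by
    rw [hψ F 1 (by rw [G8_act_one])]
    funext z
    rw [one_smul]
  have hψc : ∀ w ∈ S, ∀ (γ : SL(2, ℤ)) (z : ℍ), ψ (fun z => w (γ • z)) z = ψ w (γ • z) := by
    intro w hw γ z
    obtain ⟨δ, rfl⟩ := (memS w).1 hw
    rw [hψ _ (δ * γ) (hcomp δ γ).symm, hψ _ δ rfl]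
    exact congrArg Ψ (mul_smul δ γ z)
  have hMF : ∀ w ∈ S, MF w ∧ MF (ψ w) := by
    intro w hw
    obtain ⟨δ, rfl⟩ := (memS w).1 hw
    refine ⟨(hG1 M _).2.2, ?_⟩
    rw [hψ _ δ rfl]
    exact hΨ δ
  have hMF1 : ∀ w ∈ S, MF w ∧ MF ((fun _ => (fun _ => (1 : ℂ)) : (ℍ → ℂ) → (ℍ → ℂ)) w) :=
    fun w hw => ⟨(hMF w hw).1, (hClo.1 1).1⟩
  set D : ℍ → ℂ := fun z => ∏ w ∈ S.erase F, (F z - w z) with hD
  obtain ⟨a, haA, ha0, g, hg, hga⟩ := hG7 S ψ F hFS hclosed hψc hMF
  obtain ⟨a', haA', ha0', g', hg', hga'⟩ := hG7 S (fun _ => (fun _ => (1 : ℂ))) F hFS hclosed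
    (fun _ _ _ _ => rfl) hMF1
  have hdl0 : ∀ z, dl z ≠ 0 := hDl.1
  have hdlA : dl ∈ A0 := hDl.2.2.2.2.2.2.2.2.2.2.2.1
  have hA0An : ∀ a ∈ A0, An a := hDl.2.2.2.2.2.2.2.2.2.2.2.2
  have hdlAn : An dl := hDl.2.2.2.1
  set m := S.card with hm
  -- dl ^ m * (sum g_i F ^ i) is in AA M
  have hsum : ∀ h : ℕ → ℍ → ℂ, (∀ i, h i ∈ A0) →
      (fun z => dl z ^ m * ∑ i ∈ Finset.range m, h i z * F z ^ i) ∈ AA M := by
    intro h hh
    have : (fun z => dl z ^ m * ∑ i ∈ Finset.range m, h i z * F z ^ i) =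
        ∑ i ∈ Finset.range m, h i * (EE M (v0 M) ^ i * dl ^ (m - i)) := by
      funext z
      rw [Finset.sum_apply, Finset.mul_sum]
      refine Finset.sum_congr rfl fun i hi => ?_
      rw [Finset.mem_range] at hi
      simp only [Pi.mul_apply, Pi.pow_apply, hF, FF, div_pow]
      have h1 : dl z ^ m = dl z ^ i * dl z ^ (m - i) := by
        rw [← pow_add]
        congr 1
        omega
      rw [h1]
      have h2 : dl z ^ i ≠ 0 := pow_ne_zero _ (hdl0 z)
      field_simp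
    rw [this]
    exact Subalgebra.sum_mem _ fun i _ => Subalgebra.mul_mem _ (G8_A0_le M (hh i))
      (Subalgebra.mul_mem _ (Subalgebra.pow_mem _ (G8_EE_mem M) _)
        (Subalgebra.pow_mem _ (G8_A0_le M hdlA) _))
  have hx := hsum g hg
  have hy := hsum g' hg'
  have ex : (fun z => dl z ^ m * ∑ i ∈ Finset.range m, g i z * F z ^ i) =
      dl ^ m * (a * (Ψ * D)) := by
    funext z
    rw [← hga z, hψF]
    rfl
  have ey : (fun z => dl z ^ m * ∑ i ∈ Finset.range m, g' i z * F z ^ i) =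
      dl ^ m * (a' * D) := by
    funext z
    rw [← hga' z, one_mul]
    rfl
  rw [ex] at hx
  rw [ey] at hy
  refine ⟨a * (dl ^ m * (a' * D)), Subalgebra.mul_mem _ (G8_A0_le M haA) hy, ?_, ?_⟩
  · -- nonzero
    have hprod : ∀ T : Finset (ℍ → ℂ), T ⊆ S.erase F →
        An (fun z => ∏ w ∈ T, (F z - w z)) ∧ (fun z => ∏ w ∈ T, (F z - w z)) ≠ 0 := by
      intro T
      induction T using Finset.induction_on with
      | empty =>
        intro _
        simp only [Finset.prod_empty]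
        refine ⟨(hClo.1 1).2, fun h => one_ne_zero (congrFun h UpperHalfPlane.I)⟩
      | insert w T hw ih =>
        intro hT
        obtain ⟨h1, h2⟩ := ih ((Finset.subset_insert _ _).trans hT)
        have hwS := hT (Finset.mem_insert_self _ _)
        rw [Finset.mem_erase] at hwS
        have hwA : An (fun z => F z - w z) := by
          obtain ⟨δ, rfl⟩ := (memS w).1 hwS.2
          intro z
          exact ((hG1 M _).2.1 z).sub ((hG1 M _).2.1 z)
        have e : (fun z => ∏ w ∈ insert w T, (F z - w z)) =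
            (fun z => F z - w z) * fun z => ∏ w ∈ T, (F z - w z) := by
          funext z
          rw [Finset.prod_insert hw]
          rfl
        rw [e]
        refine ⟨(hClo.2.2.1 _ _ hwA h1).2, fun h => ?_⟩
        rcases hDom _ _ hwA h1 h with h | h
        · apply hwS.1
          funext z
          have := congrFun h z
          simp only [Pi.zero_apply] at this
          exact (sub_eq_zero.1 this).symm
        · exact h2 h
    obtain ⟨hDA, hD0⟩ := hprod _ (Finset.Subset.refl _)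
    have hpowA : ∀ n : ℕ, An (dl ^ n) ∧ dl ^ n ≠ 0 := by
      intro n
      refine ⟨fun z => ?_, fun h => pow_ne_zero n (hdl0 UpperHalfPlane.I)
        (congrFun h UpperHalfPlane.I)⟩
      exact (hdlAn z).pow n
    have h1 := (hClo.2.2.1 _ _ (hA0An a' haA') hDA).2
    have h2 := (hClo.2.2.1 _ _ (hpowA m).1 h1).2
    intro h
    rcases hDom _ _ (hA0An a haA) h2 h with h | h
    · exact ha0 h
    · rcases hDom _ _ (hpowA m).1 h1 h with h | h
      · exact (hpowA m).2 h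
      · rcases hDom _ _ (hA0An a' haA') hDA h with h | h
        · exact ha0' h
        · exact hD0 h
  · have : a * (dl ^ m * (a' * D)) * Ψ = a' * (dl ^ m * (a * (Ψ * D))) := by ring
    rw [this]
    exact Subalgebra.mul_mem _ (G8_A0_le M haA') hx

end DIF5
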