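import Pool.Agent.Lib.DI.F5.Spec

/-!
# THEOREM DI, part F5: an invariant analytic function of moderate growth, multiplied by a power of
`Δ`, is a modular form of level one
-/

set_option autoImplicit false

namespace DIF5

open UpperHalfPlane ModularForm SlashInvariantForm MatrixGroups OnePoint Filter
open scoped Manifold

/-- **L3** (from Mk, Dl, DlInf). -/
theorem sL3 (hMk : S_Mk) (hDl : S_Dl) (hDlInf : S_DlInf) : S_L3 := by
  intro h hAn hInv hgr
  obtain ⟨Y, C, n, hC⟩ := hgr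
  obtain ⟨_, _, _, hAdl, _, _, _, _, htr, _⟩ := hDl
  obtain ⟨⟨Y', c, C', hc, hdl⟩, _⟩ := hDlInf
  have hsl : ∀ γ : SL(2, ℤ), (fun z => dl z ^ n * h z) ∣[(12 * n : ℤ)] γ =
      fun z => dl z ^ n * h z := by
    intro γ
    funext z
    rw [SL_slash_apply, htr, hInv, mul_pow, ← dn_eq, zpow_neg, mul_assoc, mul_right_comm, mul_comm]
    have h1 : dn γ z ^ (12 * n : ℤ) = (dn γ z ^ 12) ^ n := by
      rw [← pow_mul]
      exact_mod_cast rfl
    rw [h1]
    have h2 : (dn γ z ^ 12) ^ n ≠ 0 := pow_ne_zero _ (pow_ne_zero _ (dn_ne_zero γ z))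
    field_simp
  have hbd : IsBoundedAtImInfty (fun z => dl z ^ n * h z) := by
    rw [isBoundedAtImInfty_iff]
    refine ⟨|C'| ^ n * C, max Y Y' + 1, fun z hz => ?_⟩
    have hz1 : Y < z.im := by
      have := le_max_left Y Y'
      linarith
    have hz2 : Y' < z.im := by
      have := le_max_right Y Y'
      linarith
    have h1 := hC z hz1
    have h2 := (hdl z hz2).2
    rw [norm_mul, norm_pow] at h1 ⊢
    have h3 : ‖dl z‖ ^ n ≤ (|C'| * ‖qq z‖) ^ n :=
      pow_le_pow_left₀ (norm_nonneg _) (h2.trans (mul_le_mul_of_nonneg_right (le_abs_self _)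
        (norm_nonneg _))) n
    calc ‖dl z‖ ^ n * ‖h z‖ ≤ (|C'| * ‖qq z‖) ^ n * ‖h z‖ :=
          mul_le_mul_of_nonneg_right h3 (norm_nonneg _)
      _ = |C'| ^ n * (‖qq z‖ ^ n * ‖h z‖) := by ring
      _ ≤ |C'| ^ n * C := mul_le_mul_of_nonneg_left h1 (pow_nonneg (abs_nonneg _) n)
  have hhol : MDiff (fun z => dl z ^ n * h z) := by
    rw [UpperHalfPlane.mdifferentiable_iff]
    intro w hw
    have h1 : AnalyticAt ℂ ((fun z => dl z ^ n * h z) ∘ ofComplex) w := by
      have h2 := (hAdl ⟨w, hw⟩).pow n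
      have h3 := hAn ⟨w, hw⟩
      exact h2.mul h3
    exact h1.differentiableAt.differentiableWithinAt
  let f : ModularForm 𝒮ℒ (12 * n : ℤ) :=
    { toFun := fun z => dl z ^ n * h z
      slash_action_eq' := fun _ ⟨γ, hγ⟩ => hγ ▸ hsl γ
      holo' := hhol
      bdd_at_cusps' := by
        intro c hc
        rw [Subgroup.IsArithmetic.isCusp_iff_isCusp_SL2Z] at hc
        rw [isBoundedAt_iff_forall_SL2Z hc]
        intro γ _
        rw [hsl γ]
        exact hbd }
  exact ⟨n, hMk n (12 * n : ℤ) rfl f⟩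

end DIF5
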