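import Pool.Agent.Lib.DI.F5.Spec

/-!
# THEOREM DI, part F5: removing the poles by a polynomial in `j`
-/

set_option autoImplicit false

namespace DIF5

open UpperHalfPlane Polynomial Filter
open scoped MatrixGroups Topology Modular

/-- `An` at a point of the complex plane. -/
private lemma L4_An {g : ℍ → ℂ} (hg : An g) {z : ℂ} (hz : 0 < z.im) :
    AnalyticAt ℂ (g ∘ ofComplex) z := hg ⟨z, hz⟩

/-- Polynomials in `j` are analytic. -/
private lemma L4_pol (hj : An jj) (P : ℂ[X]) {z : ℂ} (hz : 0 < z.im) :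
    AnalyticAt ℂ (fun w : ℂ => P.eval ((jj ∘ ofComplex) w)) z := by
  have h := (L4_An hj hz).aeval_polynomial P
  simpa only [Polynomial.coe_aeval_eq_eval] using h

/-- Good sets. -/
private def L4_good (f : ℍ → ℂ) (s : Set ℂ) : Prop :=
  ∃ P : ℂ[X], P ≠ 0 ∧ ∀ z ∈ s, 0 < z.im →
    AnalyticAt ℂ (fun w : ℂ => P.eval ((jj ∘ ofComplex) w) * (f ∘ ofComplex) w) z

private lemma L4_local (hj : An jj) (f : ℍ → ℂ) {z : ℂ} (hz : 0 < z.im)
    (hf : MeromorphicAt (f ∘ ofComplex) z) : ∃ t ∈ 𝓝 z, L4_good f t := by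
  obtain ⟨n, hn⟩ := hf
  obtain ⟨p, hp⟩ := L4_An hj hz
  have hs : AnalyticAt ℂ (dslope (jj ∘ ofComplex) z) z := ⟨_, hp.has_fpower_series_dslope_fslope⟩
  have h1 := (hs.pow n).mul hn
  have h2 : (dslope (jj ∘ ofComplex) z ^ n * fun w => (w - z) ^ n • (f ∘ ofComplex) w) =
      fun w : ℂ => ((X - C ((jj ∘ ofComplex) z)) ^ n : ℂ[X]).eval ((jj ∘ ofComplex) w) *
        (f ∘ ofComplex) w := by
    funext w
    have h3 := sub_smul_dslope (jj ∘ ofComplex) z w
    rw [smul_eq_mul] at h3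
    rw [Pi.mul_apply, Pi.pow_apply, Polynomial.eval_pow, Polynomial.eval_sub, Polynomial.eval_X,
      Polynomial.eval_C, ← h3, smul_eq_mul, mul_pow]
    ring
  rw [h2] at h1
  refine ⟨_, h1.eventually_analyticAt, (X - C ((jj ∘ ofComplex) z)) ^ n,
    pow_ne_zero n (Polynomial.X_sub_C_ne_zero _), ?_⟩
  intro w hw _
  exact hw

theorem sL4 (hTr : S_Tr) (hDl : S_Dl) : S_L4 := by
  obtain ⟨-, -, -, -, hj, -, -, -, -, hinv, -⟩ := hDl
  rintro f hf hmer ⟨Y, hY⟩
  have hK : IsCompact (Set.Icc (-(1 / 2) : ℝ) (1 / 2) ×ℂ Set.Icc (1 / 2 : ℝ) Y) :=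
    isCompact_Icc.reProdIm isCompact_Icc
  have hgood : L4_good f (Set.Icc (-(1 / 2) : ℝ) (1 / 2) ×ℂ Set.Icc (1 / 2 : ℝ) Y) := by
    refine hK.induction_on ⟨1, one_ne_zero, fun z hz => absurd hz (Set.notMem_empty z)⟩ ?_ ?_ ?_
    · rintro s t hst ⟨P, hP, h⟩
      exact ⟨P, hP, fun z hz => h z (hst hz)⟩
    · rintro s t ⟨P, hP, h⟩ ⟨Q, hQ, h'⟩
      refine ⟨P * Q, mul_ne_zero hP hQ, fun z hz hz0 => ?_⟩
      rcases hz with hz | hz
      · have h1 := (L4_pol hj Q hz0).mul (h z hz hz0)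
        refine h1.congr (Eventually.of_forall fun w => ?_)
        simp only [Pi.mul_apply, Polynomial.eval_mul]
        ring
      · have h1 := (L4_pol hj P hz0).mul (h' z hz hz0)
        refine h1.congr (Eventually.of_forall fun w => ?_)
        simp only [Pi.mul_apply, Polynomial.eval_mul]
        ring
    · intro z hz
      have hz0 : 0 < z.im := by
        have h1 : z.im ∈ Set.Icc (1 / 2 : ℝ) Y := (Complex.mem_reProdIm.1 hz).2
        have h2 := h1.1
        linarith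
      obtain ⟨t, ht, h⟩ := L4_local hj f hz0 (hmer ⟨z, hz0⟩)
      exact ⟨t, mem_nhdsWithin_of_mem_nhds ht, h⟩
  obtain ⟨P, hP, h⟩ := hgood
  refine ⟨P, hP, fun z => ?_⟩
  obtain ⟨γ, hγ⟩ := ModularGroup.exists_smul_mem_fd z
  refine hTr _ γ (fun w => ?_) z ?_
  · rw [hinv, hf]
  · by_cases hy : Y < (γ • z).im
    · exact (L4_pol hj P (γ • z).im_pos).mul (hY _ hy)
    · refine h _ ?_ (γ • z).im_pos
      rw [Complex.mem_reProdIm]
      refine ⟨?_, ?_, not_lt.1 hy⟩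
      · exact abs_le.1 hγ.2
      · have h3 := ModularGroup.three_le_four_mul_im_sq_of_mem_fd hγ
        have h4 := (γ • z).im_pos
        change 1 / 2 ≤ (γ • z).im
        nlinarith

end DIF5
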