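import Pool.Agent.Lib.DI.F5.Spec

/-!
# THEOREM DI, part F5, module L5: level one modular functions are quotients of elements of `A0`
-/

set_option autoImplicit false

namespace DIF5

open UpperHalfPlane Polynomial

/-- Module L5. -/
theorem sL5 (hClo : S_Clo) (hDlMF : S_DlMF) (hPj : S_Pj) (hL3 : S_L3) (hL4 : S_L4)
    (hDl : S_Dl) : S_L5 := by
  intro f hinv hf
  obtain ⟨hdl0, -, -, -, -, -, -, -, -, hjj, -, hdlA, -⟩ := hDl
  obtain ⟨Y, C, n, hc⟩ := hf.cusp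
  obtain ⟨P, hP0, hAn⟩ := hL4 f hinv hf.mero ⟨Y, fun z hz => (hc z hz).1⟩
  have hMF : MF ((fun z => P.eval (jj z)) * f) :=
    (hClo.2.1 _ _ (hDlMF.2.2.2.2.2 P).1 hf).2
  obtain ⟨Y', C', n', hc'⟩ := hMF.cusp
  have hInv : Inv (fun z => P.eval (jj z) * f z) := by
    intro γ z
    show P.eval (jj (γ • z)) * f (γ • z) = P.eval (jj z) * f z
    rw [hjj γ z, hinv γ z]
  obtain ⟨N, hN⟩ := hL3 (fun z => P.eval (jj z) * f z) hAn hInv
    ⟨Y', C', n', fun z hz => (hc' z hz).2⟩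
  obtain ⟨hA, hne⟩ := hPj P P.natDegree le_rfl
  obtain ⟨z0, hz0⟩ := hne hP0
  refine ⟨(fun z => dl z ^ P.natDegree * P.eval (jj z)) * dl ^ N,
    A0.mul_mem hA (A0.pow_mem hdlA N), ?_, ?_⟩
  · intro h0
    have h1 : dl z0 ^ P.natDegree * P.eval (jj z0) * dl z0 ^ N = 0 := congrFun h0 z0
    exact mul_ne_zero (mul_ne_zero (pow_ne_zero _ (hdl0 z0)) hz0)
      (pow_ne_zero _ (hdl0 z0)) h1
  · have h1 : (fun z => dl z ^ P.natDegree * P.eval (jj z)) * dl ^ N * f =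
        dl ^ P.natDegree * fun z => dl z ^ N * (P.eval (jj z) * f z) := by
      funext z
      show dl z ^ P.natDegree * P.eval (jj z) * dl z ^ N * f z =
        dl z ^ P.natDegree * (dl z ^ N * (P.eval (jj z) * f z))
      ring
    rw [h1]
    exact A0.mul_mem (A0.pow_mem hdlA _) hN

end DIF5
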