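import Pool.Agent.Lib.DI.F5.Spec

/-!
# THEOREM DI, part F5, module Mk: level one forms of weight `12 n` are polynomials in `E4`, `E6`
-/

set_option autoImplicit false

namespace DIF5

open UpperHalfPlane Polynomial ModularForm ModularFormClass EisensteinSeries
open scoped MatrixGroups

private theorem Mk_e4 : e4 ∈ A0 := Algebra.subset_adjoin (by simp)

private theorem Mk_e6 : e6 ∈ A0 := Algebra.subset_adjoin (by simp)

private theorem Mk_dl : dl ∈ A0 := by
  have h : dl = (1728 : ℂ)⁻¹ • (e4 ^ 3 - e6 ^ 2) := by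
    funext z
    show ModularForm.discriminant z = (1728 : ℂ)⁻¹ * (e4 z ^ 3 - e6 z ^ 2)
    rw [ModularForm.discriminant_eq_E₄_cube_sub_E₆_sq, div_eq_inv_mul]
    rfl
  rw [h]
  exact A0.smul_mem (A0.sub_mem (A0.pow_mem Mk_e4 3) (A0.pow_mem Mk_e6 2)) _

/-- a power of `E4` with the given weight -/
private theorem Mk_pow (n : ℕ) (k : ℤ) (hk : k = 12 * (n : ℤ)) :
    ∃ P : ModularForm 𝒮ℒ k, (∀ z, P z = e4 z ^ (3 * n)) ∧ (qExpansion 1 P).coeff 0 = 1 := by
  refine ⟨ModularForm.mcast (by rw [hk]; push_cast; ring) (ModularForm.E₄.pow (3 * n)), ?_, ?_⟩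
  · intro z
    rw [ModularForm.mcast_apply, ModularForm.coe_pow, Pi.pow_apply]
    rfl
  · rw [ModularForm.coe_mcast, ModularForm.qExpansion_pow one_pos one_mem_strictPeriods_SL]
    have h := E_qExpansion_coeff_zero (k := 4) (by norm_num) ⟨2, rfl⟩
    rw [PowerSeries.coeff_zero_eq_constantCoeff] at h ⊢
    rw [map_pow]
    have h2 : PowerSeries.constantCoeff (qExpansion 1 ModularForm.E₄) = 1 := h
    rw [h2, one_pow]

theorem sMk : S_Mk := by
  intro n
  induction n with
  | zero =>
    intro k hk f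
    have hk0 : k = 0 := by rw [hk]; simp
    subst hk0
    obtain ⟨c, hc⟩ := levelOne_weight_zero_const f
    have h : (fun z : ℍ => f z) = algebraMap ℂ (ℍ → ℂ) c := by
      funext z
      rw [hc]
      rfl
    rw [h]
    exact A0.algebraMap_mem c
  | succ n ih =>
    intro k hk f
    obtain ⟨P, hP, hP0⟩ := Mk_pow (n + 1) k (by rw [hk])
    set a : ℂ := (qExpansion 1 f).coeff 0 with ha
    have h0 : (qExpansion 1 (f - a • P : ModularForm 𝒮ℒ k)).coeff 0 = 0 := by
      rw [FunLike.coe_sub, ModularForm.qExpansion_sub one_pos one_mem_strictPeriods_SL,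
        FunLike.coe_smul, ModularForm.qExpansion_smul one_pos one_mem_strictPeriods_SL, map_sub,
        PowerSeries.coeff_smul, hP0, smul_eq_mul, mul_one, ← ha, sub_self]
    have h1 := ih (k - 12) (by rw [hk]; push_cast; ring)
      (CuspForm.discriminantEquiv (toCuspForm (f - a • P) h0))
    have h2 : (fun z : ℍ => f z) = a • e4 ^ (3 * (n + 1)) +
        dl * (fun z : ℍ => (CuspForm.discriminantEquiv (toCuspForm (f - a • P) h0)) z) := by
      funext z
      have h3 := ModularForm.discriminant_mul_discriminantEquiv_apply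
        (toCuspForm (f - a • P) h0) z
      show f z = a * e4 z ^ (3 * (n + 1)) +
        ModularForm.discriminant z * (CuspForm.discriminantEquiv (toCuspForm (f - a • P) h0)) z
      rw [h3, ← hP z]
      show f z = a * P z + (f z - a * P z)
      ring
    rw [h2]
    exact A0.add_mem (A0.smul_mem (A0.pow_mem Mk_e4 _) a) (A0.mul_mem Mk_dl h1)

end DIF5
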