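import Pool.Agent.Lib.DI.F5.Spec

/-!
# THEOREM DI, part F5: polynomials in `j`, multiplied by a power of `Δ`
-/

set_option autoImplicit false

namespace DIF5

open UpperHalfPlane Polynomial Filter
open scoped MatrixGroups Topology

private lemma Pj_coe {y : ℝ} (hy : 0 < y) :
    ((ofComplex ((y : ℂ) * Complex.I) : ℍ) : ℂ) = (y : ℂ) * Complex.I := by
  have h : 0 < ((y : ℂ) * Complex.I).im := by simpa using hy
  rw [ofComplex_apply_of_im_pos h]

private lemma Pj_im {y : ℝ} (hy : 0 < y) : (ofComplex ((y : ℂ) * Complex.I) : ℍ).im = y := by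
  have h := congrArg Complex.im (Pj_coe hy)
  simpa using h

private lemma Pj_qq {y : ℝ} (hy : 0 < y) :
    ‖qq (ofComplex ((y : ℂ) * Complex.I))‖ = Real.exp (-(2 * Real.pi * y)) := by
  rw [qq, Complex.norm_exp, Pj_coe hy]
  congr 1
  have h : (2 * (Real.pi : ℂ) * Complex.I * ((y : ℂ) * Complex.I)) =
      ((-(2 * Real.pi * y) : ℝ) : ℂ) := by
    push_cast
    linear_combination (2 * (Real.pi : ℂ) * y) * Complex.I_mul_I
  rw [h, Complex.ofReal_re]

private lemma Pj_dl_tendsto (hDlInf : S_DlInf) :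
    Tendsto (fun y : ℝ => dl (ofComplex (y * Complex.I))) atTop (𝓝 0) := by
  obtain ⟨Y, c, C, hc, h⟩ := hDlInf.1
  have h1 : Tendsto (fun y : ℝ => C * Real.exp (-(2 * Real.pi * y))) atTop (𝓝 0) := by
    have h2 : Tendsto (fun y : ℝ => Real.exp (-(2 * Real.pi * y))) atTop (𝓝 0) :=
      Real.tendsto_exp_neg_atTop_nhds_zero.comp
        (tendsto_id.const_mul_atTop (by positivity : (0 : ℝ) < 2 * Real.pi))
    simpa using h2.const_mul C
  refine squeeze_zero_norm' ?_ h1
  filter_upwards [eventually_gt_atTop (max Y 0)] with y hy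
  have hy0 : 0 < y := lt_of_le_of_lt (le_max_right _ _) hy
  have h3 := (h (ofComplex ((y : ℂ) * Complex.I)) (by
    rw [Pj_im hy0]
    exact lt_of_le_of_lt (le_max_left _ _) hy)).2
  rwa [Pj_qq hy0] at h3

theorem sPj (hDl : S_Dl) (hDlInf : S_DlInf) : S_Pj := by
  obtain ⟨hne, -, -, -, -, -, -, -, -, -, -, hdl, -⟩ := hDl
  intro P n hn
  constructor
  · have he4 : e4 ∈ A0 := Algebra.subset_adjoin (Set.mem_insert _ _)
    have h1 : (fun z => dl z ^ n * P.eval (jj z)) =
        ∑ i ∈ Finset.range (n + 1), P.coeff i • ((e4 ^ 3) ^ i * dl ^ (n - i)) := by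
      funext z
      rw [Polynomial.eval_eq_sum_range' (Nat.lt_succ_of_le hn), Finset.mul_sum,
        Finset.sum_apply]
      refine Finset.sum_congr rfl fun i hi => ?_
      have hi' : i ≤ n := Nat.lt_succ_iff.1 (Finset.mem_range.1 hi)
      change dl z ^ n * (P.coeff i * (e4 z ^ 3 / dl z) ^ i) =
        P.coeff i * ((e4 z ^ 3) ^ i * dl z ^ (n - i))
      obtain ⟨m, rfl⟩ := Nat.exists_eq_add_of_le hi'
      rw [Nat.add_sub_cancel_left, div_pow, pow_add]
      have h2 := pow_ne_zero i (hne z)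
      field_simp
    rw [h1]
    refine Subalgebra.sum_mem _ fun i _ => Subalgebra.smul_mem _ ?_ _
    exact Subalgebra.mul_mem _ (Subalgebra.pow_mem _ (Subalgebra.pow_mem _ he4 _) _)
      (Subalgebra.pow_mem _ hdl _)
  · intro hP
    by_contra hcon
    push Not at hcon
    -- the function `j` is bounded
    obtain ⟨B, hB⟩ : ∃ B : ℝ, ∀ z : ℍ, ‖jj z‖ ≤ B := by
      have hfin : (P.roots.toFinset : Set ℂ).Finite := Finset.finite_toSet _
      obtain ⟨B, hB⟩ := hfin.isBounded.exists_norm_le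
      refine ⟨B, fun z => hB _ ?_⟩
      rw [Finset.mem_coe, Multiset.mem_toFinset, Polynomial.mem_roots hP]
      exact hcon z
    have h3 : Tendsto (fun y : ℝ => e4 (ofComplex (y * Complex.I)) ^ 3) atTop (𝓝 0) := by
      have h4 : Tendsto (fun y : ℝ => B * ‖dl (ofComplex (y * Complex.I))‖) atTop (𝓝 0) := by
        simpa using (Pj_dl_tendsto hDlInf).norm.const_mul B
      refine squeeze_zero_norm (fun y => ?_) h4
      have h5 : e4 (ofComplex (y * Complex.I)) ^ 3 =
          jj (ofComplex (y * Complex.I)) * dl (ofComplex (y * Complex.I)) := by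
        rw [jj, div_mul_cancel₀ _ (hne _)]
      rw [h5, norm_mul]
      exact mul_le_mul_of_nonneg_right (hB _) (norm_nonneg _)
    have h6 := tendsto_nhds_unique h3 (hDlInf.2.2.pow 3)
    norm_num at h6

end DIF5
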