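import Pool.Agent.Lib.DI.F5.Spec

set_option autoImplicit false

namespace DIF5

open UpperHalfPlane

/-- **Q1.** -/
theorem sQ1 : S_Q1 := by
  intro z
  refine ⟨fun c => ?_, fun m => ?_, fun p p' x x' h h' => ⟨?_, ?_⟩⟩
  · have h : HasSum (fun n : ℕ => if n = 0 then c else 0) c := hasSum_ite_eq 0 c
    have e : (fun n : ℕ => (PowerSeries.C c : PowerSeries ℂ).coeff n * qq z ^ n) =
        fun n : ℕ => if n = 0 then c else 0 := by
      funext n
      rw [PowerSeries.coeff_C]
      split_ifs with hn
      · rw [hn, pow_zero, mul_one]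
      · rw [zero_mul]
    rw [e]
    exact h
  · have h : HasSum (fun n : ℕ => if n = m then qq z ^ m else 0) (qq z ^ m) := hasSum_ite_eq m _
    have e : (fun n : ℕ => (PowerSeries.X ^ m : PowerSeries ℂ).coeff n * qq z ^ n) =
        fun n : ℕ => if n = m then qq z ^ m else 0 := by
      funext n
      rw [PowerSeries.coeff_X_pow]
      split_ifs with hn
      · rw [hn, one_mul]
      · rw [zero_mul]
    rw [e]
    exact h
  · have e : (fun n : ℕ => (p + p').coeff n * qq z ^ n) =
        fun n : ℕ => p.coeff n * qq z ^ n + p'.coeff n * qq z ^ n := by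
      funext n
      rw [map_add, add_mul]
    rw [e]
    exact h.add h'
  · have hn : Summable fun n : ℕ => ‖p.coeff n * qq z ^ n‖ := h.summable.norm
    have hn' : Summable fun n : ℕ => ‖p'.coeff n * qq z ^ n‖ := h'.summable.norm
    have e : (fun n : ℕ => (p * p').coeff n * qq z ^ n) =
        fun n : ℕ => ∑ kl ∈ Finset.HasAntidiagonal.antidiagonal n,
          (p.coeff kl.1 * qq z ^ kl.1) * (p'.coeff kl.2 * qq z ^ kl.2) := by
      funext n
      rw [PowerSeries.coeff_mul, Finset.sum_mul]
      refine Finset.sum_congr rfl fun kl hkl => ?_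
      rw [Finset.HasAntidiagonal.mem_antidiagonal] at hkl
      rw [← hkl, pow_add]
      ring
    rw [e]
    have h1 := tsum_mul_tsum_eq_tsum_sum_antidiagonal_of_summable_norm hn hn'
    rw [h.tsum_eq, h'.tsum_eq] at h1
    rw [h1]
    exact (summable_norm_sum_mul_antidiagonal_of_summable_norm hn hn').of_norm.hasSum

end DIF5
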