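import Pool.Agent.Lib.DI.F5.Spec

/-!
# THEOREM DI, part F5: Q2, uniqueness of q-expansions
-/

set_option autoImplicit false

namespace DIF5

open UpperHalfPlane Filter Topology
open scoped MatrixGroups

private theorem qq_eq (z : ℍ) : Function.Periodic.qParam 1 (z : ℂ) = qq z := by
  unfold Function.Periodic.qParam qq
  congr 1
  simp

private theorem exz (A : ℝ) (hA : 0 < A) (q : ℂ) (hq : q ≠ 0)
    (hq1 : ‖q‖ < Real.exp (-2 * Real.pi * A)) : ∃ z : ℍ, A < z.im ∧ qq z = q := by
  have h1 : Function.Periodic.qParam 1 (Function.Periodic.invQParam 1 q) = q :=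
    Function.Periodic.qParam_right_inv one_ne_zero hq
  have h2 : A < (Function.Periodic.invQParam 1 q).im := by
    rw [← Function.Periodic.norm_qParam_lt_iff one_pos, h1, div_one]
    exact hq1
  refine ⟨⟨Function.Periodic.invQParam 1 q, hA.trans h2⟩, h2, ?_⟩
  rw [← qq_eq]
  exact h1

theorem sQ2 : S_Q2 := by
  intro p Y h
  set A : ℝ := max Y 0 + 1 with hAdef
  have hA : 0 < A := by positivity
  have hYA : Y < A := by
    have := le_max_left Y 0
    linarith
  let P : FormalMultilinearSeries ℂ ℂ ℂ := .ofScalars ℂ fun n => p.coeff n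
  set r : ℝ := Real.exp (-2 * Real.pi * A) with hr
  have hrpos : 0 < r := Real.exp_pos _
  -- every small `q` gives the sum zero
  have hz : ∀ q : ℂ, q ≠ 0 → ‖q‖ < r → HasSum (fun n : ℕ => p.coeff n * q ^ n) 0 := by
    intro q hq hq1
    obtain ⟨z, hz1, hz2⟩ := exz A hA q hq hq1
    have := h z (hYA.trans hz1)
    rwa [hz2] at this
  -- the radius
  have hrr : ((r / 2).toNNReal : ℝ) = r / 2 := Real.coe_toNNReal _ (by positivity)
  have hrad : ((r / 2).toNNReal : ENNReal) ≤ P.radius := by
    apply FormalMultilinearSeries.le_radius_of_summable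
    have h1 := (hz ((r / 2 : ℝ) : ℂ) (by
      rw [Ne, Complex.ofReal_eq_zero]
      positivity) (by
      rw [Complex.norm_real, Real.norm_of_nonneg (by positivity)]
      linarith)).summable.norm
    refine h1.congr fun n => ?_
    rw [norm_mul, norm_pow, Complex.norm_real, Real.norm_of_nonneg (by positivity), hrr,
      FormalMultilinearSeries.ofScalars_norm]
  have hpos : 0 < P.radius := by
    refine lt_of_lt_of_le ?_ hrad
    rw [ENNReal.coe_pos, Real.toNNReal_pos]
    positivity
  have hP := P.hasFPowerSeriesOnBall hpos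
  have hsum : ∀ q : ℂ, q ≠ 0 → ‖q‖ < r → P.sum q = 0 := by
    intro q hq hq1
    have h1 : P.sum q = ∑' n : ℕ, p.coeff n * q ^ n := by
      have := FormalMultilinearSeries.ofScalars_sum_eq (𝕜 := ℂ) (fun n => p.coeff n) q
      rw [FormalMultilinearSeries.ofScalarsSum] at this
      rw [this]
      exact tsum_congr fun n => by rw [smul_eq_mul]
    rw [h1]
    exact (hz q hq hq1).tsum_eq
  have hev : P.sum =ᶠ[𝓝 0] 0 := by
    refine (hP.hasFPowerSeriesAt.continuousAt.eventuallyEq_nhds_iff_eventuallyEq_nhdsNE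
      continuousAt_const).mp ?_
    have h1 : ∀ᶠ q : ℂ in 𝓝[≠] 0, ‖q‖ < r := by
      have h2 : ∀ᶠ q : ℂ in 𝓝 0, ‖q‖ < r := by
        have := Metric.ball_mem_nhds (0 : ℂ) hrpos
        filter_upwards [this] with q hq
        simpa using hq
      exact h2.filter_mono nhdsWithin_le_nhds
    filter_upwards [h1, self_mem_nhdsWithin] with q hq hq1
    exact hsum q hq1 hq
  have h0 := hP.hasFPowerSeriesAt.eq_zero_of_eventually hev
  have h3 := (FormalMultilinearSeries.ofScalars_series_eq_zero (E := ℂ) (𝕜 := ℂ)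
    (c := fun n => p.coeff n)).1 h0
  ext n
  exact congrFun h3 n

end DIF5
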