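import Pool.Agent.Lib.DI.F5.Spec

/-!
# THEOREM DI, part F5, module Q4: the elements of `AA M` have `q`-expansions in `SP`
-/

set_option autoImplicit false

namespace DIF5

open UpperHalfPlane Polynomial Filter
open scoped MatrixGroups Topology

section

variable {k : Type} [Field k] (ι : k →+* ℂ) (V : ValuationSubring k)

private theorem Q4_map_mem (p : PowerSeries V) : p.map (ι.comp V.subtype) ∈ SP ι V :=
  Submodule.subset_span ⟨p, rfl⟩

private theorem Q4_mul {p p' : PowerSeries ℂ} (hp : p ∈ SP ι V) (hp' : p' ∈ SP ι V) :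
    p * p' ∈ SP ι V := by
  have h : p * p' ∈ SP ι V * SP ι V := Submodule.mul_mem_mul hp hp'
  unfold SP at h
  rw [Submodule.span_mul_span] at h
  refine Submodule.span_mono ?_ h
  rintro _ ⟨_, ⟨a, rfl⟩, _, ⟨b, rfl⟩, rfl⟩
  exact ⟨a * b, by simp⟩

private theorem Q4_C (c : ℂ) : (PowerSeries.C c : PowerSeries ℂ) ∈ SP ι V := by
  have h := (SP ι V).smul_mem c (Q4_map_mem ι V 1)
  rw [map_one, PowerSeries.smul_eq_C_mul, mul_one] at h
  exact h

private theorem Q4_int (p : PowerSeries ℤ) : p.map (Int.castRingHom ℂ) ∈ SP ι V := by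
  have h : p.map (Int.castRingHom ℂ) =
      (p.map (Int.castRingHom V)).map (ι.comp V.subtype) := by
    ext n
    simp
  rw [h]
  exact Q4_map_mem ι V _

end

private theorem Q4_norm (z : ℍ) : ‖qq z‖ < 1 := UpperHalfPlane.norm_exp_two_pi_I_lt_one z

theorem sQ4 (hE7a : S_E7a) (hE7b : S_E7b) (hQ1 : S_Q1) (hQ3 : S_Q3) : S_Q4 := by
  intro M _ k _ ι V ζ hζ a ha
  obtain ⟨p4, p6, h4, h6⟩ := hQ3
  have hM : M ≠ 0 := NeZero.ne M
  have hpow : ζ ^ M = 1 := by
    apply ι.injective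
    rw [map_pow, hζ, map_one, ← Complex.exp_nat_mul]
    have : (M : ℂ) * (2 * Real.pi * Complex.I / M) = 2 * Real.pi * Complex.I := by
      have : (M : ℂ) ≠ 0 := Nat.cast_ne_zero.2 hM
      field_simp
    rw [this]
    exact Complex.exp_two_pi_mul_I
  have hV : ζ ∈ V := by
    rcases V.mem_or_inv_mem ζ with h | h
    · exact h
    · have h1 : ζ = ζ⁻¹ ^ (M - 1) := by
        have h2 : ζ ^ (M - 1) * ζ = 1 := by
          rw [← pow_succ, Nat.sub_add_cancel (Nat.one_le_iff_ne_zero.2 hM), hpow]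
        rw [inv_pow]
        exact (inv_eq_of_mul_eq_one_right h2).symm
      rw [h1]
      exact pow_mem h _
  have hn : ‖Complex.exp (2 * Real.pi * Complex.I / M)‖ = 1 := by
    rw [← hζ]
    have h1 : ‖ι ζ‖ ^ M = 1 := by
      rw [← norm_pow, ← map_pow, hpow, map_one, norm_one]
    exact (pow_eq_one_iff_of_nonneg (norm_nonneg _) hM).1 h1
  refine Algebra.adjoin_induction (p := fun x _ => ∃ p ∈ SP ι V, QE p x) ?_ ?_ ?_ ?_ ha
  · intro x hx
    rcases hx with rfl | rfl | hx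
    · exact ⟨_, Q4_int ι V p4, h4⟩
    · exact ⟨_, Q4_int ι V p6, h6⟩
    · rw [Set.mem_singleton_iff] at hx
      subst hx
      obtain ⟨c0, c1, hc⟩ := hE7a M (Complex.exp (2 * Real.pi * Complex.I / M)) rfl
      set ω : ℂ := Complex.exp (2 * Real.pi * Complex.I / M) with hω
      let b : ℕ → ℂ := fun l => (l : ℂ) ^ 11 * (ω ^ l + ω ^ ((M - 1) * l))
      have hb : ∀ l : ℕ, ‖b l‖ ≤ 2 * (l : ℝ) ^ 11 := by
        intro l
        calc ‖b l‖ = (l : ℝ) ^ 11 * ‖ω ^ l + ω ^ ((M - 1) * l)‖ := by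
              simp [b]
          _ ≤ (l : ℝ) ^ 11 * (1 + 1) := by
              refine mul_le_mul_of_nonneg_left ?_ (by positivity)
              refine (norm_add_le _ _).trans ?_
              rw [norm_pow, norm_pow, hn, one_pow, one_pow]
          _ = 2 * (l : ℝ) ^ 11 := by ring
      let P : PowerSeries V := PowerSeries.mk fun n => ∑ l ∈ n.divisors,
        ((l : V) ^ 11 * ((⟨ζ, hV⟩ : V) ^ l + (⟨ζ, hV⟩ : V) ^ ((M - 1) * l)))
      have hP : ∀ n, (P.map (ι.comp V.subtype)).coeff n = ∑ l ∈ n.divisors, b l := by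
        intro n
        simp only [P, b, PowerSeries.coeff_map, PowerSeries.coeff_mk, map_sum, map_mul, map_pow,
          map_add, map_natCast]
        refine Finset.sum_congr rfl fun l _ => ?_
        have : (ι.comp V.subtype) (⟨ζ, hV⟩ : V) = ω := hζ
        rw [this]
      refine ⟨PowerSeries.C c0 + PowerSeries.C c1 * P.map (ι.comp V.subtype),
        (SP ι V).add_mem (Q4_C ι V c0) (Q4_mul ι V (Q4_C ι V c1) (Q4_map_mem ι V P)), ?_⟩
      intro z
      obtain ⟨hC, -, hadd⟩ := hQ1 z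
      have hs := hE7b b 2 hb (qq z) (Q4_norm z)
      have hs' : HasSum (fun n : ℕ => (P.map (ι.comp V.subtype)).coeff n * qq z ^ n)
          (∑' m : ℕ+, ∑' l : ℕ+, b l * qq z ^ ((m : ℕ) * (l : ℕ))) := by
        refine hs.congr_fun ?_ |> id
        intro n
        rw [hP]
      have h1 := (hadd _ _ _ _ (hC c1) hs').2
      have h2 := (hadd _ _ _ _ (hC c0) h1).1
      rw [hc z]
      exact h2
  · intro c
    refine ⟨PowerSeries.C c, Q4_C ι V c, fun z => ?_⟩
    exact (hQ1 z).1 c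
  · rintro x y _ _ ⟨p, hp, hp'⟩ ⟨p', hq, hq'⟩
    exact ⟨p + p', (SP ι V).add_mem hp hq, fun z => ((hQ1 z).2.2 _ _ _ _ (hp' z) (hq' z)).1⟩
  · rintro x y _ _ ⟨p, hp, hp'⟩ ⟨p', hq, hq'⟩
    exact ⟨p * p', Q4_mul ι V hp hq, fun z => ((hQ1 z).2.2 _ _ _ _ (hp' z) (hq' z)).2⟩

end DIF5
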