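import Pool.Agent.Lib.DI.F5.Spec

/-!
# THEOREM DI, part F5: descent to `k` and bounded denominators
-/

set_option autoImplicit false

namespace DIF5

open scoped MatrixGroups

/-- One may take the constant in `V`. -/
private theorem Q5_norm {k : Type} [Field k] (V : ValuationSubring k) (Q : PowerSeries k)
    (h : Bd V Q) : ∃ c : k, c ∈ V ∧ c ≠ 0 ∧ ∀ i : ℕ, c * Q.coeff i ∈ V := by
  obtain ⟨c, hc, hQ⟩ := h
  by_cases hV : c ∈ V
  · exact ⟨c, hV, hc, hQ⟩
  · have hi : c⁻¹ ∈ V := (V.mem_or_inv_mem c).resolve_left hV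
    refine ⟨1, V.one_mem, one_ne_zero, fun i => ?_⟩
    have h1 : 1 * Q.coeff i = c⁻¹ * (c * Q.coeff i) := by
      field_simp
    rw [h1]
    exact V.mul_mem _ _ hi (hQ i)

private theorem Q5_add {k : Type} [Field k] (V : ValuationSubring k) (Q R : PowerSeries k)
    (h : Bd V Q) (h' : Bd V R) : Bd V (Q + R) := by
  obtain ⟨c, hcV, hc, hQ⟩ := Q5_norm V Q h
  obtain ⟨d, hdV, hd, hR⟩ := Q5_norm V R h'
  refine ⟨c * d, mul_ne_zero hc hd, fun i => ?_⟩
  have h1 : c * d * (Q + R).coeff i = d * (c * Q.coeff i) + c * (d * R.coeff i) := by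
    rw [map_add]; ring
  rw [h1]
  exact V.add_mem _ _ (V.mul_mem _ _ hdV (hQ i)) (V.mul_mem _ _ hcV (hR i))

/-- Apply an additive map to the coefficients. -/
private noncomputable def Q5_L {k : Type} [Field k] (lam : ℂ → k) (Q : PowerSeries ℂ) : PowerSeries k :=
  PowerSeries.mk fun n => lam (Q.coeff n)

private theorem Q5_SP {k : Type} [Field k] (ι : k →+* ℂ) (V : ValuationSubring k) (Q : PowerSeries ℂ)
    (hQ : Q ∈ SP ι V) : ∀ lam : ℂ →+ k, (∀ (x : ℂ) (y : k), lam (x * ι y) = lam x * y) →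
    Bd V (Q5_L lam Q) := by
  unfold SP at hQ
  induction hQ using Submodule.span_induction with
  | mem Q h =>
    intro lam hlam
    obtain ⟨U, rfl⟩ := h
    have hc : ∀ i, (Q5_L lam (U.map (ι.comp V.subtype))).coeff i = lam 1 * (U.coeff i : k) := by
      intro i
      have h1 := hlam 1 (U.coeff i : k)
      rw [one_mul] at h1
      simpa [Q5_L] using h1
    by_cases hV : lam 1 ∈ V
    · refine ⟨1, one_ne_zero, fun i => ?_⟩
      rw [hc, one_mul]
      exact V.mul_mem _ _ hV (U.coeff i).2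
    · have h0 : lam 1 ≠ 0 := fun h => hV (h ▸ V.zero_mem)
      refine ⟨(lam 1)⁻¹, inv_ne_zero h0, fun i => ?_⟩
      rw [hc, inv_mul_cancel_left₀ h0]
      exact (U.coeff i).2
  | zero =>
    intro lam _
    refine ⟨1, one_ne_zero, fun i => ?_⟩
    simp [Q5_L, V.zero_mem]
  | add Q R _ _ hQ hR =>
    intro lam hlam
    have h1 : Q5_L lam (Q + R) = Q5_L lam Q + Q5_L lam R := by
      ext i
      simp [Q5_L]
    rw [h1]
    exact Q5_add V _ _ (hQ lam hlam) (hR lam hlam)
  | smul a Q _ hQ =>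
    intro lam hlam
    have h1 : Q5_L lam (a • Q) = Q5_L (lam.comp (AddMonoidHom.mulLeft a)) Q := by
      ext i
      simp [Q5_L]
    rw [h1]
    refine hQ _ ?_
    intro x y
    simp only [AddMonoidHom.comp_apply, AddMonoidHom.coe_mulLeft]
    rw [← mul_assoc, hlam]

theorem sQ5 : S_Q5 := by
  intro k _ ι V Q1 Q2 p h1 h2 h0 hp
  letI : Algebra k ℂ := ι.toAlgebra
  have hm : ∃ m, Q2.coeff m ≠ 0 := by
    by_contra h
    push Not at h
    exact h0 (PowerSeries.ext (by simpa using h))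
  obtain ⟨m, hm⟩ := hm
  have hl : ∃ lam : Module.Dual k ℂ, lam (Q2.coeff m) ≠ 0 := by
    by_contra h
    push Not at h
    exact hm ((Module.forall_dual_apply_eq_zero_iff k _).1 h)
  obtain ⟨lam, hl⟩ := hl
  have hlam : ∀ (x : ℂ) (y : k), lam.toAddMonoidHom (x * ι y) = lam.toAddMonoidHom x * y := by
    intro x y
    have h3 : x * ι y = y • x := by
      rw [Algebra.smul_def, mul_comm]
      rfl
    show lam (x * ι y) = lam x * y
    rw [h3, map_smul, smul_eq_mul, mul_comm]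
  refine ⟨Q5_L lam Q1, Q5_L lam Q2, ?_, ?_, Q5_SP ι V Q1 h1 lam.toAddMonoidHom hlam,
    Q5_SP ι V Q2 h2 lam.toAddMonoidHom hlam⟩
  · intro h
    apply hl
    have h4 := congrArg (fun Q => PowerSeries.coeff m Q) h
    simpa [Q5_L] using h4
  · ext n
    rw [← hp]
    simp only [Q5_L, PowerSeries.coeff_mk, PowerSeries.coeff_mul, map_sum, PowerSeries.coeff_map]
    refine Finset.sum_congr rfl fun x _ => ?_
    exact (hlam _ _).symm

end DIF5
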