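import Pool.Agent.Lib.DI.F5.Spec

/-!
# THEOREM DI, part F5: transport of analyticity
-/

set_option autoImplicit false

namespace DIF5

open UpperHalfPlane
open scoped MatrixGroups

theorem sTr : S_Tr := by
  intro f γ hf z h
  have hdet : (0 : ℝ) < ((γ : GL (Fin 2) ℝ)).val.det := by
    have h := ((Matrix.SpecialLinearGroup.map (Int.castRingHom ℝ)) γ).det_coe
    exact h.symm ▸ one_pos
  have hg : AnalyticAt ℂ (fun w : ℂ => (((γ : GL (Fin 2) ℝ) • ofComplex w : ℍ) : ℂ)) (z : ℂ) :=
    analyticAt_smul hdet z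
  have h1 : f ∘ ofComplex =
      (f ∘ ofComplex) ∘ (fun w : ℂ => (((γ : GL (Fin 2) ℝ) • ofComplex w : ℍ) : ℂ)) := by
    funext w
    simp only [Function.comp_apply, ofComplex_apply]
    exact (hf (ofComplex w)).symm
  rw [h1]
  refine AnalyticAt.comp ?_ hg
  rw [ofComplex_apply]
  exact h

end DIF5
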