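import Pool.Agent.Lib.DI.F5.Spec

/-!
# THEOREM DI, part F5: W1, from the data of part F3 to `MF`
-/

set_option autoImplicit false

namespace DIF5

open UpperHalfPlane Filter
open scoped MatrixGroups Topology

/-- the coordinate at the cusp -/
private noncomputable def W1_t (M : ℕ) (w : ℂ) : ℂ := Complex.exp (2 * Real.pi * Complex.I * w / M)

private lemma W1_an (M : ℕ) (w : ℂ) : AnalyticAt ℂ (W1_t M) w := by
  unfold W1_t
  fun_prop

private lemma W1_norm (M : ℕ) (w : ℂ) : ‖W1_t M w‖ = Real.exp (-(2 * Real.pi * w.im / M)) := by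
  unfold W1_t
  rw [Complex.norm_exp]
  congr 1
  rw [Complex.div_natCast_re]
  simp only [Complex.mul_re, Complex.mul_im, Complex.re_ofNat, Complex.im_ofNat, Complex.ofReal_re,
    Complex.ofReal_im, Complex.I_re, Complex.I_im]
  ring

private lemma W1_pow (M : ℕ) [NeZero M] (z : ℍ) : qq z = W1_t M z ^ M := by
  unfold W1_t qq
  rw [← Complex.exp_nat_mul]
  congr 1
  have h : (M : ℂ) ≠ 0 := Nat.cast_ne_zero.2 (NeZero.ne M)
  field_simp

theorem sW1 : S_W1 := by
  intro M _ Ψ γ F Y hΨ hF hFY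
  have hdet : (0 : ℝ) < ((γ : GL (Fin 2) ℝ)).val.det := by
    have h := ((Matrix.SpecialLinearGroup.map (Int.castRingHom ℝ)) γ).det_coe
    exact h.symm ▸ one_pos
  have hM : (0 : ℝ) < M := Nat.cast_pos.2 (NeZero.pos M)
  refine ⟨fun z => ?_, ?_⟩
  · have hg : AnalyticAt ℂ (fun w : ℂ => (((γ : GL (Fin 2) ℝ) • ofComplex w : ℍ) : ℂ)) (z : ℂ) :=
      analyticAt_smul hdet z
    have hm := hΨ (((γ : GL (Fin 2) ℝ) • ofComplex (z : ℂ) : ℍ) : ℂ)
      ((γ : GL (Fin 2) ℝ) • ofComplex (z : ℂ) : ℍ).im_pos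
    exact MeromorphicAt.comp_analyticAt (g := fun w : ℂ =>
      (((γ : GL (Fin 2) ℝ) • ofComplex w : ℍ) : ℂ)) hm hg
  · obtain ⟨n, hG⟩ := hF
    have h1 := hG.eventually_analyticAt
    have h2 : ∀ᶠ t in 𝓝 (0 : ℂ), ‖(t - 0) ^ n • F t‖ < ‖((0 : ℂ) - 0) ^ n • F 0‖ + 1 :=
      (hG.continuousAt.norm).eventually (gt_mem_nhds (lt_add_one _))
    obtain ⟨r, hr, hball⟩ := Metric.eventually_nhds_iff.1 (h1.and h2)
    refine ⟨max (max Y 0) (-(Real.log r * M / (2 * Real.pi))),
      ‖((0 : ℂ) - 0) ^ n • F 0‖ + 1, n, fun z hz => ?_⟩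
    have hY : Y < z.im := (le_max_left _ _).trans_lt ((le_max_left _ _).trans_lt hz)
    have hr2 : -(Real.log r * M / (2 * Real.pi)) < z.im := (le_max_right _ _).trans_lt hz
    have hn : ‖W1_t M z‖ < r := by
      rw [W1_norm, ← Real.lt_log_iff_exp_lt hr]
      have h3 : -(Real.log r * M) < z.im * (2 * Real.pi) := by
        rw [← neg_div, div_lt_iff₀ (by positivity)] at hr2
        exact hr2
      have h4 : -(2 * Real.pi * (z : ℂ).im / M) = (-(2 * Real.pi * (z : ℂ).im)) / M := by ring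
      rw [h4, div_lt_iff₀ hM]
      have h5 : (z : ℂ).im = z.im := rfl
      rw [h5]
      linarith
    have hne : W1_t M z ≠ 0 := Complex.exp_ne_zero _
    obtain ⟨ha, hb⟩ := hball (y := W1_t M z) (by rwa [dist_zero_right])
    have hFa : AnalyticAt ℂ F (W1_t M z) := by
      have h3 : AnalyticAt ℂ (fun s : ℂ => ((s - 0) ^ n)⁻¹ • ((s - 0) ^ n • F s)) (W1_t M z) := by
        have h4 : AnalyticAt ℂ (fun s : ℂ => (s - 0) ^ n) (W1_t M z) := by fun_prop
        have h5 : (W1_t M z - 0) ^ n ≠ 0 := by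
          rw [sub_zero]
          exact pow_ne_zero _ hne
        exact AnalyticAt.fun_smul (h4.fun_inv h5) ha
      refine h3.congr ?_
      filter_upwards [isOpen_ne.mem_nhds hne] with s hs
      have h4 : (s - 0) ^ n ≠ 0 := by
        rw [sub_zero]
        exact pow_ne_zero _ hs
      rw [smul_smul, inv_mul_cancel₀ h4, one_smul]
    constructor
    · have h3 : AnalyticAt ℂ (F ∘ W1_t M) (z : ℂ) := AnalyticAt.comp hFa (W1_an M z)
      refine h3.congr ?_
      have ho : IsOpen {w : ℂ | max Y 0 < w.im} := isOpen_lt continuous_const Complex.continuous_im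
      filter_upwards [ho.mem_nhds (show max Y 0 < (z : ℂ).im from (le_max_left _ _).trans_lt hz)]
        with w hw
      have hw0 : 0 < w.im := (le_max_right _ _).trans_lt hw
      have hwY : Y < w.im := (le_max_left _ _).trans_lt hw
      have h4 : ((ofComplex w : ℍ) : ℂ) = w := by
        rw [ofComplex_apply_of_im_pos hw0]
      have h5 : (ofComplex w).im = w.im := by
        rw [← UpperHalfPlane.coe_im, h4]
      have h6 := hFY (ofComplex w) (by rwa [h5])
      rw [h4] at h6
      exact h6.symm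
    · have h3 : ‖W1_t M z‖ ≤ 1 := by
        rw [W1_norm, Real.exp_le_one_iff]
        have h4 : 0 < (z : ℂ).im := z.im_pos
        have : 0 ≤ 2 * Real.pi * (z : ℂ).im / M := by positivity
        linarith
      have h4 : ‖qq z‖ ≤ ‖W1_t M z‖ := by
        rw [W1_pow M z, norm_pow]
        exact pow_le_of_le_one (norm_nonneg _) h3 (NeZero.ne M)
      have h5 : Ψ ((γ • z : ℍ) : ℂ) = F (W1_t M z) := hFY z hY
      rw [norm_mul, norm_pow, h5]
      rw [sub_zero, norm_smul, norm_pow] at hb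
      refine le_trans ?_ hb.le
      exact mul_le_mul_of_nonneg_right (pow_le_pow_left₀ (norm_nonneg _) h4 n) (norm_nonneg _)

end DIF5
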