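import Pool.Agent.Lib.DI.F5.Spec

/-!
# THEOREM DI, part F5, module W2 (helper86): the form used in part F
-/

set_option autoImplicit false

namespace DIF5

open UpperHalfPlane Polynomial Filter
open scoped MatrixGroups Topology

/-- The constant in `Bd` may be chosen in the valuation ring. -/
private theorem W2_bd {k : Type} [Field k] (V : ValuationSubring k) (Q : PowerSeries k)
    (h : Bd V Q) : ∃ c : k, c ≠ 0 ∧ c ∈ V ∧ ∀ i : ℕ, c * Q.coeff i ∈ V := by
  obtain ⟨c, hc, hi⟩ := h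
  by_cases hV : c ∈ V
  · exact ⟨c, hc, hV, hi⟩
  · have h1 : c⁻¹ ∈ V := (V.mem_or_inv_mem c).resolve_left hV
    refine ⟨1, one_ne_zero, V.one_mem, fun i => ?_⟩
    have h2 := V.mul_mem _ _ h1 (hi i)
    rwa [← mul_assoc, inv_mul_cancel₀ hc] at h2

/-- An element of the algebraic closure with image `exp (2 π i / M)`. -/
private theorem W2_zeta (M : ℕ) [NeZero M] (ι : AlgebraicClosure ℚ →+* ℂ) :
    ∃ ζ : AlgebraicClosure ℚ, ζ ^ M = 1 ∧ ι ζ = Complex.exp (2 * Real.pi * Complex.I / M) := by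
  have hM : M ≠ 0 := NeZero.ne M
  have hM' : NeZero ((M : ℕ) : AlgebraicClosure ℚ) := ⟨Nat.cast_ne_zero.2 hM⟩
  have hdeg : (cyclotomic M (AlgebraicClosure ℚ)).degree ≠ 0 := by
    rw [degree_cyclotomic]
    have := Nat.totient_pos.2 (Nat.pos_of_ne_zero hM)
    exact_mod_cast this.ne'
  obtain ⟨z, hz⟩ := IsAlgClosed.exists_root (cyclotomic M (AlgebraicClosure ℚ)) hdeg
  have hz1 : IsPrimitiveRoot z M := isRoot_cyclotomic_iff.1 hz
  have hz2 : IsPrimitiveRoot (ι z) M := hz1.map_of_injective ι.injective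
  have hw : IsPrimitiveRoot (Complex.exp (2 * Real.pi * Complex.I / M)) M :=
    Complex.isPrimitiveRoot_exp M hM
  obtain ⟨i, -, hi⟩ := hz2.eq_pow_of_pow_eq_one hw.pow_eq_one
  refine ⟨z ^ i, ?_, ?_⟩
  · rw [← pow_mul, mul_comm, pow_mul, hz1.pow_eq_one, one_pow]
  · rw [map_pow, hi]

theorem sW2 (hF5 : S_F5) (hW1 : S_W1) : S_W2 := by
  intro M _ ι V L _ Ψ ψ m Y hmero hinv hcusp hψ hψL hsum
  obtain ⟨ζ, hζ1, hζ2⟩ := W2_zeta M ι
  have hζi : IsIntegral ℚ ζ := by
    apply IsIntegral.of_pow (Nat.pos_of_ne_zero (NeZero.ne M))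
    rw [hζ1]
    exact isIntegral_one
  have hfd : FiniteDimensional ℚ (IntermediateField.adjoin ℚ {ζ}) :=
    IntermediateField.adjoin.finiteDimensional hζi
  have hfd' : FiniteDimensional ℚ
      (L ⊔ IntermediateField.adjoin ℚ {ζ} : IntermediateField ℚ (AlgebraicClosure ℚ)) :=
    IntermediateField.finiteDimensional_sup _ _
  obtain ⟨L', hLL', hζL', hL'⟩ : ∃ L' : IntermediateField ℚ (AlgebraicClosure ℚ),
      L ≤ L' ∧ ζ ∈ L' ∧ FiniteDimensional ℚ L' :=
    ⟨L ⊔ IntermediateField.adjoin ℚ {ζ}, le_sup_left,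
      (le_sup_right : IntermediateField.adjoin ℚ {ζ} ≤ L ⊔ IntermediateField.adjoin ℚ {ζ})
        (IntermediateField.mem_adjoin_simple_self ℚ ζ), hfd'⟩
  refine ⟨L', hLL', hL', ?_⟩
  let s : L' →+* AlgebraicClosure ℚ := algebraMap L' (AlgebraicClosure ℚ)
  have hs : ∀ x : L', s x = (x : AlgebraicClosure ℚ) := fun _ => rfl
  have hsi : Function.Injective s := s.injective
  let p : PowerSeries L' := PowerSeries.mk fun i => ⟨ψ.coeff i, hLL' (hψL i)⟩
  have hp : p.map s = ψ := by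
    ext i
    rw [PowerSeries.coeff_map, PowerSeries.coeff_mk]
    rfl
  obtain ⟨Q1, Q2, hQ2, hQ, hb1, hb2⟩ := hF5 M L' (ι.comp s) (V.comap s) ⟨ζ, hζL'⟩ hζ2
    (fun z => Ψ (z : ℂ))
    (by
      intro γ
      obtain ⟨F, Y', hF, hY'⟩ := hcusp γ
      exact hW1 M Ψ γ F Y' hmero hF hY')
    (by
      intro γ hγ z
      exact hinv γ hγ z)
    p m Y
    (by
      intro z hz
      have h1 := hsum z hz
      have h2 : (fun i : ℕ => (ι.comp s) (p.coeff i) * qq z ^ i) =
          fun i : ℕ => ι (ψ.coeff i) * qq z ^ i := by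
        funext i
        rw [← hp, PowerSeries.coeff_map]
        rfl
      rw [h2]
      exact h1)
  obtain ⟨c1, hc1, hV1, hi1⟩ := W2_bd _ _ hb1
  obtain ⟨c2, hc2, hV2, hi2⟩ := W2_bd _ _ hb2
  have hne2 : (PowerSeries.C (c1 * c2) * Q2).map s ≠ 0 := by
    intro h
    have h1 : PowerSeries.C (c1 * c2) * Q2 = 0 := by
      apply PowerSeries.map_injective s hsi
      rw [h, map_zero]
    rcases mul_eq_zero.1 h1 with h2 | h2
    · have h3 : c1 * c2 = 0 := by
        have h4 := congrArg (PowerSeries.coeff 0) h2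
        simpa using h4
      rcases mul_eq_zero.1 h3 with h4 | h4
      · exact hc1 h4
      · exact hc2 h4
    · exact hQ2 h2
  have hmul : (PowerSeries.C (c1 * c2) * Q2).map s * ψ = (PowerSeries.C (c1 * c2) * Q1).map s := by
    rw [← hp, ← map_mul, ← hQ, mul_assoc]
  refine ⟨(PowerSeries.C (c1 * c2) * Q1).map s, (PowerSeries.C (c1 * c2) * Q2).map s, ?_, hne2,
    hmul, ?_⟩
  · rw [← hmul]
    exact mul_ne_zero hne2 hψ
  · intro i
    rw [PowerSeries.coeff_map, PowerSeries.coeff_map, PowerSeries.coeff_C_mul,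
      PowerSeries.coeff_C_mul]
    refine ⟨(c1 * c2 * Q1.coeff i).2, ?_, (c1 * c2 * Q2.coeff i).2, ?_⟩
    · have h1 : c1 * c2 * Q1.coeff i = c2 * (c1 * Q1.coeff i) := by ring
      rw [h1]
      exact (V.comap s).mul_mem _ _ hV2 (hi1 i)
    · have h1 : c1 * c2 * Q2.coeff i = c1 * (c2 * Q2.coeff i) := by ring
      rw [h1]
      exact (V.comap s).mul_mem _ _ hV1 (hi2 i)

end DIF5
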