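import Pool.Agent.Lib.DI.F5.Clo
import Pool.Agent.Lib.DI.F5.Dom
import Pool.Agent.Lib.DI.F5.Tr
import Pool.Agent.Lib.DI.F5.Dl
import Pool.Agent.Lib.DI.F5.DlInf
import Pool.Agent.Lib.DI.F5.DlMF
import Pool.Agent.Lib.DI.F5.Mk
import Pool.Agent.Lib.DI.F5.Pj
import Pool.Agent.Lib.DI.F5.L3
import Pool.Agent.Lib.DI.F5.L4
import Pool.Agent.Lib.DI.F5.L5
import Pool.Agent.Lib.DI.F5.E1
import Pool.Agent.Lib.DI.F5.E2
import Pool.Agent.Lib.DI.F5.E3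
import Pool.Agent.Lib.DI.F5.E4
import Pool.Agent.Lib.DI.F5.E5
import Pool.Agent.Lib.DI.F5.E7a
import Pool.Agent.Lib.DI.F5.E7b
import Pool.Agent.Lib.DI.F5.G1
import Pool.Agent.Lib.DI.F5.G3
import Pool.Agent.Lib.DI.F5.G4
import Pool.Agent.Lib.DI.F5.G5
import Pool.Agent.Lib.DI.F5.G6
import Pool.Agent.Lib.DI.F5.G7
import Pool.Agent.Lib.DI.F5.G8
import Pool.Agent.Lib.DI.F5.Q1
import Pool.Agent.Lib.DI.F5.Q2
import Pool.Agent.Lib.DI.F5.Q3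
import Pool.Agent.Lib.DI.F5.Q4
import Pool.Agent.Lib.DI.F5.Q5
import Pool.Agent.Lib.DI.F5.F5
import Pool.Agent.Lib.DI.F5.W1
import Pool.Agent.Lib.DI.F5.W2

/-!
# DI/F5: part F5, assembled.  Final theorems `tF5 : S_F5` and `tW2 : S_W2`.
-/

set_option autoImplicit false

namespace DIF5

theorem tDlMF : S_DlMF := sDlMF sClo sDl sDlInf

theorem tPj : S_Pj := sPj sDl sDlInf

theorem tL3 : S_L3 := sL3 sMk sDl sDlInf

theorem tL4 : S_L4 := sL4 sTr sDl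

theorem tL5 : S_L5 := sL5 sClo tDlMF tPj tL3 tL4 sDl

theorem tG1 : S_G1 := sG1 sClo sDl tDlMF sE1 sE2 sE3

theorem tG3 : S_G3 := sG3 sE1 sE4 sE5 sDl

theorem tG6 : S_G6 := sG6 sClo

theorem tG7 : S_G7 := sG7 tL5 sG4 sG5 tG6 sDom sDl

theorem tG8 : S_G8 := sG8 sClo sDom sDl tG1 tG3 tG7

theorem tQ4 : S_Q4 := sQ4 sE7a sE7b sQ1 sQ3

/-- The theorem of part F5. -/
theorem tF5 : S_F5 := sF5 tG8 sQ1 sQ2 tQ4 sQ5

/-- The form used in part F. -/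
theorem tW2 : S_W2 := sW2 tF5 sW1

end DIF5
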