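import Pool.Agent.Lib.DI.F5.Defs

/-!
# THEOREM DI, part F5: the statements.  Every statement `S_..` is a separate task; its complete proof
is in the docstring.

Theorem `S_F5`: a modular function `Ψ` for `Γ_1(M)` whose `q`-expansion has coefficients in a field
`k` is a quotient of power series over `k` with bounded denominators (for every valuation subring).

Idea: `Ψ = f1 / f2` with `f1`, `f2` in the algebra generated by `E4`, `E6` and `E = E_(0,1)` (weight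
12, level `M`): Lagrange interpolation over the finite set of functions `F ∘ γ`, `F = E / Δ`, and
the theory of level one.  The `q`-expansions of `E4`, `E6` are in `ℤ[[q]]` and `E = c0 + c1 E'` with
`E'` in `ℤ[ζ_M][[q]]` and complex numbers `c0`, `c1`; so `f1`, `f2` are `ℂ`-linear combinations of
power series with coefficients in `ℤ[ζ_M]`; apply a `k`-linear functional `ℂ → k` to the coefficients.
-/

set_option autoImplicit false

namespace DIF5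

open UpperHalfPlane Polynomial Filter
open scoped MatrixGroups Topology

/-! ## A. General facts -/

/-- **Clo.** Closure properties of `MF` and `An`.
Proof: `MeromorphicAt` and `AnalyticAt` are closed under sums and products (`MeromorphicAt.add`,
`.mul`, `AnalyticAt.add`, `.mul`; `(f + g) ∘ ofComplex` is the sum by `rfl`).  `‖qq z‖ =
exp (-2 π im z) < 1`.  Growth: if `‖qq ^ n f‖ ≤ C` for `Y < im z` and `‖qq ^ m g‖ ≤ D` for
`Y' < im z`, then above `max Y Y'`: `‖qq ^ (n + m) (f + g)‖ ≤ |C| + |D|` and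
`‖qq ^ (n + m) f g‖ ≤ |C| |D|`.  The last statement: `Y = 0`, `n = 0`... with the given bound. -/
def S_Clo : Prop :=
  (∀ c : ℂ, MF (fun _ => c) ∧ An (fun _ => c)) ∧
  (∀ f g : ℍ → ℂ, MF f → MF g → MF (f + g) ∧ MF (f * g)) ∧
  (∀ f g : ℍ → ℂ, An f → An g → An (f + g) ∧ An (f * g)) ∧
  ∀ f : ℍ → ℂ, An f → (∃ (Y C : ℝ) (n : ℕ), ∀ z : ℍ, Y < z.im → ‖qq z ^ n * f z‖ ≤ C) → MF f

/-- **Dom.** The analytic functions on the upper half plane form a domain.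
Proof: the set `{z : ℂ | 0 < z.im}` is open and convex, hence preconnected;
`AnalyticOnNhd.eq_zero_or_eq_zero_of_mul_eq_zero` (or the identity theorem: if `f z ≠ 0` then `f` has
no zeros near `z`, so `g = 0` near `z`, so `g = 0`: `AnalyticOnNhd.eqOn_zero_of_preconnected_of_
eventuallyEq_zero`). -/
def S_Dom : Prop :=
  ∀ f g : ℍ → ℂ, An f → An g → f * g = 0 → f = 0 ∨ g = 0

/-- **Tr.** Transport of analyticity: for `f` invariant under `γ`.
Proof: `g w = (a w + b) / (c w + d)` is analytic at `z` with `g z = γ • z` (`c z + d ≠ 0`), and near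
`z` (where `im w > 0`) `ofComplex (g w) = γ • ofComplex w`, so `(f ∘ ofComplex) ∘ g` and
`f ∘ ofComplex` agree near `z` (`AnalyticAt.comp`, `AnalyticAt.congr`). -/
def S_Tr : Prop :=
  ∀ (f : ℍ → ℂ) (γ : SL(2, ℤ)), (∀ z : ℍ, f (γ • z) = f z) → ∀ z : ℍ,
    AnalyticAt ℂ (f ∘ ofComplex) ((γ • z : ℍ) : ℂ) → AnalyticAt ℂ (f ∘ ofComplex) (z : ℂ)

/-! ## B. Level one -/

/-- **Dl.** Basic facts on `E4`, `E6`, `Δ`, `j`.
Proof: `ModularForm.discriminant_ne_zero`; holomorphy: the fields `holo'` of the modular forms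
`ModularForm.E₄`, `ModularForm.E₆`, `CuspForm.discriminant` with `UpperHalfPlane.mdifferentiable_iff`
(`DifferentiableOn` on an open set gives `AnalyticAt`: `DifferentiableOn.analyticAt`); the
transformation laws: `SlashInvariantForm.slash_action_eqn_SL''` (with `Gamma_one_coe_eq_SL`), or
`slash_action_eqn`, and `dn_eq`; `ModularForm.discriminant_eq_E₄_cube_sub_E₆_sq`; `dl ∈ A0` from the
last formula. -/
def S_Dl : Prop :=
  (∀ z : ℍ, dl z ≠ 0) ∧ An e4 ∧ An e6 ∧ An dl ∧ An jj ∧ An (fun z => (dl z)⁻¹) ∧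
  (∀ (γ : SL(2, ℤ)) (z : ℍ), e4 (γ • z) = dn γ z ^ 4 * e4 z) ∧
  (∀ (γ : SL(2, ℤ)) (z : ℍ), e6 (γ • z) = dn γ z ^ 6 * e6 z) ∧
  (∀ (γ : SL(2, ℤ)) (z : ℍ), dl (γ • z) = dn γ z ^ 12 * dl z) ∧
  Inv jj ∧ (∀ z : ℍ, dl z = (e4 z ^ 3 - e6 z ^ 2) / 1728) ∧ dl ∈ A0 ∧ ∀ a ∈ A0, An a

/-- **DlInf.** Behaviour at `i ∞`: `c ‖qq z‖ ≤ ‖Δ z‖ ≤ C ‖qq z‖` for large `im z`, `E4 → 1` along
`i y`; `E4`, `E6` are bounded for large `im z`.
Proof: `ModularForm.discriminant_eq_q_prod` and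
`ModularForm.tendsto_atImInfty_tprod_one_sub_eta_q_pow` (the product tends to `1`, so its norm is
between `1/2` and `2` for large `im z`); `qq z = 𝕢 1 z`.  `E4`, `E6`: `ModularFormClass.bdd_at_infty`
(with `Fact (IsCusp OnePoint.infty 𝒮ℒ)`), or the `q`-expansions.  `E4 → 1`:
`UpperHalfPlane.qExpansion_coeff_zero` and `EisensteinSeries.E_qExpansion_coeff_zero`, or
`EisensteinSeries.q_expansion_bernoulli` (the cusp function is continuous at `0` with value `1`). -/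
def S_DlInf : Prop :=
  (∃ Y c C : ℝ, 0 < c ∧ ∀ z : ℍ, Y < z.im → c * ‖qq z‖ ≤ ‖dl z‖ ∧ ‖dl z‖ ≤ C * ‖qq z‖) ∧
  (∃ Y C : ℝ, ∀ z : ℍ, Y < z.im → ‖e4 z‖ ≤ C ∧ ‖e6 z‖ ≤ C) ∧
  Tendsto (fun y : ℝ => e4 (ofComplex (y * Complex.I))) atTop (𝓝 1)

/-- **DlMF** (from Clo, Dl, DlInf).  `E4`, `E6`, `Δ`, `1 / Δ`, `j` and all polynomials in `j` are
`MF`.  Proof: last part of Clo; `‖qq z * (dl z)⁻¹‖ ≤ 1 / c`, `‖dl z‖ ≤ |C|`.  Polynomials: induction
(`Polynomial.induction_on`). -/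
def S_DlMF : Prop :=
  MF e4 ∧ MF e6 ∧ MF dl ∧ MF (fun z => (dl z)⁻¹) ∧ MF jj ∧
  ∀ P : ℂ[X], MF (fun z => P.eval (jj z)) ∧ An (fun z => P.eval (jj z))

/-- **Mk.** Modular forms of level one and weight `12 n` are polynomials in `E4` and `E6`.
Proof by induction on `n`.  `n = 0`: `ModularFormClass.levelOne_weight_zero_const`, a constant
function is in `A0` (`algebraMap`).  Step: `f` of weight `12 (n + 1)`; `a` the constant term of the
`q`-expansion of `f`, `g = f - a • E4 ^ (3 (n + 1))` (`ModularForm.pow`, `ModularForm.mcast`) has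
constant term `0` (`ModularForm.qExpansion_sub`, `qExpansion_smul`, `qExpansion_pow`,
`E_qExpansion_coeff_zero`), so `g = Δ h` with `h = CuspForm.discriminantEquiv (toCuspForm g _)` of
weight `12 (n + 1) - 12 = 12 n` (`ModularForm.discriminant_mul_discriminantEquiv`); by induction
`h ∈ A0`, so `f = a e4 ^ (3 (n + 1)) + dl h ∈ A0` (`dl ∈ A0` from Dl). -/
def S_Mk : Prop :=
  ∀ (n : ℕ) (k : ℤ), k = 12 * n → ∀ f : ModularForm 𝒮ℒ k, (fun z : ℍ => f z) ∈ A0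

/-- **Pj.** Polynomials in `j`, multiplied by a power of `Δ`.
Proof: `Δ ^ n j ^ i = (E4 ^ 3) ^ i Δ ^ (n - i)` for `i ≤ n`, sum over the coefficients (Dl: `dl ≠ 0`,
`dl ∈ A0`).  Nonzero: by DlInf `‖j (i y)‖ = ‖E4‖ ^ 3 / ‖Δ‖ → ∞` for `y → ∞`, and `P` has only
finitely many roots (or `Polynomial.tendsto_norm_atTop`), so `P (j (i y)) ≠ 0` for large `y`. -/
def S_Pj : Prop :=
  ∀ (P : ℂ[X]) (n : ℕ), P.natDegree ≤ n → (fun z => dl z ^ n * P.eval (jj z)) ∈ A0 ∧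
    (P ≠ 0 → ∃ z : ℍ, P.eval (jj z) ≠ 0)

/-- **L3.** An invariant analytic function of moderate growth, multiplied by a power of `Δ`, is a
modular form of level one.
Proof (from Mk, Dl, DlInf): let `‖qq z ^ n * h z‖ ≤ C` for `Y < im z`.  `z ↦ dl z ^ n * h z` is a
`ModularForm 𝒮ℒ (12 * n)`: slash invariance from the transformation law of `dl` (as in
`CuspForm.discriminantEquiv`), holomorphic (`UpperHalfPlane.mdifferentiable_iff`), bounded at `i ∞`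
because `‖dl z‖ ≤ C' ‖qq z‖`; for `bdd_at_cusps'` use `Subgroup.IsArithmetic.isCusp_iff_isCusp_SL2Z`,
`OnePoint.isBoundedAt_iff_forall_SL2Z` and the slash invariance. -/
def S_L3 : Prop :=
  ∀ h : ℍ → ℂ, An h → Inv h →
    (∃ (Y C : ℝ) (n : ℕ), ∀ z : ℍ, Y < z.im → ‖qq z ^ n * h z‖ ≤ C) →
    ∃ N : ℕ, (fun z => dl z ^ N * h z) ∈ A0

/-- **L4** (from Tr, Dl).  Removing the poles.
Proof.  Let `K0` be the set of `z : ℂ` with `|re z| ≤ 1/2`, `1/2 ≤ im z ≤ Y` (compact: the product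
of two compact intervals, `IsCompact.reProdIm`).  Claim: there is `P ≠ 0` such that
`z ↦ P (j z) f z` is analytic at every point of `K0`: `IsCompact.induction_on` for the property
`∃ P ≠ 0, ∀ z ∈ s, AnalyticAt ..`.  Union: the product `P1 P2`.  Local step at `z0 ∈ K0`: let `n`
be such that `(z - z0) ^ n • f z` is analytic at `z0` (definition of `MeromorphicAt`) and
`P = (X - C (j z0)) ^ n`.  With `g = jj ∘ ofComplex` and `s = dslope g z0` (analytic at `z0`,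
`Complex.differentiableOn_dslope`), `g z - g z0 = s z (z - z0)` for ALL `z` (`sub_smul_dslope`), so
`P (g z) f z = s z ^ n * ((z - z0) ^ n * f z)`, analytic at `z0`, hence at all points near `z0`
(`AnalyticAt.eventually_analyticAt`).  Then `h z = P (j z) f z` is analytic at the points of `K0` and
at the points with `im z > Y`, hence at the points of the fundamental domain `ModularGroup.fd`
(there `im z ≥ 1/2` by `ModularGroup.three_le_four_mul_im_sq_of_mem_fd`), hence everywhere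
(`ModularGroup.exists_smul_mem_fd` and Tr for `h`). -/
def S_L4 : Prop :=
  ∀ (f : ℍ → ℂ), Inv f → (∀ z : ℍ, MeromorphicAt (f ∘ ofComplex) (z : ℂ)) →
    (∃ Y : ℝ, ∀ z : ℍ, Y < z.im → AnalyticAt ℂ (f ∘ ofComplex) (z : ℂ)) →
    ∃ P : ℂ[X], P ≠ 0 ∧ An (fun z => P.eval (jj z) * f z)

/-- **L5** (from Clo, DlMF, Pj, L3, L4, Dl).  Level one modular functions are quotients of elements of
`A0`.
Proof: `P` from L4, `h = P (j) f` is analytic, invariant, and of moderate growth (DlMF, Clo: `MF` is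
closed under products), so `dl ^ N * h ∈ A0` (L3).  With `n = natDegree P` and
`a = (dl ^ n * P (j)) * dl ^ N ∈ A0` (Pj), `a * f = dl ^ n * (dl ^ N * h) ∈ A0`; `a ≠ 0` by Pj. -/
def S_L5 : Prop :=
  ∀ f : ℍ → ℂ, Inv f → MF f → ∃ a ∈ A0, a ≠ 0 ∧ a * f ∈ A0

/-! ## C. The Eisenstein series -/

/-- **E1.** Transformation law.
Proof: `EisensteinSeries.eisSummand_SL2_apply`, and the sum is reindexed by the bijection
`u ↦ u ᵥ* γ` of `Fin 2 → ℤ` (inverse `u ↦ u ᵥ* γ⁻¹`): `u ≡ v` iff `u γ ≡ act v γ`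
(`tsum_mul_left`, `Equiv.tsum_eq`). -/
def S_E1 : Prop :=
  ∀ (M : ℕ) (v : Fin 2 → ZMod M) (γ : SL(2, ℤ)) (z : ℍ),
    EE M v (γ • z) = dn γ z ^ 12 * EE M (act v γ) z

/-- **E2.** `EE M v` is analytic.
Proof: as `EisensteinSeries.eisensteinSeries_tendstoLocallyUniformly(On)` and
`eisensteinSeriesSIF_mdifferentiable` in Mathlib, with all of `Fin 2 → ℤ` and the summand
`if .. then eisSummand 12 u z else 0`, whose norm is at most `‖eisSummand 12 u z‖ ≤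
r ^ (-12) ‖u‖ ^ (-12)` on a vertical strip (`summand_bound_of_mem_verticalStrip`,
`summable_one_div_norm_rpow`; `eisSummand_extension_differentiableOn`).  (Or use
`differentiableOn_tsum_of_summable_norm` on a small ball around `z`.) -/
def S_E2 : Prop := ∀ (M : ℕ) (v : Fin 2 → ZMod M), An (EE M v)

/-- **E3.** `EE M v` is bounded for `im z ≥ 1`.
Proof: put `N z = ∑' u, ‖eisSummand 12 u z‖`; `‖EE M v z‖ ≤ N z`
(`summable_norm_eisSummand`).  `N (z + 1) = N z` (reindex by `(m, n) ↦ (m, n + m)`; or: by E1 for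
the translation `EE M v (z + n) = EE M (act v T^n) z`, `ModularGroup_T_zpow_mem_verticalStrip` with
`N = M`).  So one may assume `|re z| ≤ 1` (or `≤ M`), where `N z ≤ ∑' u, r ^ (-12) ‖u‖ ^ (-12)`
(`summand_bound_of_mem_verticalStrip`), as in
`EisensteinSeries.isBoundedAtImInfty_eisensteinSeriesSIF`. -/
def S_E3 : Prop :=
  ∀ (M : ℕ) [NeZero M] (v : Fin 2 → ZMod M), ∃ C : ℝ, ∀ z : ℍ, 1 ≤ z.im → ‖EE M v z‖ ≤ C

/-- **E4.** The limit along the imaginary axis.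
Proof: `tendsto_tsum_of_dominated_convergence` over `u : Fin 2 → ℤ`, bound
`r ^ (-12) ‖u‖ ^ (-12)` for `y ≥ 1` (the points `i y` are in the vertical strip `|re| ≤ 1`,
`im ≥ 1`).  Termwise: if `u 0 ≠ 0` then `(u 0 i y + u 1) ^ (-12) → 0`, if `u 0 = 0` the term is
constant `(u 1) ^ (-12)`.  The sum of the limits is `cst M v`: only `u 0 = 0` contributes; sum over
`n = u 1` (the map `n ↦ ![0, n]` is injective: `Function.Injective.tsum_eq`, or `tsum` over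
`ℤ × ℤ` by `finTwoArrowEquiv`). -/
def S_E4 : Prop :=
  ∀ (M : ℕ) (v : Fin 2 → ZMod M),
    Tendsto (fun y : ℝ => EE M v (ofComplex (y * Complex.I))) atTop (𝓝 ((cst M v : ℝ) : ℂ))

/-- **E5.** The constant terms.
Proof.  The sum is dominated by `∑_n |n| ^ (-12)` (summable).  `v = (0, 1)`: all terms are `≥ 0` and
the term `n = 1` is `1`.  If `v` is not `± (0, 1)`: if `v 0 ≠ 0` then `cst = 0`.  Otherwise
`v 1 ≠ ± 1`, the terms for `n = 0, 1, -1` are `0`, and for `|n| ≥ 2` a term is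
`≤ n ^ (-12) ≤ 2 ^ (-10) n ^ (-2)`; the sum is `≤ 2 * 2 ^ (-10) * π ^ 2 / 6 < 1` (`hasSum_zeta_two`;
any crude bound is fine). -/
def S_E5 : Prop :=
  ∀ (M : ℕ) [NeZero M], 1 ≤ cst M (v0 M) ∧
    ∀ v : Fin 2 → ZMod M, v ≠ v0 M → v ≠ - v0 M → cst M v < 1

/-- **E7a.** The Lipschitz formula for `E_(0,1)`.
Proof.  The pairs `u ≡ (0, 1)` are `u = (M m, 1 + M n)`, `m, n : ℤ` (bijection), and
`(M m z + 1 + M n) ^ (-12) = M ^ (-12) (m z + 1 / M + n) ^ (-12)`.  The double sum is absolutely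
convergent; sum over `n` first (`Summable.tsum_prod`).  `m ≥ 1`: `EisensteinSeries.qExpansion_identity`
with `k = 11` at the point `m z + 1 / M` of `ℍ`, and `exp (2 π i (m z + 1/M)) ^ l =
qq z ^ (m l) ζ ^ l`.  `m = - m' < 0`: `(- m' z + 1/M + n) ^ (-12) = (m' z - 1/M + (-n)) ^ (-12)`, the
same at the point `m' z - 1/M` with `ζ ^ (-l) = ζ ^ ((M - 1) l)`.  `m = 0`: the constant
`c0 = M ^ (-12) ∑' n, (1 / M + n) ^ (-12)`.  `c1 = M ^ (-12) (-2 π i) ^ 12 / 11!`.  Split the sum over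
`m : ℤ` into `m = 0`, `m ≥ 1`, `m ≤ -1` (as `tsum_int_eq_zero_add_..` in Mathlib). -/
def S_E7a : Prop :=
  ∀ (M : ℕ) [NeZero M] (ζ : ℂ), ζ = Complex.exp (2 * Real.pi * Complex.I / M) →
    ∃ c0 c1 : ℂ, ∀ z : ℍ, EE M (v0 M) z = c0 + c1 * ∑' m : ℕ+, ∑' l : ℕ+,
      ((l : ℕ) : ℂ) ^ 11 * (ζ ^ (l : ℕ) + ζ ^ ((M - 1) * (l : ℕ))) * qq z ^ ((m : ℕ) * (l : ℕ))

/-- **E7b.** Rearrangement into a power series.
Proof: `(m, l) ↦ ‖b l q ^ (m l)‖ ≤ C l ^ 11 ‖q‖ ^ (m l)` is summable over `ℕ+ × ℕ+`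
(`summable_prod_mul_pow` in `Mathlib/NumberTheory/TsumDivisorsAntidiagonal`), and
`sigmaAntidiagonalEquivProd` groups the pairs by `n = m l`; the coefficient of `q ^ n` is
`∑_(l | n) b l`; the coefficient for `n = 0` is `0` (`Nat.divisors 0 = ∅`). -/
def S_E7b : Prop :=
  ∀ (b : ℕ → ℂ) (C : ℝ), (∀ l : ℕ, ‖b l‖ ≤ C * (l : ℝ) ^ 11) → ∀ q : ℂ, ‖q‖ < 1 →
    HasSum (fun n : ℕ => (∑ l ∈ n.divisors, b l) * q ^ n)
      (∑' m : ℕ+, ∑' l : ℕ+, b l * q ^ ((m : ℕ) * (l : ℕ)))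

/-! ## D. Interpolation -/

/-- **G1** (from Clo, Dl, DlMF, E1, E2, E3).  The functions `F_v = E_v / Δ`. -/
def S_G1 : Prop :=
  ∀ (M : ℕ) [NeZero M] (v : Fin 2 → ZMod M),
    (∀ (γ : SL(2, ℤ)) (z : ℍ), FF M v (γ • z) = FF M (act v γ) z) ∧ An (FF M v) ∧ MF (FF M v)

/-- **G3** (from E1, E4, E5, Dl).  `F ∘ γ` determines `Ψ ∘ γ` for `F = F_(0,1)`.
Proof.  `act` is a right action: `act v (γ * δ) = act (act v γ) δ`.  If `F_w = F_w'` then `E_w = E_w'`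
(`dl ≠ 0`), and then `E_(act w δ) = E_(act w' δ)` for every `δ` (E1, `dn ≠ 0`).  Let
`δ = γ * γ'⁻¹`.  From `w = act v0 γ`, `w' = act v0 γ'`: `E_(act v0 δ) = E_(v0)`.  By E4
(uniqueness of limits) `cst (act v0 δ) = cst v0 ≥ 1`, so `act v0 δ = ± v0` by E5, i.e. the second row
of `δ` is `± (0, 1)` modulo `M`; as `det δ = 1`, `δ 0 0 = ± 1` modulo `M`: so `δ` or `- δ` is in
`Gamma1 M` (`CongruenceSubgroup.Gamma1_mem`), and `(-δ) • z = δ • z`
(`UpperHalfPlane.SLAction`: `ModularGroup.SL_neg_smul`).  So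
`Ψ (γ • z) = Ψ (δ • (γ' • z)) = Ψ (γ' • z)`. -/
def S_G3 : Prop :=
  ∀ (M : ℕ) [NeZero M] (Ψ : ℍ → ℂ),
    (∀ γ ∈ CongruenceSubgroup.Gamma1 M, ∀ z : ℍ, Ψ (γ • z) = Ψ z) →
    ∀ γ γ' : SL(2, ℤ), FF M (act (v0 M) γ) = FF M (act (v0 M) γ') →
      ∀ z : ℍ, Ψ (γ • z) = Ψ (γ' • z)

/-- **G4.** The Lagrange polynomial is invariant.
Proof: `w ↦ w ∘ γ` is injective (compose with `γ⁻¹`) and maps the finite set `S` into itself, hence
is a permutation of `S` (`Finset.sum_bij`, `Finset.prod_bij`, surjectivity by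
`Finset.surj_on_of_inj_on_of_card_le` or by using `γ⁻¹` as the inverse map).  `lag S ψ (γ • z) =
∑_w C (ψ w (γ • z)) ∏_(w' ≠ w) (X - C (w' (γ • z))) = ∑_w C (ψ (w ∘ γ) z) ∏ (X - C ((w' ∘ γ) z)) =
lag S ψ z`. -/
def S_G4 : Prop :=
  ∀ (S : Finset (ℍ → ℂ)) (ψ : (ℍ → ℂ) → (ℍ → ℂ)),
    (∀ w ∈ S, ∀ γ : SL(2, ℤ), (fun z => w (γ • z)) ∈ S) →
    (∀ w ∈ S, ∀ (γ : SL(2, ℤ)) (z : ℍ), ψ (fun z => w (γ • z)) z = ψ w (γ • z)) →
    ∀ (γ : SL(2, ℤ)) (z : ℍ), lag S ψ (γ • z) = lag S ψ z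

/-- **G5.** Values and degree of the Lagrange polynomial.
Proof: at `U = F z` the terms with `w ≠ F` contain the factor `F z - F z`.  Every product has
`card S - 1` linear factors, so the degree is less than `card S` (`Polynomial.eval_eq_sum_range'`). -/
def S_G5 : Prop :=
  ∀ (S : Finset (ℍ → ℂ)) (ψ : (ℍ → ℂ) → (ℍ → ℂ)) (F : ℍ → ℂ), F ∈ S → ∀ z : ℍ,
    ∑ i ∈ Finset.range S.card, (lag S ψ z).coeff i * F z ^ i =
      ψ F z * (open Classical in ∏ w ∈ S.erase F, (F z - w z))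

/-- **G6** (from Clo).  The coefficients of the Lagrange polynomial are `MF`.
Proof: say that a function `p : ℍ → ℂ[X]` is good if all its coefficient functions are `MF`; good
functions are closed under finite sums and products (`Polynomial.coeff_mul`, a finite sum over the
antidiagonal), and contain `z ↦ C (g z)` for `g` in `MF` and `X`. -/
def S_G6 : Prop :=
  ∀ (S : Finset (ℍ → ℂ)) (ψ : (ℍ → ℂ) → (ℍ → ℂ)), (∀ w ∈ S, MF w ∧ MF (ψ w)) →
    ∀ i : ℕ, MF (fun z => (lag S ψ z).coeff i)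

/-- **G7** (from L5, G4, G5, G6, Dom, Dl).
Proof: each `c_i z = (lag S ψ z).coeff i` is invariant (G4) and `MF` (G6), so there is `a_i ∈ A0`,
`a_i ≠ 0`, `a_i c_i ∈ A0` (L5).  `a = ∏_(i < card S) a_i` (nonzero by Dom; elements of `A0` are
analytic by Dl), `g_i = a c_i ∈ A0`. -/
def S_G7 : Prop :=
  ∀ (S : Finset (ℍ → ℂ)) (ψ : (ℍ → ℂ) → (ℍ → ℂ)) (F : ℍ → ℂ), F ∈ S →
    (∀ w ∈ S, ∀ γ : SL(2, ℤ), (fun z => w (γ • z)) ∈ S) →
    (∀ w ∈ S, ∀ (γ : SL(2, ℤ)) (z : ℍ), ψ (fun z => w (γ • z)) z = ψ w (γ • z)) →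
    (∀ w ∈ S, MF w ∧ MF (ψ w)) →
    ∃ a ∈ A0, a ≠ 0 ∧ ∃ g : ℕ → ℍ → ℂ, (∀ i, g i ∈ A0) ∧ ∀ z : ℍ,
      a z * (ψ F z * (open Classical in ∏ w ∈ S.erase F, (F z - w z))) =
        ∑ i ∈ Finset.range S.card, g i z * F z ^ i

/-- **G8** (from Clo, Dom, Dl, G1, G3, G7).  `Ψ` is a quotient of elements of `AA M`.
Proof.  `F = FF M (v0 M)`, `S` = the set of all `FF M (act (v0 M) γ)`, `γ ∈ SL(2, ℤ)`: a subset of the
finite set of all `FF M v`; it contains `F` and is closed under `w ↦ w ∘ γ` (G1).  By G3 there is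
`ψ` with `ψ (FF M (act v0 γ)) = Ψ ∘ γ` for all `γ` (choice of `γ` for every `w ∈ S`); then
`ψ (w ∘ δ) = ψ w ∘ δ`.  `D z = ∏_(w ∈ S, w ≠ F) (F z - w z)`.  G7 for `ψ` and for the constant
family `1`: `a Ψ D = ∑ g_i F ^ i`, `a' D = ∑ g'_i F ^ i`, `i < m = card S`.  With `E = EE M v0`:
`dl ^ m F ^ i = E ^ i dl ^ (m - i) ∈ AA M`.  So `x = dl ^ m a Ψ D` and `y = dl ^ m a' D` are in
`AA M` (`A0 ≤ AA M`), and `(a y) Ψ = a' x`.  `a y = dl ^ m a a' D ≠ 0` by Dom: `D` is a product of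
the functions `F - w`, `w ≠ F`, which are analytic (G1) and nonzero. -/
def S_G8 : Prop :=
  ∀ (M : ℕ) [NeZero M] (Ψ : ℍ → ℂ), (∀ γ : SL(2, ℤ), MF (fun z => Ψ (γ • z))) →
    (∀ γ ∈ CongruenceSubgroup.Gamma1 M, ∀ z : ℍ, Ψ (γ • z) = Ψ z) →
    ∃ a ∈ AA M, a ≠ 0 ∧ a * Ψ ∈ AA M

/-! ## E. q-expansions and descent -/

/-- **Q1.** Products and sums of convergent `q`-expansions, on a half plane `im z > Y`.
Proof: `HasSum.add`; the Cauchy product: `HasSum` in `ℂ` gives absolute summability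
(`Summable.norm`), `tsum_mul_tsum_eq_tsum_sum_antidiagonal_of_summable_norm` and
`summable_norm_sum_mul_antidiagonal_of_summable_norm`, `PowerSeries.coeff_mul`; `X ^ n`:
`PowerSeries.coeff_X_pow`, `hasSum_ite_eq`; constants similarly. -/
def S_Q1 : Prop :=
  ∀ (z : ℍ),
    (∀ c : ℂ, HasSum (fun n : ℕ => (PowerSeries.C c : PowerSeries ℂ).coeff n * qq z ^ n) c) ∧
    (∀ m : ℕ, HasSum (fun n : ℕ => (PowerSeries.X ^ m : PowerSeries ℂ).coeff n * qq z ^ n)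
      (qq z ^ m)) ∧
    (∀ (p p' : PowerSeries ℂ) (x x' : ℂ), HasSum (fun n : ℕ => p.coeff n * qq z ^ n) x →
      HasSum (fun n : ℕ => p'.coeff n * qq z ^ n) x' →
      HasSum (fun n : ℕ => (p + p').coeff n * qq z ^ n) (x + x') ∧
      HasSum (fun n : ℕ => (p * p').coeff n * qq z ^ n) (x * x'))

/-- **Q2.** Uniqueness.
Proof: suppose `p ≠ 0`, `m` the order, `p_m ≠ 0`.  Let `q0 = qq z0` for one `z0` with `im z0 > Y`;
`|p_n| |q0| ^ n` is bounded, so for `|q| < |q0|`, `∑_(n > m) |p_n| |q| ^ (n - m) ≤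
C |q| / (|q0| ^ (m + 1) (1 - |q| / |q0|)) → 0`; but `∑_n p_n q ^ (n - m) = 0` for `q = qq z`, so
`|p_m| ≤` this, contradiction for `z = i y`, `y → ∞`.  (Or: `FormalMultilinearSeries.ofScalars`,
`HasFPowerSeriesAt.eq_zero`; or `UpperHalfPlane.qExpansion_coeff_unique`.) -/
def S_Q2 : Prop :=
  ∀ (p : PowerSeries ℂ) (Y : ℝ), (∀ z : ℍ, Y < z.im →
    HasSum (fun n : ℕ => p.coeff n * qq z ^ n) 0) → p = 0

/-- **Q3.** `E4` and `E6` have `q`-expansions with coefficients in `ℤ`.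
Proof: `EisensteinSeries.E_qExpansion_coeff` with `bernoulli 4 = - 1 / 30`, `bernoulli 6 = 1 / 42`:
coefficients `240 σ_3(n)` and `- 504 σ_5(n)`; `ModularForm.hasSum_qExpansion` (with
`one_mem_strictPeriods_SL`), `qq z = 𝕢 1 z`. -/
def S_Q3 : Prop :=
  ∃ p4 p6 : PowerSeries ℤ, QE (p4.map (Int.castRingHom ℂ)) e4 ∧ QE (p6.map (Int.castRingHom ℂ)) e6

/-- **Q4** (from E7a, E7b, Q1, Q3).  The elements of `AA M` have `q`-expansions in `SP`.
Proof: `Algebra.adjoin_induction`.  `SP` contains the constants (`c • map 1`), is closed under sums,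
and under products: `Submodule.span_induction` twice, `(c • map p) (c' • map p') =
(c c') • map (p p')`.  `E4`, `E6`: Q3 (map `ℤ → V`).  `E_(0,1)`: by E7a and E7b (with
`b l = l ^ 11 (ζ ^ l + ζ ^ ((M - 1) l))`, `‖b l‖ ≤ 2 l ^ 11`) the `q`-expansion is
`c0 • 1 + c1 • map P`, `P_n = ∑_(l | n) l ^ 11 (ζ ^ l + ζ ^ ((M - 1) l))` with `ζ` in `V`
(`ζ ^ M = 1`, so `ζ ∈ V`: otherwise `ζ⁻¹ ∈ V` and `ζ = (ζ⁻¹) ^ (M - 1)`). -/
def S_Q4 : Prop :=
  ∀ (M : ℕ) [NeZero M] (k : Type) [Field k] (ι : k →+* ℂ) (V : ValuationSubring k) (ζ : k),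
    ι ζ = Complex.exp (2 * Real.pi * Complex.I / M) →
    ∀ a ∈ AA M, ∃ p ∈ SP ι V, QE p a

/-- **Q5.** Descent to `k` and bounded denominators.
Proof.  `ℂ` is a `k`-vector space via `ι` (`RingHom.toAlgebra`).  Let `(Q2)_m ≠ 0`; there is a
`k`-linear `lam : ℂ → k` with `lam ((Q2)_m) ≠ 0` (`Module.forall_dual_apply_eq_zero_iff`).  For
`Q : PowerSeries ℂ` let `L Q = PowerSeries.mk (fun n => lam (Q.coeff n))`.  Then `L` is additive and
`L (Q * p.map ι) = L Q * p` (`lam (x * ι y) = lam x * y`).  Put `R2 = L Q2 ≠ 0`, `R1 = L Q1`.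
`Bd V (L Q)` for `Q ∈ SP`: `Submodule.span_induction`; `L (c • map U) = lam c • U` (coefficients
`lam (c * ι u) = lam c * u`), and `x • U` is bounded: multiply by `1` if `x ∈ V`, by `x⁻¹` if
`x ∉ V` (then `x⁻¹ ∈ V`, `ValuationSubring.mem_or_inv_mem`).  `Bd` is closed under sums: one may
choose `c ∈ V` in the definition of `Bd` (if `c ∉ V` then `c⁻¹ ∈ V` and all coefficients
`c⁻¹ (c Q_i)` are in `V`, take `1`), then take the product of the two constants.  (Scalar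
multiplication in the induction: use the span of all `c • map U`, or prove the statement for all
`lam` simultaneously: `lam (c x) = lam' x`.) -/
def S_Q5 : Prop :=
  ∀ (k : Type) [Field k] (ι : k →+* ℂ) (V : ValuationSubring k) (Q1 Q2 : PowerSeries ℂ)
    (p : PowerSeries k), Q1 ∈ SP ι V → Q2 ∈ SP ι V → Q2 ≠ 0 → Q2 * p.map ι = Q1 →
    ∃ R1 R2 : PowerSeries k, R2 ≠ 0 ∧ R2 * p = R1 ∧ Bd V R1 ∧ Bd V R2

/-- **F5** (from G8, Q1, Q2, Q4, Q5).  The theorem of part F5.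
Proof.  G8: `a, b ∈ AA M`, `a ≠ 0`, `a Ψ = b`.  Q4: `QE pa a`, `QE pb b`, `pa, pb ∈ SP`; `pa ≠ 0`
because `a ≠ 0`.  For `im z > Y`: `pa * p.map ι` sums to `a qq ^ n Ψ = qq ^ n b`, as does
`X ^ n * pb` (Q1).  By Q2 `pa * p.map ι = X ^ n * pb`, and `X ^ n * pb ∈ SP` (`X ^ n (c • map U) =
c • map (X ^ n U)`).  Q5. -/
def S_F5 : Prop :=
  ∀ (M : ℕ) [NeZero M] (k : Type) [Field k] (ι : k →+* ℂ) (V : ValuationSubring k) (ζ : k),
    ι ζ = Complex.exp (2 * Real.pi * Complex.I / M) →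
    ∀ Ψ : ℍ → ℂ, (∀ γ : SL(2, ℤ), MF (fun z => Ψ (γ • z))) →
    (∀ γ ∈ CongruenceSubgroup.Gamma1 M, ∀ z : ℍ, Ψ (γ • z) = Ψ z) →
    ∀ (p : PowerSeries k) (n : ℕ) (Y : ℝ), (∀ z : ℍ, Y < z.im →
      HasSum (fun i : ℕ => ι (p.coeff i) * qq z ^ i) (qq z ^ n * Ψ z)) →
    ∃ Q1 Q2 : PowerSeries k, Q2 ≠ 0 ∧ Q2 * p = Q1 ∧ Bd V Q1 ∧ Bd V Q2

/-! ## F. The form used in part F -/

/-- **W1.** From the data of part F3 to `MF`.
Proof.  `f z = Ψ ((a z + b) / (c z + d))` with `g` the Moebius map, analytic and with `im (g z) > 0` on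
the upper half plane: `MeromorphicAt.comp_analyticAt`, and near `z` the function
`f ∘ ofComplex` is `Ψ ∘ g` (`γ • w` has the coordinate `g w`: `UpperHalfPlane.specialLinearGroup_apply`).
Near `i ∞`: `F` is meromorphic at `0`, so there are `n` and `G` analytic at `0` with
`G t = t ^ n F t` (definition of `MeromorphicAt`); there is `r > 0` with `G` analytic and
`‖G t‖ ≤ C` for `‖t‖ < r`, and `F t = G t / t ^ n` is analytic for `0 < ‖t‖ < r`.  With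
`t = exp (2 π i z / M)`, `‖t‖ = exp (- 2 π im z / M) < r` for large `im z`; `f ∘ ofComplex` agrees
near `z` with `F ∘ (exp (2 π i _ / M))`, so it is analytic at `z`; `qq z = t ^ M`, and
`‖qq z ^ n f z‖ ≤ ‖t‖ ^ n ‖F t‖ ≤ C` because `‖t‖ ≤ 1`, `M ≥ 1`. -/
def S_W1 : Prop :=
  ∀ (M : ℕ) [NeZero M] (Ψ : ℂ → ℂ) (γ : SL(2, ℤ)) (F : ℂ → ℂ) (Y : ℝ),
    (∀ z : ℂ, 0 < z.im → MeromorphicAt Ψ z) → MeromorphicAt F 0 →
    (∀ z : ℍ, Y < z.im → Ψ ((γ • z : ℍ) : ℂ) =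
      F (Complex.exp (2 * Real.pi * Complex.I * (z : ℂ) / M))) →
    MF (fun z => Ψ ((γ • z : ℍ) : ℂ))

/-- **W2** (from F5, W1).  The form used in part F.
Proof.  `Om = AlgebraicClosure ℚ` contains `ζ` with `ι ζ = exp (2 π i / M)` (`ι` maps the `M`-th roots
of unity of `Om` bijectively onto those of `ℂ`: both are primitive of order `M`; or: the minimal
polynomial of `exp (2 π i / M)` over `ℚ` splits in `Om`).  `L' = L ⊔ ℚ⟮ζ⟯`, finite dimensional.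
Apply F5 with `k = L'`, `V.comap (algebraMap L' Om)`, `z ↦ Ψ z`, and the power series `ψ` read over
`L'`.  W1 gives the hypothesis `MF` (from the hypothesis at the cusps).  Multiply `Q1`, `Q2` by a
common `c ≠ 0` in `L'` such that all coefficients are in `V` (if `c_i Q_i` are in `V`, one may choose
`c_i ∈ V`, see Q5, and `c = c_1 c_2`), and map to `Om`.  `Q1 ≠ 0` because `ψ ≠ 0`. -/
def S_W2 : Prop :=
  ∀ (M : ℕ) [NeZero M] (ι : AlgebraicClosure ℚ →+* ℂ) (V : ValuationSubring (AlgebraicClosure ℚ))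
    (L : IntermediateField ℚ (AlgebraicClosure ℚ)) [FiniteDimensional ℚ L]
    (Ψ : ℂ → ℂ) (ψ : PowerSeries (AlgebraicClosure ℚ)) (m : ℕ) (Y : ℝ),
    (∀ z : ℂ, 0 < z.im → MeromorphicAt Ψ z) →
    (∀ γ ∈ CongruenceSubgroup.Gamma1 M, ∀ z : ℍ, Ψ ((γ • z : ℍ) : ℂ) = Ψ (z : ℂ)) →
    (∀ γ : SL(2, ℤ), ∃ (F : ℂ → ℂ) (Y : ℝ), MeromorphicAt F 0 ∧ ∀ z : ℍ, Y < z.im →
      Ψ ((γ • z : ℍ) : ℂ) = F (Complex.exp (2 * Real.pi * Complex.I * (z : ℂ) / M))) →
    ψ ≠ 0 → (∀ i : ℕ, ψ.coeff i ∈ L) →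
    (∀ z : ℍ, Y < z.im → HasSum (fun i : ℕ => ι (ψ.coeff i) * qq z ^ i)
      (qq z ^ m * Ψ (z : ℂ))) →
    ∃ L' : IntermediateField ℚ (AlgebraicClosure ℚ), L ≤ L' ∧ FiniteDimensional ℚ L' ∧
      ∃ Q1 Q2 : PowerSeries (AlgebraicClosure ℚ), Q1 ≠ 0 ∧ Q2 ≠ 0 ∧ Q2 * ψ = Q1 ∧
        ∀ i : ℕ, Q1.coeff i ∈ L' ∧ Q1.coeff i ∈ V ∧ Q2.coeff i ∈ L' ∧ Q2.coeff i ∈ V

end DIF5
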