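import Pool.Agent.Lib.DI.F5.Spec

/-!
# DI/F5/Clo: closure properties of `MF` and `An`
-/

set_option autoImplicit false

namespace DIF5

open UpperHalfPlane Polynomial Filter
open scoped MatrixGroups Topology

private lemma Clo_qq (z : ℍ) (n : ℕ) : ‖qq z ^ n‖ ≤ 1 := by
  rw [norm_pow]
  exact pow_le_one₀ (norm_nonneg _) (UpperHalfPlane.norm_exp_two_pi_I_lt_one z).le

theorem sClo : S_Clo := by
  refine ⟨?_, ?_, ?_, ?_⟩
  · intro c
    have hA : An (fun _ : ℍ => c) := fun z => analyticAt_const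
    refine ⟨⟨fun z => (hA z).meromorphicAt, 0, ‖c‖, 0, fun z _ => ⟨hA z, ?_⟩⟩, hA⟩
    rw [pow_zero, one_mul]
  · rintro f g ⟨hf, Y, C, n, hc⟩ ⟨hg, Y', D, m, hd⟩
    refine ⟨⟨fun z => (hf z).add (hg z), max Y Y', |C| + |D|, n + m, fun z hz => ?_⟩,
      ⟨fun z => (hf z).mul (hg z), max Y Y', |C| * |D|, n + m, fun z hz => ?_⟩⟩
    · obtain ⟨h1, h2⟩ := hc z (lt_of_le_of_lt (le_max_left _ _) hz)
      obtain ⟨h3, h4⟩ := hd z (lt_of_le_of_lt (le_max_right _ _) hz)
      refine ⟨h1.add h3, ?_⟩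
      have e : qq z ^ (n + m) * (f + g) z =
          qq z ^ m * (qq z ^ n * f z) + qq z ^ n * (qq z ^ m * g z) := by
        rw [Pi.add_apply, pow_add]
        ring
      rw [e]
      refine (norm_add_le _ _).trans ?_
      rw [norm_mul (qq z ^ m) (qq z ^ n * f z), norm_mul (qq z ^ n) (qq z ^ m * g z)]
      refine add_le_add ?_ ?_
      · calc ‖qq z ^ m‖ * ‖qq z ^ n * f z‖ ≤ 1 * |C| :=
              mul_le_mul (Clo_qq z m) (h2.trans (le_abs_self _)) (norm_nonneg _) zero_le_one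
          _ = |C| := one_mul _
      · calc ‖qq z ^ n‖ * ‖qq z ^ m * g z‖ ≤ 1 * |D| :=
              mul_le_mul (Clo_qq z n) (h4.trans (le_abs_self _)) (norm_nonneg _) zero_le_one
          _ = |D| := one_mul _
    · obtain ⟨h1, h2⟩ := hc z (lt_of_le_of_lt (le_max_left _ _) hz)
      obtain ⟨h3, h4⟩ := hd z (lt_of_le_of_lt (le_max_right _ _) hz)
      refine ⟨h1.mul h3, ?_⟩
      have e : qq z ^ (n + m) * (f * g) z = (qq z ^ n * f z) * (qq z ^ m * g z) := by
        rw [Pi.mul_apply, pow_add]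
        ring
      rw [e, norm_mul]
      exact mul_le_mul (h2.trans (le_abs_self _)) (h4.trans (le_abs_self _)) (norm_nonneg _)
        (abs_nonneg _)
  · intro f g hf hg
    exact ⟨fun z => (hf z).add (hg z), fun z => (hf z).mul (hg z)⟩
  · rintro f hf ⟨Y, C, n, h⟩
    exact ⟨fun z => (hf z).meromorphicAt, Y, C, n, fun z hz => ⟨hf z, h z hz⟩⟩

end DIF5
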