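import Mathlib

/-!
# THEOREM DI, part F5 (boundedness of modular functions): definitions

`qq z = exp (2 π i z)`; `MF f`: `f` is meromorphic on the upper half plane, and near `i ∞` it is
analytic and of moderate growth in `qq z`; `A0`, `AA`: the algebras of functions generated by
`E4`, `E6`, resp. `E4`, `E6` and the Eisenstein series `EE M ![0, 1]` of weight 12.
-/

set_option autoImplicit false

namespace DIF5

open UpperHalfPlane Polynomial
open scoped MatrixGroups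

/-- `exp (2 π i z)`. -/
noncomputable def qq (z : ℍ) : ℂ := Complex.exp (2 * Real.pi * Complex.I * (z : ℂ))

/-- Meromorphic on the upper half plane, analytic and of moderate growth near `i ∞`. -/
structure MF (f : ℍ → ℂ) : Prop where
  mero : ∀ z : ℍ, MeromorphicAt (f ∘ ofComplex) (z : ℂ)
  cusp : ∃ (Y C : ℝ) (n : ℕ), ∀ z : ℍ, Y < z.im →
    AnalyticAt ℂ (f ∘ ofComplex) (z : ℂ) ∧ ‖qq z ^ n * f z‖ ≤ C

/-- Analytic on the upper half plane. -/
def An (f : ℍ → ℂ) : Prop := ∀ z : ℍ, AnalyticAt ℂ (f ∘ ofComplex) (z : ℂ)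

/-- Invariant under `SL(2, ℤ)` (weight 0). -/
def Inv (f : ℍ → ℂ) : Prop := ∀ (γ : SL(2, ℤ)) (z : ℍ), f (γ • z) = f z

/-- The automorphy factor `c z + d`. -/
noncomputable def dn (γ : SL(2, ℤ)) (z : ℍ) : ℂ := ((γ 1 0 : ℤ) : ℂ) * (z : ℂ) + ((γ 1 1 : ℤ) : ℂ)

lemma dn_eq (γ : SL(2, ℤ)) (z : ℍ) : dn γ z = denom γ z := by
  simp [dn, denom]

lemma dn_ne_zero (γ : SL(2, ℤ)) (z : ℍ) : dn γ z ≠ 0 := by
  rw [dn_eq]
  exact denom_ne_zero _ _

/-- The Eisenstein series `E4` as a function. -/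
noncomputable def e4 : ℍ → ℂ := fun z => ModularForm.E₄ z

/-- The Eisenstein series `E6` as a function. -/
noncomputable def e6 : ℍ → ℂ := fun z => ModularForm.E₆ z

/-- The discriminant `Δ`. -/
noncomputable def dl : ℍ → ℂ := fun z => ModularForm.discriminant z

/-- The function `j = E4 ^ 3 / Δ`. -/
noncomputable def jj : ℍ → ℂ := fun z => e4 z ^ 3 / dl z

/-- The algebra generated by `E4` and `E6`. -/
noncomputable def A0 : Subalgebra ℂ (ℍ → ℂ) := Algebra.adjoin ℂ {e4, e6}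

/-- The right action of `SL(2, ℤ)` on row vectors modulo `M`. -/
def act {M : ℕ} (v : Fin 2 → ZMod M) (γ : SL(2, ℤ)) : Fin 2 → ZMod M :=
  fun i => v 0 * ((γ 0 i : ℤ) : ZMod M) + v 1 * ((γ 1 i : ℤ) : ZMod M)

/-- The Eisenstein series of weight 12: the sum of `(m z + n) ^ (-12)` over all pairs
`(m, n) ≡ v` modulo `M` (the term of `(0, 0)` is `0`). -/
noncomputable def EE (M : ℕ) (v : Fin 2 → ZMod M) (z : ℍ) : ℂ :=
  ∑' u : Fin 2 → ℤ, if (fun i => (u i : ZMod M)) = v then EisensteinSeries.eisSummand 12 u z else 0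

/-- The vector `(0, 1)`. -/
def v0 (M : ℕ) : Fin 2 → ZMod M := ![0, 1]

/-- The modular function `E_v / Δ`. -/
noncomputable def FF (M : ℕ) (v : Fin 2 → ZMod M) : ℍ → ℂ := fun z => EE M v z / dl z

/-- The algebra generated by `E4`, `E6` and `E_(0,1)`. -/
noncomputable def AA (M : ℕ) : Subalgebra ℂ (ℍ → ℂ) := Algebra.adjoin ℂ {e4, e6, EE M (v0 M)}

/-- The constant term of `EE M v` at `i ∞` (the term `n = 0` is `0`). -/
noncomputable def cst (M : ℕ) (v : Fin 2 → ZMod M) : ℝ :=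
  ∑' n : ℤ, if v 0 = 0 ∧ (n : ZMod M) = v 1 then ((n : ℝ) ^ 12)⁻¹ else 0

/-- The polynomial of Lagrange interpolation: at `U = w z` (`w ∈ S`) its value is
`ψ w z * ∏_(w' ≠ w) (w z - w' z)`. -/
noncomputable def lag (S : Finset (ℍ → ℂ)) (ψ : (ℍ → ℂ) → (ℍ → ℂ)) (z : ℍ) : ℂ[X] :=
  open Classical in ∑ w ∈ S, C (ψ w z) * ∏ w' ∈ S.erase w, (X - C (w' z))

/-- `p` is the `q`-expansion of `f`, convergent on the whole upper half plane. -/
def QE (p : PowerSeries ℂ) (f : ℍ → ℂ) : Prop :=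
  ∀ z : ℍ, HasSum (fun n : ℕ => p.coeff n * qq z ^ n) (f z)

/-- The `ℂ`-span of the power series with coefficients in `V` (embedded by `ι`). -/
noncomputable def SP {k : Type} [Field k] (ι : k →+* ℂ) (V : ValuationSubring k) :
    Submodule ℂ (PowerSeries ℂ) :=
  Submodule.span ℂ (Set.range fun p : PowerSeries V => p.map (ι.comp V.subtype))

/-- Bounded denominators. -/
def Bd {k : Type} [Field k] (V : ValuationSubring k) (Q : PowerSeries k) : Prop :=
  ∃ c : k, c ≠ 0 ∧ ∀ i : ℕ, c * Q.coeff i ∈ V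

end DIF5
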