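import Pool.Agent.Lib.DI.F5.Spec

/-!
# THEOREM DI, part F5, E3: the Eisenstein series `EE M v` is bounded for `im z ≥ 1`
-/

set_option autoImplicit false

namespace DIF5

open UpperHalfPlane EisensteinSeries

/-- The substitution `(m, n) ↦ (m, n + k m)`. -/
private def E3_eqv (k : ℤ) : (Fin 2 → ℤ) ≃ (Fin 2 → ℤ) where
  toFun u := ![u 0, u 1 + k * u 0]
  invFun u := ![u 0, u 1 - k * u 0]
  left_inv u := by
    ext i
    fin_cases i <;> simp
  right_inv u := by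
    ext i
    fin_cases i <;> simp

private lemma E3_shift (k : ℤ) (z w : ℍ) (h : (w : ℂ) = (z : ℂ) + k) (u : Fin 2 → ℤ) :
    eisSummand 12 u w = eisSummand 12 (E3_eqv k u) z := by
  have h1 : ((u 0 : ℤ) : ℂ) * (w : ℂ) + ((u 1 : ℤ) : ℂ) =
      ((E3_eqv k u 0 : ℤ) : ℂ) * (z : ℂ) + ((E3_eqv k u 1 : ℤ) : ℂ) := by
    have h2 : E3_eqv k u 0 = u 0 := rfl
    have h3 : E3_eqv k u 1 = u 1 + k * u 0 := rfl
    rw [h, h2, h3]
    push_cast
    ring
  unfold eisSummand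
  rw [h1]

private lemma E3_tsum (k : ℤ) (z w : ℍ) (h : (w : ℂ) = (z : ℂ) + k) :
    ∑' u : Fin 2 → ℤ, ‖eisSummand 12 u w‖ = ∑' u : Fin 2 → ℤ, ‖eisSummand 12 u z‖ := by
  rw [← (E3_eqv k).tsum_eq (fun u => ‖eisSummand 12 u z‖)]
  exact tsum_congr fun u => by rw [E3_shift k z w h u]

private lemma E3_norm (M : ℕ) (v : Fin 2 → ZMod M) (z : ℍ) :
    ‖EE M v z‖ ≤ ∑' u : Fin 2 → ℤ, ‖eisSummand 12 u z‖ := by
  have hs := summable_norm_eisSummand (k := 12) (by norm_num) z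
  have hle : ∀ u : Fin 2 → ℤ,
      ‖(if (fun i => (u i : ZMod M)) = v then eisSummand 12 u z else 0)‖ ≤
        ‖eisSummand 12 u z‖ := by
    intro u
    split_ifs
    · exact le_rfl
    · rw [norm_zero]
      exact norm_nonneg _
  have hs2 : Summable fun u : Fin 2 → ℤ =>
      ‖(if (fun i => (u i : ZMod M)) = v then eisSummand 12 u z else 0)‖ :=
    hs.of_nonneg_of_le (fun _ => norm_nonneg _) hle
  exact (norm_tsum_le_tsum_norm hs2).trans (hs2.tsum_le_tsum hle hs)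

/-- **E3.** `EE M v` is bounded for `im z ≥ 1`. -/
theorem sE3 : S_E3 := by
  intro M _ v
  refine ⟨∑' x : Fin 2 → ℤ, r ⟨⟨((1 : ℕ) : ℝ), 1⟩, one_pos⟩ ^ (-(12 : ℤ)) * ‖x‖ ^ (-(12 : ℤ)),
    fun z hz => ?_⟩
  obtain ⟨n, hn⟩ := ModularGroup_T_zpow_mem_verticalStrip z (NeZero.pos 1)
  refine (E3_norm M v z).trans ?_
  have h0 : ((ModularGroup.T ^ (((1 : ℕ) : ℤ) * n) • z : ℍ) : ℂ) =
      (z : ℂ) + ((((1 : ℕ) : ℤ) * n : ℤ) : ℂ) := by
    rw [ModularGroup.coe_T_zpow_smul_eq]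
  rw [← E3_tsum _ z _ h0]
  have hk' : (2 : ℝ) < (12 : ℤ) := by norm_num
  refine (summable_norm_eisSummand (k := 12) (by norm_num) _).tsum_le_tsum ?_ ?_
  · intro x
    simp_rw [eisSummand, norm_zpow]
    have hz' : (1 : ℝ) ≤ z.im := hz
    exact_mod_cast
      summand_bound_of_mem_verticalStrip (lt_trans two_pos hk').le x one_pos
        (verticalStrip_anti_right _ hz' hn)
  · exact_mod_cast (summable_one_div_norm_rpow hk').mul_left <|
      r ⟨⟨((1 : ℕ) : ℝ), 1⟩, one_pos⟩ ^ (-((12 : ℤ)))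

end DIF5
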