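import Pool.Agent.Lib.DI.F5.Spec

/-!
# THEOREM DI, part F5: Q3, the integral q-expansions of the Eisenstein series of weights 4 and 6
-/

set_option autoImplicit false

namespace DIF5

open UpperHalfPlane
open scoped MatrixGroups ArithmeticFunction.sigma

private theorem qq_eq (z : ℍ) : Function.Periodic.qParam 1 (z : ℂ) = qq z := by
  unfold Function.Periodic.qParam qq
  congr 1
  simp

private theorem aux {k : ℕ} (hk : 3 ≤ k) (hk2 : Even k) (c : ℤ)
    (hc : -(2 * k / bernoulli k : ℂ) = c) :
    ∃ p : PowerSeries ℤ, QE (p.map (Int.castRingHom ℂ)) (fun z => ModularForm.E hk z) := by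
  refine ⟨PowerSeries.mk fun m => if m = 0 then 1 else c * (ArithmeticFunction.sigma (k - 1) m : ℤ),
    ?_⟩
  intro z
  have h := ModularForm.hasSum_qExpansion (f := ModularForm.E hk) one_pos
    one_mem_strictPeriods_SL z
  have h2 : (fun m : ℕ => (qExpansion 1 (ModularForm.E hk)).coeff m *
      Function.Periodic.qParam 1 (z : ℂ) ^ m) =
      fun m : ℕ => ((PowerSeries.mk fun m => if m = 0 then 1 else
        c * (ArithmeticFunction.sigma (k - 1) m : ℤ)).map (Int.castRingHom ℂ)).coeff m *
          qq z ^ m := by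
    funext m
    rw [qq_eq, EisensteinSeries.E_qExpansion_coeff hk hk2 m, PowerSeries.coeff_map,
      PowerSeries.coeff_mk, hc]
    by_cases hm : m = 0
    · simp [hm]
    · simp [hm]
  rw [h2] at h
  exact h

theorem sQ3 : S_Q3 := by
  obtain ⟨p4, h4⟩ := aux (k := 4) (by norm_num) ⟨2, rfl⟩ 240
    (by rw [show bernoulli 4 = -1 / 30 by decide +kernel]; norm_num)
  obtain ⟨p6, h6⟩ := aux (k := 6) (by norm_num) ⟨3, rfl⟩ (-504)
    (by rw [show bernoulli 6 = 1 / 42 by decide +kernel]; norm_num)
  exact ⟨p4, p6, h4, h6⟩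

end DIF5
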